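import Mathlib

/-! Five-partite hypergraphs of layered Latin cubes: basic notions and counting. -/

set_option autoImplicit false
set_option linter.unusedSectionVars false

namespace Pool.Agent.Lib.MP_356f68_co.Cube

open Finset

variable {α : Type} [Fintype α] [DecidableEq α]

/-- vertices: a class and a value -/
abbrev Col (α : Type) := Fin 5 × α

/-- the vertex set of a tuple -/
def col (g : Fin 5 → α) : Finset (Col α) := univ.image (fun j => (j, g j))

/-- the Latin property in the classes other than the layer class -/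
def Lat (E : (Fin 5 → α) → Prop) : Prop :=
  ∀ k : Fin 5, k ≠ 0 → ∀ g : Fin 5 → α, ∃! a, E (Function.update g k a)

/-- vertex sets with a perfect matching -/
def PM (E : (Fin 5 → α) → Prop) (U : Finset (Col α)) : Prop :=
  ∃ M : Finset (Fin 5 → α), (∀ g ∈ M, E g) ∧ (M : Set (Fin 5 → α)).PairwiseDisjoint col ∧
    M.biUnion col = U

/-- balanced vertex sets -/
def Bal (U : Finset (Col α)) (k : ℕ) : Prop := ∀ j : Fin 5, (U.filter (fun b => b.1 = j)).card = k

omit [Fintype α] in
lemma mem_col {g : Fin 5 → α} {b : Col α} : b ∈ col g ↔ g b.1 = b.2 := by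
  unfold col
  simp only [mem_image, mem_univ, true_and]
  constructor
  · rintro ⟨j, rfl⟩; rfl
  · intro h; exact ⟨b.1, Prod.ext rfl h⟩

omit [Fintype α] in
lemma card_col (g : Fin 5 → α) : (col g).card = 5 := by
  unfold col
  rw [card_image_of_injective _ (fun a b h => (Prod.ext_iff.1 h).1)]
  simp

omit [Fintype α] in
lemma col_inj : Function.Injective (col : (Fin 5 → α) → Finset (Col α)) := by
  intro g g' h
  funext j
  have : ((j, g j) : Col α) ∈ col g' := h ▸ mem_col.2 rfl
  exact (mem_col.1 this).symm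

omit [Fintype α] in
lemma disjoint_col {g g' : Fin 5 → α} : Disjoint (col g) (col g') ↔ ∀ j, g j ≠ g' j := by
  rw [disjoint_left]
  constructor
  · intro h j hj
    exact h (a := (j, g j)) (mem_col.2 rfl) (mem_col.2 hj.symm)
  · intro h b hb hb'
    exact h b.1 ((mem_col.1 hb).trans (mem_col.1 hb').symm)

omit [Fintype α] in
lemma bal_col (g : Fin 5 → α) : Bal (col g) 1 := by
  intro j
  rw [card_eq_one]
  refine ⟨(j, g j), ?_⟩
  ext b
  simp only [mem_filter, mem_col, mem_singleton]
  constructor
  · rintro ⟨h1, rfl⟩; exact Prod.ext rfl h1.symm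
  · rintro rfl; exact ⟨rfl, rfl⟩

omit [Fintype α] in
lemma Bal.union {U U' : Finset (Col α)} {k k' : ℕ} (h : Bal U k) (h' : Bal U' k')
    (hd : Disjoint U U') : Bal (U ∪ U') (k + k') := by
  intro j
  rw [filter_union, card_union_of_disjoint (disjoint_filter_filter hd), h j, h' j]

omit [Fintype α] in
lemma Bal.sdiff {U U' : Finset (Col α)} {k k' : ℕ} (h : Bal U (k + k')) (h' : Bal U' k')
    (hs : U' ⊆ U) : Bal (U \ U') k := by
  intro j
  have h1 : (U \ U').filter (fun b => b.1 = j)
      = U.filter (fun b => b.1 = j) \ U'.filter (fun b => b.1 = j) := by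
    ext b; simp only [mem_filter, mem_sdiff]; tauto
  rw [h1, card_sdiff_of_subset (filter_subset_filter _ hs), h j, h' j]
  omega

omit [Fintype α] [DecidableEq α] in
lemma Bal.card {U : Finset (Col α)} {k : ℕ} (h : Bal U k) : U.card = 5 * k := by
  rw [card_eq_sum_card_fiberwise (f := fun b : Col α => b.1) (t := univ) (fun _ _ => mem_univ _)]
  simp [h _]

omit [Fintype α] [DecidableEq α] in
lemma bal_empty : Bal (∅ : Finset (Col α)) 0 := by
  intro j; simp

omit [DecidableEq α] in
lemma bal_univ : Bal (univ : Finset (Col α)) (Fintype.card α) := by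
  intro j
  have : (univ : Finset (Col α)).filter (fun b => b.1 = j) = ({j} : Finset (Fin 5)) ×ˢ univ := by
    ext ⟨a, b⟩; simp [eq_comm]
  rw [this]; simp

omit [Fintype α] in
lemma Bal.le {U U' : Finset (Col α)} {k k' : ℕ} (h : Bal U k) (h' : Bal U' k') (hs : U ⊆ U') :
    k ≤ k' := by
  rw [← h 0, ← h' 0]
  exact card_le_card (filter_subset_filter _ hs)

omit [Fintype α] in
lemma Bal.exists_tuple {U : Finset (Col α)} {k : ℕ} (h : Bal U (k + 1)) :
    ∃ g : Fin 5 → α, col g ⊆ U := by
  have : ∀ j : Fin 5, ∃ a : α, ((j, a) : Col α) ∈ U := by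
    intro j
    obtain ⟨b, hb⟩ : (U.filter (fun b => b.1 = j)).Nonempty := by
      rw [← card_pos, h j]; omega
    rw [mem_filter] at hb
    exact ⟨b.2, by rw [← hb.2]; exact hb.1⟩
  choose g hg using this
  refine ⟨g, fun b hb => ?_⟩
  have := hg b.1
  rwa [mem_col.1 hb] at this

omit [Fintype α] in
lemma bal_biUnion_col (M : Finset (Fin 5 → α))
    (hM : (M : Set (Fin 5 → α)).PairwiseDisjoint col) : Bal (M.biUnion col) M.card := by
  induction M using Finset.induction_on with
  | empty => simpa using bal_empty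
  | insert g M hg ih =>
    rw [biUnion_insert, card_insert_of_notMem hg, add_comm]
    refine (bal_col g).union (ih (hM.subset (by simp))) ?_
    rw [disjoint_biUnion_right]
    intro g' hg'
    exact hM (by simp) (by simp [hg']) (fun h => hg (h ▸ hg'))

variable {E : (Fin 5 → α) → Prop}

omit [Fintype α] in
lemma PM.empty : PM E (∅ : Finset (Col α)) := ⟨∅, by simp, by simp, by simp⟩

omit [Fintype α] in
lemma PM.single {g : Fin 5 → α} (h : E g) : PM E (col g) := ⟨{g}, by simpa, by simp, by simp⟩

omit [Fintype α] in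
lemma PM.union {U U' : Finset (Col α)} (h : PM E U) (h' : PM E U') (hd : Disjoint U U') :
    PM E (U ∪ U') := by
  obtain ⟨M, h1, h2, rfl⟩ := h
  obtain ⟨M', h1', h2', rfl⟩ := h'
  refine ⟨M ∪ M', fun g hg => (mem_union.1 hg).elim (h1 g) (h1' g), ?_, union_biUnion⟩
  rw [coe_union]
  refine h2.union h2' ?_
  intro g hg g' hg' _
  exact hd.mono (subset_biUnion_of_mem col hg) (subset_biUnion_of_mem col hg')

omit [Fintype α] in
lemma PM.biUnion {ι : Type} [DecidableEq ι] (s : Finset ι) (U : ι → Finset (Col α))
    (h : ∀ i ∈ s, PM E (U i)) (hd : ∀ i ∈ s, ∀ j ∈ s, i ≠ j → Disjoint (U i) (U j)) :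
    PM E (s.biUnion U) := by
  induction s using Finset.induction_on with
  | empty => simpa using PM.empty
  | insert i s hi ih =>
    rw [biUnion_insert]
    refine (h i (by simp)).union (ih (fun j hj => h j (by simp [hj]))
      (fun j hj k hk => hd j (by simp [hj]) k (by simp [hk]))) ?_
    rw [disjoint_biUnion_right]
    intro j hj
    exact hd i (by simp) j (by simp [hj]) (fun e => hi (e ▸ hj))

omit [Fintype α] in
lemma PM.bal {U : Finset (Col α)} (h : PM E U) : ∃ k, Bal U k := by
  obtain ⟨M, _, h2, rfl⟩ := h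
  exact ⟨_, bal_biUnion_col M h2⟩

omit [Fintype α] in
lemma PM.extract {U : Finset (Col α)} (h : PM E U) {k : ℕ} (hk : 5 * k ≤ U.card) :
    ∃ T : Fin k → (Fin 5 → α), (∀ i, E (T i)) ∧ ∀ j, Function.Injective (fun i => T i j) := by
  obtain ⟨M, h1, h2, rfl⟩ := h
  have h3 := (bal_biUnion_col M h2).card
  have h4 : Fintype.card (Fin k) ≤ M.card := by simp; omega
  obtain ⟨e, he⟩ := Function.Embedding.exists_of_card_le_finset h4
  have hm : ∀ i, e i ∈ M := fun i => he (Set.mem_range_self i)
  refine ⟨e, fun i => h1 _ (hm i), fun j a b hab => ?_⟩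
  by_contra hne
  have := h2 (hm a) (hm b) (fun h => hne (e.injective h))
  exact disjoint_col.1 this j hab

/-! counting -/

open Classical in
lemma sum_lat (hE : Lat E) {k : Fin 5} (hk : k ≠ 0) (F : (Fin 5 → α) → ℝ)
    (hF : ∀ g a, F (Function.update g k a) = F g) :
    (Fintype.card α : ℝ) * ∑ g, (if E g then F g else 0) = ∑ g, F g := by
  have h1 : ∀ g : Fin 5 → α, F g = ∑ a, (if E (Function.update g k a) then
      F (Function.update g k a) else 0) := by
    intro g
    obtain ⟨a, ha, hu⟩ := hE k hk g
    rw [sum_eq_single a, if_pos ha, hF]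
    · intro b _ hb
      rw [if_neg (fun h => hb (hu b h))]
    · simp
  let e : ((Fin 5 → α) × α) ≃ ((Fin 5 → α) × α) :=
    Function.Involutive.toPerm (fun x => (Function.update x.1 k x.2, x.1 k)) (by
      intro x; simp)
  rw [sum_congr rfl (fun g _ => h1 g), ← sum_product', univ_product_univ,
    ← Equiv.sum_comp e]
  simp only [e, Function.Involutive.coe_toPerm, Function.update_idem, Function.update_eq_self]
  rw [← univ_product_univ, sum_product]
  simp [mul_sum]

/-- the number of edges containing a vertex set -/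
noncomputable def dg (E : (Fin 5 → α) → Prop) (S : Finset (Col α)) : ℝ := by
  classical exact ∑ g : Fin 5 → α, if E g ∧ S ⊆ col g then 1 else 0

lemma card_fix (S : Finset (Col α)) (hS : Set.InjOn (fun b : Col α => b.1) S) :
    (∑ g : Fin 5 → α, (if S ⊆ col g then (1 : ℝ) else 0)) * (Fintype.card α : ℝ) ^ S.card
      = (Fintype.card α : ℝ) ^ 5 := by
  induction S using Finset.induction_on with
  | empty => simp
  | insert b S hb ih =>
    have ih' := ih (hS.mono (by simp))
    rw [← ih', card_insert_of_notMem hb, pow_succ, ← mul_assoc, mul_right_comm]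
    congr 1
    have hno : ∀ b' ∈ S, b'.1 ≠ b.1 := fun b' hb' h =>
      hb (hS (by simp [hb']) (by simp) h ▸ hb')
    have hup : ∀ (g : Fin 5 → α) (a : α), S ⊆ col (Function.update g b.1 a) ↔ S ⊆ col g := by
      intro g a
      refine forall₂_congr fun b' hb' => ?_
      rw [mem_col, mem_col, Function.update_of_ne (hno b' hb')]
    have h1 : ∀ g : Fin 5 → α, (if S ⊆ col g then (1 : ℝ) else 0) = ∑ a : α,
        (if insert b S ⊆ col (Function.update g b.1 a) then (1 : ℝ) else 0) := by
      intro g
      rw [sum_eq_single b.2]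
      · simp [insert_subset_iff, mem_col, hup]
      · intro a _ ha
        simp [insert_subset_iff, mem_col, ha]
      · simp
    let e : ((Fin 5 → α) × α) ≃ ((Fin 5 → α) × α) :=
      Function.Involutive.toPerm (fun x => (Function.update x.1 b.1 x.2, x.1 b.1)) (by
        intro x; simp)
    rw [sum_congr rfl (fun g _ => h1 g), ← sum_product', univ_product_univ,
      ← Equiv.sum_comp e]
    simp only [e, Function.Involutive.coe_toPerm, Function.update_idem, Function.update_eq_self]
    rw [← univ_product_univ, sum_product, sum_mul]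
    refine sum_congr rfl fun g _ => ?_
    by_cases h : insert b S ⊆ col g <;> simp [h]

lemma dg_eq [Nonempty α] (hE : Lat E) (S : Finset (Col α)) (hS : Set.InjOn (fun b : Col α => b.1) S)
    (h3 : S.card ≤ 3) : dg E S * (Fintype.card α : ℝ) ^ S.card = (Fintype.card α : ℝ) ^ 4 := by
  classical
  obtain ⟨k, hk0, hk⟩ : ∃ k : Fin 5, k ≠ 0 ∧ ∀ b ∈ S, b.1 ≠ k := by
    by_contra h
    push Not at h
    have h1 : (univ.erase (0 : Fin 5)) ⊆ S.image (fun b => b.1) := by
      intro k hk
      obtain ⟨b, hb, rfl⟩ := h k (ne_of_mem_erase hk)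
      exact mem_image_of_mem _ hb
    have h2 := (card_le_card h1).trans card_image_le
    simp at h2
    omega
  have h1 := sum_lat hE hk0 (fun g => if S ⊆ col g then (1 : ℝ) else 0) (by
    intro g a
    congr 1
    refine propext (forall₂_congr fun b' hb' => ?_)
    rw [mem_col, mem_col, Function.update_of_ne (hk b' hb')])
  have h2 := card_fix S hS
  have hn : (0 : ℝ) < Fintype.card α := by exact_mod_cast Fintype.card_pos
  have h3 : dg E S = ∑ g, (if E g then (if S ⊆ col g then (1 : ℝ) else 0) else 0) := by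
    unfold dg
    refine sum_congr rfl fun g _ => ?_
    by_cases h : E g <;> simp [h]
  rw [← h1, ← h3] at h2
  apply mul_left_cancel₀ hn.ne'
  rw [← mul_assoc, h2]; ring

lemma dg_nonneg (S : Finset (Col α)) : 0 ≤ dg E S := by
  unfold dg
  exact sum_nonneg fun g _ => by split_ifs <;> norm_num

lemma dg_le [Nonempty α] (hE : Lat E) (S : Finset (Col α)) (h3 : S.card ≤ 3) :
    dg E S * (Fintype.card α : ℝ) ^ S.card ≤ (Fintype.card α : ℝ) ^ 4 := by
  by_cases hS : Set.InjOn (fun b : Col α => b.1) S
  · exact (dg_eq hE S hS h3).le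
  · have : dg E S = 0 := by
      unfold dg
      refine sum_eq_zero fun g _ => if_neg ?_
      rintro ⟨_, h⟩
      apply hS
      intro b hb b' hb' hbb
      have h1 := mem_col.1 (h hb)
      have h2 := mem_col.1 (h hb')
      simp only at hbb
      exact Prod.ext hbb (by rw [← h1, ← h2, hbb])
    rw [this, zero_mul]; positivity

end Pool.Agent.Lib.MP_356f68_co.Cube
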