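import Mathlib
import Pool.Agent.Shared.PolyNibble
import Pool.Agent.Lib.MP_356f68_co.Cube.Basic

/-! An almost perfect matching after deleting a small balanced set. -/

set_option autoImplicit false
set_option linter.unusedSectionVars false

namespace Pool.Agent.Lib.MP_356f68_co.Cube

open Finset Pool.Agent.Lib.MP_d738f8_co

variable {α : Type} [Fintype α] [DecidableEq α] {E : (Fin 5 → α) → Prop}

/-- edges avoiding `R` -/
noncomputable def av (E : (Fin 5 → α) → Prop) (R : Finset (Col α)) : Finset (Fin 5 → α) := by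
  classical exact univ.filter (fun g => E g ∧ Disjoint (col g) R)

lemma mem_av {R : Finset (Col α)} {g : Fin 5 → α} : g ∈ av E R ↔ E g ∧ Disjoint (col g) R := by
  unfold av; simp

/-- codegrees among the edges avoiding `R` -/
noncomputable def d2 (E : (Fin 5 → α) → Prop) (R : Finset (Col α)) (u v : Col α) : ℝ :=
  ∑ g ∈ av E R, chi u (col g) * chi v (col g)

lemma d2_le_dg (R : Finset (Col α)) (u v : Col α) : d2 E R u v ≤ dg E {u, v} := by
  classical
  unfold d2 dg
  refine le_trans (le_of_eq (sum_congr rfl fun g hg => ?_))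
    (sum_le_sum_of_subset_of_nonneg (subset_univ (av E R))
      fun g _ _ => by split_ifs <;> norm_num)
  have := (mem_av.1 hg).1
  by_cases h1 : u ∈ col g <;> by_cases h2 : v ∈ col g <;> simp [chi, h1, h2, this, insert_subset_iff]

lemma dg_le_d2 (R : Finset (Col α)) (u v : Col α) :
    dg E {u, v} ≤ d2 E R u v + ∑ b ∈ R, dg E {b, u, v} := by
  classical
  have h : d2 E R u v = ∑ g, if g ∈ av E R then chi u (col g) * chi v (col g) else 0 := by
    rw [← sum_filter, filter_mem_eq_inter, univ_inter]; rfl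
  rw [h]
  unfold dg
  rw [sum_comm, ← sum_add_distrib]
  refine sum_le_sum fun g _ => ?_
  have h0 : ∀ b ∈ R, (0 : ℝ) ≤ if E g ∧ {b, u, v} ⊆ col g then 1 else 0 := fun b _ => by
    split_ifs <;> norm_num
  have h1 : 0 ≤ if g ∈ av E R then chi u (col g) * chi v (col g) else 0 := by
    split_ifs
    · exact mul_nonneg (chi_nonneg _ _) (chi_nonneg _ _)
    · exact le_rfl
  have h2 := sum_nonneg h0
  by_cases h3 : E g ∧ {u, v} ⊆ col g
  · rw [if_pos h3]
    by_cases h4 : Disjoint (col g) R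
    · have h5 := h3.2
      simp only [insert_subset_iff, singleton_subset_iff] at h5
      rw [if_pos (mem_av.2 ⟨h3.1, h4⟩), chi, chi, if_pos h5.1, if_pos h5.2]
      linarith
    · obtain ⟨b, h5, h6⟩ := not_disjoint_iff.1 h4
      have h7 := single_le_sum h0 h6
      rw [if_pos ⟨h3.1, insert_subset h5 h3.2⟩] at h7
      linarith
  · rw [if_neg h3]; linarith

variable [Nonempty α]

lemma d2_self (hE : Lat E) {R : Finset (Col α)} (hR : 100 * R.card ≤ Fintype.card α) {u : Col α}
    (hu : u ∉ R) : 99 / 100 * (Fintype.card α : ℝ) ^ 3 ≤ d2 E R u u ∧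
      d2 E R u u ≤ (Fintype.card α : ℝ) ^ 3 := by
  have hn : (0 : ℝ) < Fintype.card α := by exact_mod_cast Fintype.card_pos
  have h1 : dg E {u, u} = (Fintype.card α : ℝ) ^ 3 := by
    have := dg_eq hE {u} (by simp) (by simp)
    rw [card_singleton] at this
    rw [pair_eq_singleton]
    exact mul_right_cancel₀ hn.ne' (by linarith)
  have h2 : ∀ b ∈ R, dg E {b, u, u} ≤ (Fintype.card α : ℝ) ^ 2 := by
    intro b hb
    have hc : ({b, u} : Finset (Col α)).card = 2 := card_pair (fun h => hu (h ▸ hb))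
    have := dg_le hE {b, u} (by omega)
    rw [hc] at this
    rw [pair_eq_singleton]
    exact le_of_mul_le_mul_right (a := (Fintype.card α : ℝ) ^ 2) (by linarith) (by positivity)
  have h3 := dg_le_d2 (E := E) R u u
  have h4 := sum_le_sum h2
  rw [sum_const, nsmul_eq_mul] at h4
  have h5 : (100 * R.card : ℝ) ≤ Fintype.card α := by exact_mod_cast hR
  exact ⟨by nlinarith [sq_nonneg (Fintype.card α : ℝ)], h1 ▸ d2_le_dg R u u⟩

lemma d2_le (hE : Lat E) (R : Finset (Col α)) {u v : Col α} (h : u ≠ v) :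
    d2 E R u v ≤ (Fintype.card α : ℝ) ^ 2 := by
  have hn : (0 : ℝ) < Fintype.card α := by exact_mod_cast Fintype.card_pos
  have hc := card_pair h
  have := dg_le hE {u, v} (by omega)
  rw [hc] at this
  exact (d2_le_dg R u v).trans
    (le_of_mul_le_mul_right (a := (Fintype.card α : ℝ) ^ 2) (by linarith) (by positivity))

lemma d2_ge (hE : Lat E) {R : Finset (Col α)} (hR : 100 * R.card ≤ Fintype.card α) {u v : Col α}
    (hu : u ∉ R) (hv : v ∉ R) (h : v.1 ≠ u.1) :
    99 / 100 * (Fintype.card α : ℝ) ^ 2 ≤ d2 E R u v := by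
  have hn : (0 : ℝ) < Fintype.card α := by exact_mod_cast Fintype.card_pos
  have huv : u ≠ v := fun e => h (e ▸ rfl)
  have h1 : dg E {u, v} = (Fintype.card α : ℝ) ^ 2 := by
    have hc := card_pair huv
    have := dg_eq hE {u, v} (by
      intro a ha b hb hab
      simp only [coe_insert, coe_singleton, Set.mem_insert_iff, Set.mem_singleton_iff] at ha hb
      rcases ha with rfl | rfl <;> rcases hb with rfl | rfl
      · rfl
      · exact absurd hab.symm h
      · exact absurd hab h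
      · rfl) (by omega)
    rw [hc] at this
    exact mul_right_cancel₀ (b := (Fintype.card α : ℝ) ^ 2) (by positivity) (by linarith)
  have h2 : ∀ b ∈ R, dg E {b, u, v} ≤ (Fintype.card α : ℝ) := by
    intro b hb
    have hc : ({b, u, v} : Finset (Col α)).card = 3 :=
      card_eq_three.2 ⟨b, u, v, fun h => hu (h ▸ hb), fun h => hv (h ▸ hb), huv, rfl⟩
    have := dg_le hE {b, u, v} (by omega)
    rw [hc] at this
    exact le_of_mul_le_mul_right (a := (Fintype.card α : ℝ) ^ 3) (by linarith) (by positivity)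
  have h3 := dg_le_d2 (E := E) R u v
  have h4 := sum_le_sum h2
  rw [sum_const, nsmul_eq_mul] at h4
  have h5 : (100 * R.card : ℝ) ≤ Fintype.card α := by exact_mod_cast hR
  nlinarith

lemma d2_zero (R : Finset (Col α)) {u v : Col α} (h : v ≠ u) (h' : v.1 = u.1) :
    d2 E R u v = 0 := by
  refine sum_eq_zero fun g _ => ?_
  unfold chi
  split_ifs with h1 h2
  · exact absurd (Prod.ext h' (by rw [← mem_col.1 h1, ← mem_col.1 h2, h'])) h
  all_goals simp

/-- the load of a vertex -/
noncomputable def ld (E : (Fin 5 → α) → Prop) (R : Finset (Col α)) (w : (Fin 5 → α) → ℝ)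
    (v : Col α) : ℝ := ∑ g ∈ av E R, w g * chi v (col g)

lemma sum_chi {R : Finset (Col α)} {g : Fin 5 → α} (hg : g ∈ av E R) (F : Col α → ℝ) :
    ∑ v ∈ univ \ R, chi v (col g) * F v = ∑ j, F (j, g j) := by
  have h1 : ∑ j, F (j, g j) = ∑ v ∈ col g, F v := by
    unfold col; rw [sum_image (fun a _ b _ h => (Prod.ext_iff.1 h).1)]
  rw [h1, ← sum_subset (s₁ := col g) (fun v hv => mem_sdiff.2 ⟨mem_univ _,
    disjoint_left.1 (mem_av.1 hg).2 hv⟩) (fun v _ hv => by rw [chi, if_neg hv, zero_mul])]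
  exact sum_congr rfl fun v hv => by rw [chi, if_pos hv, one_mul]

lemma sum_ld {R : Finset (Col α)} {m : ℕ} (hm : Bal (univ \ R) m) (w : (Fin 5 → α) → ℝ)
    (F : Fin 5 → ℝ) : ∑ v ∈ univ \ R, (ld E R w v - 1) * F v.1
      = (∑ g ∈ av E R, w g - m) * ∑ j, F j := by
  have h1 : ∑ v ∈ univ \ R, ld E R w v * F v.1 = (∑ g ∈ av E R, w g) * ∑ j, F j := by
    simp only [ld, sum_mul]
    rw [sum_comm]
    refine sum_congr rfl fun g hg => ?_
    simp only [mul_assoc, ← mul_sum]
    rw [sum_chi hg (fun v => F v.1)]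
  have h2 : ∑ v ∈ univ \ R, F v.1 = m * ∑ j, F j := by
    rw [← sum_fiberwise_of_maps_to (g := fun v : Col α => v.1) (t := univ) (fun _ _ => mem_univ _),
      mul_sum]
    refine sum_congr rfl fun j _ => ?_
    rw [sum_congr rfl (g := fun _ => F j) (fun v hv => by rw [(mem_filter.1 hv).2]), sum_const,
      hm j, nsmul_eq_mul]
  simp only [sub_mul, sum_sub_distrib, one_mul, h1, h2]

lemma boost_step (hE : Lat E) {R : Finset (Col α)} (hR : 100 * R.card ≤ Fintype.card α) {m : ℕ}
    (hm : Bal (univ \ R) m) (w : (Fin 5 → α) → ℝ) {δ : ℝ} (hδ : 0 ≤ δ)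
    (h1 : ∀ v ∈ univ \ R, |ld E R w v - 1| ≤ δ) (h2 : ∑ g ∈ av E R, w g = m) :
    ∃ w' : (Fin 5 → α) → ℝ, (∀ v ∈ univ \ R, |ld E R w' v - 1| ≤ δ / 2) ∧
      ∑ g ∈ av E R, w' g = m ∧
      ∀ g ∈ av E R, |w' g - w g| ≤ 6 * δ / (Fintype.card α : ℝ) ^ 3 := by
  set n : ℝ := (Fintype.card α : ℝ) with hn'
  have hn : 0 < n := by rw [hn']; exact_mod_cast Fintype.card_pos
  have hd : ∀ v ∈ univ \ R, 99 / 100 * n ^ 3 ≤ d2 E R v v ∧ d2 E R v v ≤ n ^ 3 := fun v hv =>
    d2_self hE hR (mem_sdiff.1 hv).2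
  have hd0 : ∀ v ∈ univ \ R, 0 < d2 E R v v := fun v hv =>
    lt_of_lt_of_le (by positivity) (hd v hv).1
  have h0 : ∀ F : Fin 5 → ℝ, ∑ v ∈ univ \ R, (ld E R w v - 1) * F v.1 = 0 := by
    intro F; rw [sum_ld hm, h2, sub_self, zero_mul]
  refine ⟨fun g => w g - ∑ v ∈ univ \ R, chi v (col g) * ((ld E R w v - 1) / d2 E R v v),
    fun u hu => ?_, ?_, fun g hg => ?_⟩
  · have e1 : ld E R (fun g => w g - ∑ v ∈ univ \ R,
        chi v (col g) * ((ld E R w v - 1) / d2 E R v v)) u
        = ld E R w u - ∑ v ∈ univ \ R, (ld E R w v - 1) * (d2 E R u v / d2 E R v v) := by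
      rw [ld]
      simp only [sub_mul, sum_sub_distrib (s := av E R), sum_mul]
      congr 1
      rw [sum_comm]
      refine sum_congr rfl fun v _ => ?_
      rw [← sub_mul, d2.eq_1 E R u v, sum_div, mul_sum]
      exact sum_congr rfl fun g _ => by ring
    set err : Col α → ℝ := fun v => d2 E R u v / d2 E R v v - (if v = u then 1 else 0)
      - (if v.1 = u.1 then 0 else 1 / n) with herr
    have e2 : ∑ v ∈ univ \ R, (ld E R w v - 1) * (d2 E R u v / d2 E R v v)
        = ∑ v ∈ univ \ R, (ld E R w v - 1) * err v + (ld E R w u - 1) := by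
      have e3 := h0 (fun j => if j = u.1 then 0 else 1 / n)
      have e4 : ∑ v ∈ univ \ R, (ld E R w v - 1) * (if v = u then 1 else 0) = ld E R w u - 1 := by
        simp only [mul_ite, mul_one, mul_zero]
        rw [sum_ite_eq', if_pos hu]
      simp only [herr, mul_sub (ld E R w _ - 1), sum_sub_distrib, e3, e4]
      ring
    have e5 : ∀ v ∈ univ \ R, |err v| ≤ 1 / (99 * n) := by
      intro v hv
      simp only [herr]
      by_cases g1 : v = u
      · subst g1
        rw [div_self (hd0 v hv).ne']; simp; positivity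
      by_cases g2 : v.1 = u.1
      · rw [d2_zero R g1 g2, if_neg g1, if_pos g2]; simp; positivity
      rw [if_neg g1, if_neg g2, sub_zero, abs_le]
      have g3 := d2_le hE R (Ne.symm g1)
      have g4 := d2_ge hE hR (mem_sdiff.1 hu).2 (mem_sdiff.1 hv).2 g2
      rw [← hn'] at g3 g4
      have g5 : d2 E R u v / d2 E R v v ≤ n ^ 2 / (99 / 100 * n ^ 3) :=
        div_le_div₀ (by positivity) g3 (by positivity) (hd v hv).1
      have g6 : 99 / 100 * n ^ 2 / n ^ 3 ≤ d2 E R u v / d2 E R v v :=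
        div_le_div₀ (le_trans (by positivity) g4) g4 (hd0 v hv) (hd v hv).2
      have g7 : n ^ 2 / (99 / 100 * n ^ 3) = 1 / n + 1 / (99 * n) := by field_simp; norm_num
      have g8 : 99 / 100 * n ^ 2 / n ^ 3 = 1 / n - 99 / 100 * (1 / (99 * n)) := by
        field_simp; norm_num
      have g9 : 0 < 1 / (99 * n) := by positivity
      constructor <;> linarith
    have e6 : |∑ v ∈ univ \ R, (ld E R w v - 1) * err v| ≤ ∑ _v ∈ univ \ R, δ * (1 / (99 * n)) :=
      (abs_sum_le_sum_abs _ _).trans (sum_le_sum fun v hv => by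
        rw [abs_mul]; exact mul_le_mul (h1 v hv) (e5 v hv) (abs_nonneg _) hδ)
    have e7 : ((univ \ R).card : ℝ) ≤ 5 * n := by
      have := card_le_univ (univ \ R)
      rw [Fintype.card_prod, Fintype.card_fin] at this
      rw [hn']; exact_mod_cast this
    rw [sum_const, nsmul_eq_mul] at e6
    have e8 := mul_le_mul_of_nonneg_right e7 (show 0 ≤ δ * (1 / (99 * n)) by positivity)
    have e9 : 5 * n * (δ * (1 / (99 * n))) = 5 / 99 * δ := by field_simp
    rw [e1, e2, show ∀ a b : ℝ, a - (b + (a - 1)) - 1 = -b from fun a b => by ring, abs_neg]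
    linarith
  · rw [sum_sub_distrib, h2, sum_comm, sub_eq_self, ← h0 (fun _ => 1)]
    refine sum_congr rfl fun v hv => ?_
    have : ∑ g ∈ av E R, chi v (col g) = d2 E R v v := by simp only [d2, chi_mul_self]
    rw [← sum_mul, this, mul_one, mul_div_cancel₀ _ (hd0 v hv).ne']
  · rw [sub_sub_cancel_left, abs_neg, sum_chi hg]
    refine (abs_sum_le_sum_abs _ _).trans ?_
    have : ∀ j ∈ (univ : Finset (Fin 5)), |(ld E R w (j, g j) - 1) / d2 E R (j, g j) (j, g j)|
        ≤ δ / (99 / 100 * n ^ 3) := by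
      intro j _
      have hv : (j, g j) ∈ univ \ R :=
        mem_sdiff.2 ⟨mem_univ _, disjoint_left.1 (mem_av.1 hg).2 (mem_col.2 rfl)⟩
      rw [abs_div, abs_of_pos (hd0 _ hv)]
      exact div_le_div₀ hδ (h1 _ hv) (by positivity) (hd _ hv).1
    refine (sum_le_sum this).trans ?_
    have e : δ / (99 / 100 * n ^ 3) = 100 / 99 * (δ / n ^ 3) := by field_simp
    have : 0 ≤ δ / n ^ 3 := by positivity
    rw [sum_const, card_univ, Fintype.card_fin, nsmul_eq_mul, e, mul_div_assoc]
    push_cast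
    linarith

lemma boost (hE : Lat E) {R : Finset (Col α)} (hR : 100 * R.card ≤ Fintype.card α) {m : ℕ}
    (hm : Bal (univ \ R) m) (hm0 : 0 < m) (t : ℕ) :
    ∃ w : (Fin 5 → α) → ℝ, (∀ v ∈ univ \ R, |ld E R w v - 1| ≤ 1 / 99 / 2 ^ t) ∧
      ∑ g ∈ av E R, w g = m ∧ ∀ g ∈ av E R,
        |w g - 1 / (Fintype.card α : ℝ) ^ 3| ≤ (1 - 12 * (1 / 99 / 2 ^ t))
          / (Fintype.card α : ℝ) ^ 3 := by
  set n : ℝ := (Fintype.card α : ℝ) with hn'
  have hn : 0 < n := by rw [hn']; exact_mod_cast Fintype.card_pos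
  induction t with
  | zero =>
    have hd : ∀ v ∈ univ \ R, 99 / 100 * n ^ 3 ≤ d2 E R v v ∧ d2 E R v v ≤ n ^ 3 := fun v hv =>
      d2_self hE hR (mem_sdiff.1 hv).2
    have hm' : (0 : ℝ) < m := by exact_mod_cast hm0
    set N : ℝ := ((av E R).card : ℝ) with hN
    have h1 : ∀ (c : ℝ) v, ld E R (fun _ => c) v = c * d2 E R v v := by
      intro c v; simp only [ld, d2, chi_mul_self, mul_sum]
    have h2 : ∑ v ∈ univ \ R, (d2 E R v v - 1) = (N - m) * 5 := by
      simpa [h1] using sum_ld (E := E) hm (fun _ => 1) (fun _ => 1)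
    have h3 := sum_le_sum fun v hv => (hd v hv).1
    have h4 := sum_le_sum fun v hv => (hd v hv).2
    rw [sum_sub_distrib] at h2
    simp only [sum_const, hm.card, nsmul_eq_mul] at h2 h3 h4
    push_cast at h2 h3 h4
    have h5 : 99 / 100 * (m * n ^ 3) ≤ N := by linarith
    have h6 : N ≤ m * n ^ 3 := by linarith
    have hN0 : 0 < N := lt_of_lt_of_le (by positivity) h5
    have h7 : 1 / n ^ 3 ≤ m / N := by
      rw [div_le_div_iff₀ (by positivity) hN0]; linarith
    have h8 : m / N ≤ 100 / 99 * (1 / n ^ 3) := by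
      rw [mul_one_div, div_le_div_iff₀ hN0 (by positivity)]; linarith
    have h9 : 0 < 1 / n ^ 3 := by positivity
    refine ⟨fun _ => m / N, fun v hv => ?_, ?_, fun g _ => ?_⟩
    · rw [h1, abs_le]
      have g1 := mul_le_mul h8 (hd v hv).2 (le_trans (by positivity) (hd v hv).1) (by positivity)
      have g2 := mul_le_mul h7 (hd v hv).1 (by positivity) (by positivity)
      have g3 : 100 / 99 * (1 / n ^ 3) * n ^ 3 = 100 / 99 := by field_simp
      have g4 : 1 / n ^ 3 * (99 / 100 * n ^ 3) = 99 / 100 := by field_simp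
      constructor <;> norm_num <;> linarith
    · rw [sum_const, nsmul_eq_mul, ← hN, mul_div_cancel₀ _ hN0.ne']
    · rw [abs_le, div_eq_mul_one_div (1 - _)]
      constructor <;> norm_num <;> norm_num at h7 h8 h9 <;> linarith
  | succ t ih =>
    obtain ⟨w, h1, h2, h3⟩ := ih
    obtain ⟨w', g1, g2, g3⟩ := boost_step hE hR hm w (by positivity) h1 h2
    refine ⟨w', fun v hv => (g1 v hv).trans (le_of_eq (by rw [pow_succ, div_div _ (2 ^ t : ℝ)])), g2,
      fun g hg => ?_⟩
    have g4 := abs_sub_le (w' g) (w g) (1 / n ^ 3)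
    have g5 : (1 - 12 * (1 / 99 / 2 ^ (t + 1))) / n ^ 3
        = 6 * (1 / 99 / 2 ^ t) / n ^ 3 + (1 - 12 * (1 / 99 / 2 ^ t)) / n ^ 3 := by
      field_simp; ring
    linarith [g3 g hg, h3 g hg]

theorem almost (hE : Lat E) {R : Finset (Col α)} (hR : 100 * R.card ≤ Fintype.card α) {k : ℕ}
    (hk : Bal R k) (X : ℕ) (hX : 1 ≤ X) (hn : 10 ^ 17 * X ^ 15 ≤ Fintype.card α) :
    ∃ Y ⊆ univ \ R, ∃ r, PM E Y ∧ Bal ((univ \ R) \ Y) r ∧ r * X ≤ 6 * Fintype.card α := by
  have hk1 := hk.card
  have hn1 : 0 < Fintype.card α := Fintype.card_pos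
  obtain ⟨m, hm⟩ : ∃ m, m + k = Fintype.card α := ⟨Fintype.card α - k, by omega⟩
  have hB : Bal (univ \ R) m := Bal.sdiff (hm ▸ bal_univ) hk (subset_univ _)
  obtain ⟨w, h1, h2, h3⟩ := boost hE hR hB (by omega) X
  set n : ℝ := (Fintype.card α : ℝ) with hn'
  have hn0 : 0 < n := by rw [hn']; exact_mod_cast hn1
  set δ : ℝ := 1 / 99 / 2 ^ X with hδ
  have hδ0 : 0 < δ := by positivity
  have hX' : (1 : ℝ) ≤ X := by exact_mod_cast hX
  have hδ1 : δ * X ≤ 1 := by
    have : (X : ℝ) ≤ 2 ^ X := by exact_mod_cast Nat.lt_two_pow_self.le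
    rw [hδ, div_mul_eq_mul_div, div_le_one (by positivity)]; linarith
  have h4 : ∀ g ∈ av E R, 0 ≤ w g ∧ w g ≤ 2 / n ^ 3 := by
    intro g hg
    have := abs_le.1 ((h3 g hg).trans (show (1 - 12 * δ) / n ^ 3 ≤ 1 / n ^ 3 by
      gcongr; linarith))
    have e : 2 / n ^ 3 = 1 / n ^ 3 + 1 / n ^ 3 := by ring
    constructor <;> linarith
  have hs : ∀ F : Finset (Col α) → ℝ, ∑ e ∈ (av E R).image col,
      w (Function.invFun col e) / (1 + δ) * F e = (∑ g ∈ av E R, w g * F (col g)) / (1 + δ) := by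
    intro F
    rw [sum_image (fun a _ b _ h => col_inj h), sum_div]
    exact sum_congr rfl fun g _ => by rw [Function.leftInverse_invFun col_inj g]; ring
  obtain ⟨M, g1, g2, g3⟩ := Pool.Agent.Shared.PolyNibble.nibble_poly (r := 5) (by norm_num) X hX
    ((av E R).image col) (fun e => w (Function.invFun col e) / (1 + δ))
    (fun e he => by obtain ⟨g, -, rfl⟩ := mem_image.1 he; exact card_col g)
    (fun e he => by
      obtain ⟨g, hg, rfl⟩ := mem_image.1 he
      rw [Function.leftInverse_invFun col_inj g]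
      exact div_nonneg (h4 g hg).1 (by linarith))
    (fun v => by
      rw [load, hs (chi v), div_le_one (by linarith)]
      by_cases hv : v ∈ R
      · rw [sum_eq_zero (fun g hg => by
          rw [chi, if_neg (disjoint_right.1 (mem_av.1 hg).2 hv), mul_zero])]
        linarith
      · have := (abs_le.1 (h1 v (mem_sdiff.2 ⟨mem_univ _, hv⟩))).2
        unfold ld at this
        linarith)
    (fun u v huv => by
      rw [cod, hs (fun e => chi u e * chi v e)]
      have e1 : ∑ g ∈ av E R, w g * (chi u (col g) * chi v (col g)) ≤ 2 / n ^ 3 * n ^ 2 := by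
        refine le_trans ?_ (mul_le_mul_of_nonneg_left (d2_le hE R huv) (by positivity))
        rw [d2, mul_sum]
        exact sum_le_sum fun g hg => mul_le_mul_of_nonneg_right (h4 g hg).2
          (mul_nonneg (chi_nonneg _ _) (chi_nonneg _ _))
      have e2 : 2 / n ^ 3 * n ^ 2 = 2 / n := by field_simp
      have e3 : (10 ^ 17 * X ^ 15 : ℝ) ≤ n := by rw [hn']; exact_mod_cast hn
      refine le_trans (b := 2 / n) ?_ ?_
      · rw [div_le_iff₀ (by linarith)]
        have : 0 ≤ 2 / n * δ := by positivity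
        linarith
      · rw [div_le_div_iff₀ hn0 (by positivity)]
        have : (0 : ℝ) ≤ X ^ 15 := by positivity
        push_cast
        nlinarith)
  have e1 := hs (fun _ => 1)
  simp only [mul_one, h2] at e1
  rw [e1] at g3
  set M' := (av E R).filter (fun g => col g ∈ M) with hM'
  have e2 : (M' : Set (Fin 5 → α)).PairwiseDisjoint col := fun a ha b hb hab =>
    g2 (mem_filter.1 ha).2 (mem_filter.1 hb).2 (fun h => hab (col_inj h))
  have e3 : M.card ≤ M'.card := by
    refine le_trans (card_le_card fun e he => ?_) (card_image_le (f := col))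
    obtain ⟨g, hg, rfl⟩ := mem_image.1 (g1 he)
    exact mem_image_of_mem _ (mem_filter.2 ⟨hg, he⟩)
  have e4 : M'.biUnion col ⊆ univ \ R := by
    intro v hv
    obtain ⟨g, hg, h⟩ := mem_biUnion.1 hv
    exact mem_sdiff.2 ⟨mem_univ _, disjoint_left.1 (mem_av.1 (mem_filter.1 hg).1).2 h⟩
  have e5 := bal_biUnion_col M' e2
  obtain ⟨r, hr⟩ : ∃ r, r + M'.card = m := ⟨m - M'.card, by have := e5.le hB e4; omega⟩
  refine ⟨_, e4, r, ⟨M', fun g hg => (mem_av.1 (mem_filter.1 hg).1).1, e2, rfl⟩,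
    Bal.sdiff (hr ▸ hB) e5 e4, ?_⟩
  have e6 : (r : ℝ) + M.card ≤ m := by exact_mod_cast (by omega : r + M.card ≤ m)
  have e7 : (m : ℝ) ≤ n := by rw [hn']; exact_mod_cast (by omega : m ≤ Fintype.card α)
  have e8 : (m : ℝ) - δ * n ≤ m / (1 + δ) := by
    rw [le_div_iff₀ (by linarith)]
    nlinarith [mul_pos hδ0 hδ0]
  rw [Fintype.card_prod, Fintype.card_fin] at g3
  push_cast at g3
  have e9 : (r : ℝ) ≤ δ * n + 5 * n / X := by linarith
  have e10 : (r : ℝ) * X ≤ 6 * n := by
    have := mul_le_mul_of_nonneg_right e9 (show (0 : ℝ) ≤ X by linarith)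
    rw [add_mul, div_mul_cancel₀ _ (by linarith)] at this
    nlinarith
  rw [hn'] at e10
  exact_mod_cast e10

end Pool.Agent.Lib.MP_356f68_co.Cube
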