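import Mathlib

/-! Entropy of a symmetric labelled walk and a variational inequality. -/

set_option autoImplicit false
set_option linter.unusedSectionVars false

namespace Pool.Agent.Lib.MP_356f68_co.Cube

open Finset

/-- a symmetric labelled transition kernel -/
structure Ker (V P : Type) [Fintype V] [Fintype P] where
  c : V → P → V → ℝ
  nonneg : ∀ u p v, 0 ≤ c u p v
  symm : ∀ u p v, c u p v = c v p u
  sum_one : ∀ u, ∑ p, ∑ v, c u p v = 1

namespace Ker

variable {V P : Type} [Fintype V] [DecidableEq V] [Fintype P] (κ : Ker V P)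

/-- one step kernel -/
noncomputable def K : Matrix V V ℝ := fun u v => ∑ p, κ.c u p v

/-- the `t` step kernel -/
noncomputable def k (t : ℕ) : Matrix V V ℝ := κ.K ^ t

lemma K_symm : κ.K.IsSymm := by
  ext u v
  simp only [Matrix.transpose_apply, K]
  exact sum_congr rfl fun p _ => κ.symm _ _ _

lemma k_symm (t : ℕ) (u v : V) : κ.k t u v = κ.k t v u := by
  have := (κ.K_symm.pow t).apply u v
  exact this.symm

lemma K_nonneg (u v : V) : 0 ≤ κ.K u v := sum_nonneg fun _ _ => κ.nonneg _ _ _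

lemma K_sum (u : V) : ∑ v, κ.K u v = 1 := by
  unfold K; rw [sum_comm]; exact κ.sum_one u

lemma K_col (v : V) : ∑ u, κ.K u v = 1 := by
  rw [← κ.K_sum v]; exact sum_congr rfl fun u _ => κ.K_symm.apply _ _

lemma k_zero (u w : V) : κ.k 0 u w = if u = w then 1 else 0 := by
  unfold k; rw [pow_zero, Matrix.one_apply]

lemma k_succ (t : ℕ) (u w : V) : κ.k (t + 1) u w = ∑ v, κ.K u v * κ.k t v w := by
  unfold k; rw [pow_succ', Matrix.mul_apply]

lemma k_succ' (t : ℕ) (u w : V) : κ.k (t + 1) u w = ∑ p, ∑ v, κ.c u p v * κ.k t v w := by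
  rw [k_succ, sum_comm]
  exact sum_congr rfl fun v _ => by unfold K; rw [sum_mul]

lemma k_nonneg (t : ℕ) (u w : V) : 0 ≤ κ.k t u w := by
  induction t generalizing u with
  | zero => rw [k_zero]; split_ifs <;> norm_num
  | succ t ih => rw [k_succ]; exact sum_nonneg fun v _ => mul_nonneg (κ.K_nonneg _ _) (ih _)

lemma k_sum (t : ℕ) (u : V) : ∑ w, κ.k t u w = 1 := by
  induction t generalizing u with
  | zero => simp [k_zero]
  | succ t ih =>
    simp only [k_succ]
    rw [sum_comm]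
    simp only [← mul_sum, ih, mul_one, K_sum]

lemma k_col (t : ℕ) (w : V) : ∑ u, κ.k t u w = 1 := by
  rw [← κ.k_sum t w]; exact sum_congr rfl fun u _ => κ.k_symm _ _ _

lemma k_le_one (t : ℕ) (u w : V) : κ.k t u w ≤ 1 := by
  rw [← κ.k_sum t u]
  exact single_le_sum (f := fun w => κ.k t u w) (fun w _ => κ.k_nonneg t u w) (mem_univ w)

/-- negative entropy -/
noncomputable def ent (t : ℕ) : ℝ := ∑ u, ∑ w, κ.k t u w * Real.log (κ.k t u w)

lemma ent_le (t : ℕ) : κ.ent t ≤ 0 :=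
  sum_nonpos fun u _ => sum_nonpos fun w _ =>
    mul_nonpos_of_nonneg_of_nonpos (κ.k_nonneg t u w)
      (Real.log_nonpos (κ.k_nonneg t u w) (κ.k_le_one t u w))

lemma ptw {a b f : ℝ} (ha : 0 ≤ a) (hb : 0 ≤ b) (hab : 0 < a → 0 < b) :
    a * f ≤ a * Real.log a - a * Real.log b + b * (Real.exp f - 1) + b - a := by
  rcases ha.eq_or_lt with h | h
  · subst h
    have := mul_nonneg hb (Real.exp_pos f).le
    simp only [zero_mul]; linarith
  · have hb' := hab h
    have h1 := Real.log_le_sub_one_of_pos (x := b * Real.exp f / a) (by positivity)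
    rw [Real.log_div (by positivity) h.ne', Real.log_mul hb'.ne' (Real.exp_pos f).ne',
      Real.log_exp] at h1
    have h2 := mul_le_mul_of_nonneg_left h1 h.le
    have h3 : a * (b * Real.exp f / a - 1) = b * Real.exp f - a := by field_simp
    rw [h3] at h2
    linarith

lemma ent_ge (t : ℕ) : -(Fintype.card V * Real.log (Fintype.card V)) ≤ κ.ent t := by
  have h : ∀ u, -Real.log (Fintype.card V) ≤ ∑ w, κ.k t u w * Real.log (κ.k t u w) := by
    intro u
    have hN : (0 : ℝ) < Fintype.card V := by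
      exact_mod_cast Fintype.card_pos_iff.2 ⟨u⟩
    have h1 : ∀ w, 0 ≤ κ.k t u w * Real.log (κ.k t u w)
        + κ.k t u w * Real.log (Fintype.card V) + (Fintype.card V : ℝ)⁻¹ - κ.k t u w := by
      intro w
      have := ptw (a := κ.k t u w) (b := (Fintype.card V : ℝ)⁻¹) (f := 0) (κ.k_nonneg t u w)
        (by positivity) (fun _ => by positivity)
      rw [Real.log_inv, Real.exp_zero] at this
      linarith
    have h2 := sum_nonneg (s := univ) fun w _ => h1 w
    rw [sum_sub_distrib, sum_add_distrib, sum_add_distrib, ← sum_mul, k_sum, sum_const,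
      card_univ, nsmul_eq_mul, mul_inv_cancel₀ hN.ne'] at h2
    linarith
  have := sum_le_sum (s := univ) fun u _ => h u
  rw [sum_const, card_univ, nsmul_eq_mul] at this
  unfold ent; linarith

/-- average over a start, one step and an end point -/
noncomputable def avg (ρ : V → V → ℝ) (F : V → V → P → V → V → ℝ) : ℝ :=
  ∑ x, ∑ u, ∑ p, ∑ v, ∑ w, ρ x u * κ.c u p v * F x u p v w

lemma avg_add (ρ : V → V → ℝ) (F G : V → V → P → V → V → ℝ) :
    κ.avg ρ (fun x u p v w => F x u p v w + G x u p v w) = κ.avg ρ F + κ.avg ρ G := by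
  simp only [avg, mul_add, sum_add_distrib]

lemma avg_sub (ρ : V → V → ℝ) (F G : V → V → P → V → V → ℝ) :
    κ.avg ρ (fun x u p v w => F x u p v w - G x u p v w) = κ.avg ρ F - κ.avg ρ G := by
  simp only [avg, mul_sub, sum_sub_distrib]

lemma avg_mul (ρ : V → V → ℝ) (F : V → V → P → V → V → ℝ) (a : ℝ) :
    κ.avg ρ (fun x u p v w => a * F x u p v w) = a * κ.avg ρ F := by
  simp only [avg, mul_sum]
  refine sum_congr rfl fun _ _ => sum_congr rfl fun _ _ => sum_congr rfl fun _ _ =>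
    sum_congr rfl fun _ _ => sum_congr rfl fun _ _ => by ring

lemma avg_mono {ρ : V → V → ℝ} (hρ : ∀ x u, 0 ≤ ρ x u) {F G : V → V → P → V → V → ℝ}
    (h : ∀ x u p v w, 0 < κ.c u p v → F x u p v w ≤ G x u p v w) : κ.avg ρ F ≤ κ.avg ρ G := by
  refine sum_le_sum fun x _ => sum_le_sum fun u _ => sum_le_sum fun p _ =>
    sum_le_sum fun v _ => sum_le_sum fun w _ => ?_
  rcases (κ.nonneg u p v).eq_or_lt with h0 | h0
  · rw [← h0]; simp
  · exact mul_le_mul_of_nonneg_left (h x u p v w h0) (mul_nonneg (hρ x u) h0.le)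

lemma avg_nox {ρ : V → V → ℝ} (hρ : ∀ u, ∑ x, ρ x u = 1) (F : V → P → V → V → ℝ) :
    κ.avg ρ (fun _ u p v w => F u p v w) = ∑ u, ∑ p, ∑ v, ∑ w, κ.c u p v * F u p v w := by
  unfold avg
  rw [sum_comm]
  refine sum_congr rfl fun u _ => ?_
  simp only [mul_assoc, ← mul_sum]
  rw [← sum_mul, hρ, one_mul]

lemma avg_vw {ρ : V → V → ℝ} (hρ : ∀ u, ∑ x, ρ x u = 1) (g : V → V → ℝ) :
    κ.avg ρ (fun _ _ _ v w => g v w) = ∑ v, ∑ w, g v w := by
  rw [avg_nox κ hρ (fun _ _ v w => g v w)]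
  have : ∀ u, ∑ p, ∑ v, ∑ w, κ.c u p v * g v w = ∑ v, κ.K u v * ∑ w, g v w := by
    intro u
    rw [sum_comm]
    refine sum_congr rfl fun v _ => ?_
    simp only [← mul_sum, K, sum_mul]
  simp only [this]
  rw [sum_comm]
  simp only [← sum_mul, K_col, one_mul]

lemma avg_uw {ρ : V → V → ℝ} (hρ : ∀ u, ∑ x, ρ x u = 1) (g : V → V → ℝ) :
    κ.avg ρ (fun _ u _ _ w => g u w) = ∑ u, ∑ w, g u w := by
  rw [avg_nox κ hρ (fun u _ _ w => g u w)]
  refine sum_congr rfl fun u _ => ?_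
  simp only [← mul_sum, ← sum_mul, κ.sum_one, one_mul]

lemma avg_kuw {ρ : V → V → ℝ} (hρ : ∀ u, ∑ x, ρ x u = 1) (s : ℕ) (g : V → V → ℝ) :
    κ.avg ρ (fun _ u _ v w => κ.k s v w * g u w) = ∑ u, ∑ w, κ.k (s + 1) u w * g u w := by
  rw [avg_nox κ hρ (fun u _ v w => κ.k s v w * g u w)]
  refine sum_congr rfl fun u _ => ?_
  simp only [k_succ', sum_mul]
  rw [eq_comm, sum_comm]
  refine sum_congr rfl fun p _ => ?_
  rw [sum_comm]
  refine sum_congr rfl fun v _ => sum_congr rfl fun w _ => by ring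

/-- the variational inequality -/
lemma dv {ρ : V → V → ℝ} (hρ0 : ∀ x u, 0 ≤ ρ x u) (hρ : ∀ u, ∑ x, ρ x u = 1) (s : ℕ)
    (f : V → V → P → V → V → ℝ) :
    κ.avg ρ (fun x u p v w => κ.k s v w * f x u p v w) ≤ κ.ent s - κ.ent (s + 1)
      + κ.avg ρ (fun x u p v w => κ.k (s + 1) u w * (Real.exp (f x u p v w) - 1)) := by
  have h1 := κ.avg_mono hρ0 (F := fun x u p v w => κ.k s v w * f x u p v w)
    (G := fun x u p v w => κ.k s v w * Real.log (κ.k s v w)
      - κ.k s v w * Real.log (κ.k (s + 1) u w)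
      + κ.k (s + 1) u w * (Real.exp (f x u p v w) - 1) + κ.k (s + 1) u w - κ.k s v w) (by
      intro x u p v w hc
      refine ptw (κ.k_nonneg _ _ _) (κ.k_nonneg _ _ _) fun ha => ?_
      rw [k_succ']
      refine lt_of_lt_of_le (mul_pos hc ha) ?_
      refine le_trans (single_le_sum (f := fun v => κ.c u p v * κ.k s v w)
        (fun v _ => mul_nonneg (κ.nonneg _ _ _) (κ.k_nonneg _ _ _)) (mem_univ v)) ?_
      exact single_le_sum (f := fun p => ∑ v, κ.c u p v * κ.k s v w)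
        (fun p _ => sum_nonneg fun v _ => mul_nonneg (κ.nonneg _ _ _) (κ.k_nonneg _ _ _))
        (mem_univ p))
  rw [avg_sub, avg_add, avg_add, avg_sub, avg_vw κ hρ (fun v w => κ.k s v w * Real.log (κ.k s v w)),
    avg_kuw κ hρ s (fun u w => Real.log (κ.k (s + 1) u w)), avg_vw κ hρ (fun v w => κ.k s v w),
    avg_uw κ hρ (fun u w => κ.k (s + 1) u w)] at h1
  simp only [k_sum] at h1
  unfold ent
  linarith

lemma ent_succ_le (s : ℕ) : κ.ent (s + 1) ≤ κ.ent s := by
  have := κ.dv (ρ := fun x u => κ.k 0 x u) (fun _ _ => κ.k_nonneg _ _ _) (κ.k_col 0) s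
    (fun _ _ _ _ _ => 0)
  simp only [mul_zero, Real.exp_zero, sub_self, avg, sum_const_zero] at this
  linarith

lemma ent_anti : Antitone κ.ent := antitone_nat_of_succ_le κ.ent_succ_le

/-- a window with small entropy drop and a time with small one step drop -/
lemma exists_window (a0 J : ℕ) (ha0 : 1 ≤ a0) (hJ : 1 ≤ J) :
    ∃ a t : ℕ, a0 ≤ a ∧ 2 * a ≤ t ∧ t ≤ 4 ^ J * a0 ∧
      (κ.ent a - κ.ent t) * J ≤ Fintype.card V * Real.log (Fintype.card V) ∧
      (κ.ent t - κ.ent (t + 1)) * (2 * a0 * J)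
        ≤ Fintype.card V * Real.log (Fintype.card V) := by
  set Λ : ℝ := Fintype.card V * Real.log (Fintype.card V) with hΛ
  have hJ' : (0 : ℝ) < J := by exact_mod_cast hJ
  obtain ⟨j, hj, h1⟩ : ∃ j ∈ range J, κ.ent (4 ^ j * a0) - κ.ent (4 ^ (j + 1) * a0) ≤ Λ / J := by
    apply exists_le_of_sum_le (nonempty_range_iff.2 (by omega))
    rw [sum_range_sub' (fun j => κ.ent (4 ^ j * a0)), sum_const, card_range, nsmul_eq_mul,
      mul_div_cancel₀ _ hJ'.ne']
    linarith [κ.ent_le (4 ^ 0 * a0), κ.ent_ge (4 ^ J * a0)]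
  set a := 4 ^ j * a0 with ha
  have ha1 : a0 ≤ a := Nat.le_mul_of_pos_left _ (by positivity)
  have h4 : 4 ^ (j + 1) * a0 = 4 * a := by rw [ha]; ring
  rw [h4] at h1
  have hapos : (0 : ℝ) < 2 * a := by
    have : (1 : ℝ) ≤ a := by exact_mod_cast ha0.trans ha1
    linarith
  obtain ⟨i, hi, h2⟩ : ∃ i ∈ range (2 * a),
      κ.ent (2 * a + i) - κ.ent (2 * a + (i + 1)) ≤ Λ / J / (2 * a) := by
    apply exists_le_of_sum_le (nonempty_range_iff.2 (by omega))
    rw [sum_range_sub' (fun i => κ.ent (2 * a + i)), sum_const, card_range, nsmul_eq_mul]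
    push_cast
    rw [mul_div_cancel₀ _ hapos.ne']
    have h3 := κ.ent_anti (show a ≤ 2 * a + 0 by omega)
    have h5 : 2 * a + 2 * a = 4 * a := by ring
    rw [h5]
    linarith
  rw [mem_range] at hi hj
  refine ⟨a, 2 * a + i, ha1, by omega, ?_, ?_, ?_⟩
  · calc 2 * a + i ≤ 4 * a := by omega
      _ = 4 ^ (j + 1) * a0 := h4.symm
      _ ≤ 4 ^ J * a0 := Nat.mul_le_mul_right _ (Nat.pow_le_pow_right (by norm_num) hj)
  · have h3 := κ.ent_anti (show 2 * a + i ≤ 4 * a by omega)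
    rw [← le_div_iff₀ hJ']
    linarith
  · have h3 : 0 ≤ κ.ent (2 * a + i) - κ.ent (2 * a + i + 1) := by
      linarith [κ.ent_succ_le (2 * a + i)]
    rw [le_div_iff₀ hapos, le_div_iff₀ hJ', ← add_assoc] at h2
    refine le_trans ?_ h2
    have h6 : (a0 : ℝ) ≤ a := by exact_mod_cast ha1
    rw [mul_assoc (_ - _)]
    refine mul_le_mul_of_nonneg_left ?_ h3
    gcongr

end Ker

end Pool.Agent.Lib.MP_356f68_co.Cube
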