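import Mathlib
import Pool.Agent.Lib.MP_356f68_co.Cube.Ent

/-! Labelled walks: expectation, rainbow walks, spread of bridges. -/

set_option autoImplicit false
set_option linter.unusedSectionVars false

namespace Pool.Agent.Lib.MP_356f68_co.Cube

open Finset

/-- indicator of failure -/
noncomputable def nind (Q : Prop) : ℝ := by classical exact if Q then 0 else 1

lemma nind_nonneg (Q : Prop) : 0 ≤ nind Q := by unfold nind; split_ifs <;> norm_num

lemma nind_le_one (Q : Prop) : nind Q ≤ 1 := by unfold nind; split_ifs <;> norm_num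

lemma nind_pos {Q : Prop} (h : Q) : nind Q = 0 := by unfold nind; rw [if_pos h]

lemma nind_neg {Q : Prop} (h : ¬ Q) : nind Q = 1 := by unfold nind; rw [if_neg h]

lemma of_nind_lt {Q : Prop} (h : nind Q < 1) : Q := by
  by_contra h'; rw [nind_neg h'] at h; exact lt_irrefl _ h

lemma sum5_rev {A B C D E : Type} [Fintype A] [Fintype B] [Fintype C] [Fintype D] [Fintype E]
    (F : A → B → C → D → E → ℝ) :
    ∑ a, ∑ b, ∑ c, ∑ d, ∑ e, F a b c d e = ∑ e, ∑ d, ∑ c, ∑ b, ∑ a, F a b c d e := by
  have h1 : ∑ a, ∑ b, ∑ c, ∑ d, ∑ e, F a b c d e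
      = ∑ x : A × B × C × D × E, F x.1 x.2.1 x.2.2.1 x.2.2.2.1 x.2.2.2.2 := by
    simp only [Fintype.sum_prod_type]
  have h2 : ∑ e, ∑ d, ∑ c, ∑ b, ∑ a, F a b c d e
      = ∑ x : E × D × C × B × A, F x.2.2.2.2 x.2.2.2.1 x.2.2.1 x.2.1 x.1 := by
    simp only [Fintype.sum_prod_type]
  rw [h1, h2]
  exact Fintype.sum_equiv ⟨fun x => (x.2.2.2.2, x.2.2.2.1, x.2.2.1, x.2.1, x.1),
    fun x => (x.2.2.2.2, x.2.2.2.1, x.2.2.1, x.2.1, x.1), fun _ => rfl, fun _ => rfl⟩ _ _
    (fun _ => rfl)

section lists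

variable {V P C : Type} [DecidableEq C]

/-- end point of a walk -/
def fin : V → List (P × V) → V
  | u, [] => u
  | _, x :: l => fin x.2 l

/-- walks whose steps use new colours outside `B` -/
def Good (cp : P → Finset C) (cv : V → Finset C) : Finset C → List (P × V) → Prop
  | _, [] => True
  | B, x :: l => Disjoint (cp x.1 ∪ cv x.2) B ∧ Good cp cv (B ∪ (cp x.1 ∪ cv x.2)) l

/-- colours of a walk without its start -/
def post (cp : P → Finset C) (cv : V → Finset C) : List (P × V) → Finset C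
  | [] => ∅
  | x :: l => (cp x.1 ∪ cv x.2) ∪ post cp cv l

/-- colours of a walk without its end -/
def pre (cp : P → Finset C) (cv : V → Finset C) : V → List (P × V) → Finset C
  | _, [] => ∅
  | u, x :: l => (cp x.1 ∪ cv u) ∪ pre cp cv x.2 l

/-- a sum over the steps of a walk -/
def cnt (f : ℕ → V → P → V → V → ℝ) (w : V) : V → List (P × V) → ℝ
  | _, [] => 0
  | u, x :: l => f l.length u x.1 x.2 w + cnt f w x.2 l

variable {cp : P → Finset C} {cv : V → Finset C}

lemma good_disj {B : Finset C} {l : List (P × V)} (h : Good cp cv B l) :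
    Disjoint (post cp cv l) B := by
  induction l generalizing B with
  | nil => simp [post]
  | cons x l ih =>
    rw [post, disjoint_union_left]
    exact ⟨h.1, (ih h.2).mono_right subset_union_left⟩

lemma pre_union (u : V) (l : List (P × V)) :
    pre cp cv u l ∪ cv (fin u l) = cv u ∪ post cp cv l := by
  induction l generalizing u with
  | nil => simp [pre, post, fin]
  | cons x l ih =>
    rw [pre, post, fin, union_assoc, ih]
    ext b; simp only [mem_union]; tauto

lemma fin_sub (u : V) (l : List (P × V)) : cv (fin u l) ⊆ cv u ∪ post cp cv l := by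
  rw [← pre_union]; exact subset_union_right

lemma pre_sub (u : V) (l : List (P × V)) : pre cp cv u l ⊆ cv u ∪ post cp cv l := by
  rw [← pre_union]; exact subset_union_left

lemma fin_sub' (u : V) (l : List (P × V)) (hl : 1 ≤ l.length) : cv (fin u l) ⊆ post cp cv l := by
  cases l with
  | nil => simp at hl
  | cons x l =>
    rw [fin, post]
    exact (fin_sub (cp := cp) x.2 l).trans
      (union_subset_union_left subset_union_right)

lemma card_post (hc : ∀ p v, (cp p ∪ cv v).card ≤ 5) (l : List (P × V)) :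
    (post cp cv l).card ≤ 5 * l.length := by
  induction l with
  | nil => simp [post]
  | cons x l ih =>
    rw [post, List.length_cons]
    have := card_union_le (cp x.1 ∪ cv x.2) (post cp cv l)
    have := hc x.1 x.2
    omega

lemma fin_disj (hpv : ∀ p v, Disjoint (cp p) (cv v)) {B : Finset C} {u : V} {l : List (P × V)}
    (h : Good cp cv B l) (hu : cv u ⊆ B) : Disjoint (pre cp cv u l) (cv (fin u l)) := by
  induction l generalizing B u with
  | nil => simp [pre]
  | cons x l ih =>
    rw [pre, fin, disjoint_union_left, disjoint_union_left]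
    refine ⟨⟨hpv _ _, ?_⟩, ih h.2 (subset_union_right.trans subset_union_right)⟩
    refine Disjoint.mono hu (fin_sub (cp := cp) x.2 l) ?_
    rw [disjoint_union_right]
    exact ⟨(h.1.mono_left subset_union_right).symm,
      ((good_disj h.2).mono_right subset_union_left).symm⟩

lemma cnt_nonneg {f : ℕ → V → P → V → V → ℝ} (hf : ∀ s u p v w, 0 ≤ f s u p v w) (w u : V)
    (l : List (P × V)) : 0 ≤ cnt f w u l := by
  induction l generalizing u with
  | nil => simp [cnt]
  | cons x l ih => rw [cnt]; exact add_nonneg (hf _ _ _ _ _) (ih _)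

/-- the step weights used for bridges -/
noncomputable def hitw (cp : P → Finset C) (cv : V → Finset C) (a : ℕ) (B : V → Finset C) :
    ℕ → V → P → V → V → ℝ := fun s u p v w =>
  if a ≤ s then nind (Disjoint (cp p ∪ cv v) (B w)) else nind (Disjoint (cp p ∪ cv u) (B w))

lemma hitw_nonneg (a : ℕ) (B : V → Finset C) (s : ℕ) (u : V) (p : P) (v w : V) :
    0 ≤ hitw cp cv a B s u p v w := by
  unfold hitw; split_ifs <;> exact nind_nonneg _

lemma nind_le_cnt (a : ℕ) (B : V → Finset C) (w u : V) (l : List (P × V))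
    (h : Disjoint (cv u) (B w) ∨ l.length ≤ a) :
    nind (Disjoint (pre cp cv u l) (B w)) ≤ cnt (hitw cp cv a B) w u l := by
  induction l generalizing u with
  | nil => rw [nind_pos (by simp [pre])]; simp [cnt]
  | cons x l ih =>
    rw [cnt]
    have h0 := cnt_nonneg (hitw_nonneg (cp := cp) (cv := cv) a B) w x.2 l
    have h1 := hitw_nonneg (cp := cp) (cv := cv) a B l.length u x.1 x.2 w
    by_cases h2 : hitw cp cv a B l.length u x.1 x.2 w < 1
    · have h3 : Disjoint (cp x.1 ∪ cv u) (B w) ∧ (Disjoint (cv x.2) (B w) ∨ l.length ≤ a) := by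
        unfold hitw at h2
        split_ifs at h2 with h4
        · have h5 := disjoint_union_left.1 (of_nind_lt h2)
          refine ⟨disjoint_union_left.2 ⟨h5.1, h.resolve_right ?_⟩, Or.inl h5.2⟩
          rw [List.length_cons]; omega
        · exact ⟨of_nind_lt h2, Or.inr (by omega)⟩
      have h6 := ih x.2 h3.2
      by_cases h7 : Disjoint (pre cp cv x.2 l) (B w)
      · rw [nind_pos (by rw [pre, disjoint_union_left]; exact ⟨h3.1, h7⟩)]; linarith
      · rw [nind_neg h7] at h6
        linarith [nind_le_one (Disjoint (pre cp cv u (x :: l)) (B w))]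
    · linarith [nind_le_one (Disjoint (pre cp cv u (x :: l)) (B w))]

end lists

namespace Ker

variable {V P C : Type} [Fintype V] [DecidableEq V] [Fintype P] [DecidableEq C] (κ : Ker V P)

/-- expectation over walks -/
noncomputable def Ex : ℕ → V → (List (P × V) → ℝ) → ℝ
  | 0, _, F => F []
  | t + 1, u, F => ∑ p, ∑ v, κ.c u p v * Ex t v (fun l => F ((p, v) :: l))

/-- walks along steps of positive weight -/
def Ch : V → List (P × V) → Prop
  | _, [] => True
  | u, x :: l => 0 < κ.c u x.1 x.2 ∧ Ch x.2 l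

lemma Ex_mono {t : ℕ} {u : V} {F G : List (P × V) → ℝ}
    (h : ∀ l, κ.Ch u l → l.length = t → F l ≤ G l) : κ.Ex t u F ≤ κ.Ex t u G := by
  induction t generalizing u F G with
  | zero => exact h [] trivial rfl
  | succ t ih =>
    refine sum_le_sum fun p _ => sum_le_sum fun v _ => ?_
    rcases (κ.nonneg u p v).eq_or_lt with h0 | h0
    · rw [← h0]; simp
    · exact mul_le_mul_of_nonneg_left
        (ih fun l hl hlen => h _ ⟨h0, hl⟩ (by simp [hlen])) h0.le

lemma Ex_congr {t : ℕ} {u : V} {F G : List (P × V) → ℝ}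
    (h : ∀ l, l.length = t → F l = G l) : κ.Ex t u F = κ.Ex t u G :=
  le_antisymm (κ.Ex_mono fun l _ hl => (h l hl).le) (κ.Ex_mono fun l _ hl => (h l hl).ge)

lemma Ex_add (t : ℕ) (u : V) (F G : List (P × V) → ℝ) :
    κ.Ex t u (fun l => F l + G l) = κ.Ex t u F + κ.Ex t u G := by
  induction t generalizing u F G with
  | zero => rfl
  | succ t ih => simp only [Ex, ih, mul_add, sum_add_distrib]

lemma Ex_fin (t : ℕ) (u : V) (g : V → ℝ) :
    κ.Ex t u (fun l => g (fin u l)) = ∑ w, κ.k t u w * g w := by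
  induction t generalizing u with
  | zero => simp [Ex, fin, k_zero]
  | succ t ih =>
    simp only [Ex, fin, ih, k_succ', sum_mul, mul_sum]
    rw [eq_comm, sum_comm]
    refine sum_congr rfl fun p _ => ?_
    rw [sum_comm]
    exact sum_congr rfl fun v _ => sum_congr rfl fun w _ => by ring

lemma Ex_const (t : ℕ) (u : V) (a : ℝ) : κ.Ex t u (fun _ => a) = a := by
  rw [κ.Ex_fin t u (fun _ => a), ← sum_mul, k_sum, one_mul]

lemma exists_lt {t : ℕ} {u : V} {F : List (P × V) → ℝ} {a : ℝ} (h : κ.Ex t u F < a) :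
    ∃ l, κ.Ch u l ∧ l.length = t ∧ F l < a := by
  by_contra h'
  push Not at h'
  have := κ.Ex_mono (F := fun _ => a) h'
  rw [Ex_const] at this
  linarith

variable {cp : P → Finset C} {cv : V → Finset C} {q : ℝ}

/-- every colour is hit by one step with probability at most `q` -/
def Hit (cp : P → Finset C) (cv : V → Finset C) (q : ℝ) : Prop :=
  ∀ u b, ∑ p, ∑ v, κ.c u p v * nind (b ∉ cp p ∪ cv v) ≤ q

lemma hit_set (h : κ.Hit cp cv q) (u : V) (B : Finset C) :
    ∑ p, ∑ v, κ.c u p v * nind (Disjoint (cp p ∪ cv v) B) ≤ B.card * q := by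
  have h1 : ∀ p v, nind (Disjoint (cp p ∪ cv v) B) ≤ ∑ b ∈ B, nind (b ∉ cp p ∪ cv v) := by
    intro p v
    by_cases h2 : Disjoint (cp p ∪ cv v) B
    · rw [nind_pos h2]; exact sum_nonneg fun _ _ => nind_nonneg _
    · rw [nind_neg h2]
      obtain ⟨b, hb1, hb2⟩ := not_disjoint_iff.1 h2
      rw [← nind_neg (not_not.2 hb1)]
      exact single_le_sum (f := fun b => nind (b ∉ cp p ∪ cv v)) (fun _ _ => nind_nonneg _) hb2
  calc _ ≤ ∑ p, ∑ v, κ.c u p v * ∑ b ∈ B, nind (b ∉ cp p ∪ cv v) :=
        sum_le_sum fun p _ => sum_le_sum fun v _ =>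
          mul_le_mul_of_nonneg_left (h1 p v) (κ.nonneg _ _ _)
    _ = ∑ b ∈ B, ∑ p, ∑ v, κ.c u p v * nind (b ∉ cp p ∪ cv v) := by
        simp only [mul_sum]
        rw [eq_comm, sum_comm]
        exact sum_congr rfl fun p _ => sum_comm
    _ ≤ ∑ _b ∈ B, q := sum_le_sum fun b _ => h u b
    _ = _ := by rw [sum_const, nsmul_eq_mul]

lemma Ex_bad (h : κ.Hit cp cv q) (hq : 0 ≤ q) (hc : ∀ p v, (cp p ∪ cv v).card ≤ 5) (t : ℕ) (u : V)
    (B : Finset C) : κ.Ex t u (fun l => nind (Good cp cv B l)) ≤ t * (B.card + 5 * t) * q := by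
  induction t generalizing u B with
  | zero => simp [Ex, Good, nind]
  | succ t ih =>
    have h1 : ∀ p v, κ.Ex t v (fun l => nind (Good cp cv B ((p, v) :: l)))
        ≤ nind (Disjoint (cp p ∪ cv v) B) + t * (B.card + 5 + 5 * t) * q := by
      intro p v
      have h2 : κ.Ex t v (fun l => nind (Good cp cv B ((p, v) :: l))) ≤
          κ.Ex t v (fun l => nind (Disjoint (cp p ∪ cv v) B)
            + nind (Good cp cv (B ∪ (cp p ∪ cv v)) l)) := by
        refine κ.Ex_mono fun l _ _ => ?_
        by_cases h3 : Disjoint (cp p ∪ cv v) B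
        · by_cases h4 : Good cp cv (B ∪ (cp p ∪ cv v)) l
          · rw [nind_pos (Q := Good cp cv B ((p, v) :: l)) ⟨h3, h4⟩, nind_pos h3, nind_pos h4]
            norm_num
          · rw [nind_neg h4]
            linarith [nind_nonneg (Disjoint (cp p ∪ cv v) B),
              nind_le_one (Good cp cv B ((p, v) :: l))]
        · rw [nind_neg h3]
          linarith [nind_nonneg (Good cp cv (B ∪ (cp p ∪ cv v)) l),
            nind_le_one (Good cp cv B ((p, v) :: l))]
      rw [Ex_add, Ex_const] at h2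
      have h5 := ih v (B ∪ (cp p ∪ cv v))
      have h6 : ((B ∪ (cp p ∪ cv v)).card : ℝ) ≤ B.card + 5 := by
        exact_mod_cast (card_union_le _ _).trans (Nat.add_le_add_left (hc p v) _)
      have h7 : (t : ℝ) * ((B ∪ (cp p ∪ cv v)).card + 5 * t) * q
          ≤ t * (B.card + 5 + 5 * t) * q := by gcongr
      linarith
    calc _ ≤ ∑ p, ∑ v, κ.c u p v *
          (nind (Disjoint (cp p ∪ cv v) B) + t * (B.card + 5 + 5 * t) * q) :=
          sum_le_sum fun p _ => sum_le_sum fun v _ =>
            mul_le_mul_of_nonneg_left (h1 p v) (κ.nonneg _ _ _)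
      _ = ∑ p, ∑ v, κ.c u p v * nind (Disjoint (cp p ∪ cv v) B)
          + t * (B.card + 5 + 5 * t) * q := by
          simp only [mul_add (κ.c _ _ _), sum_add_distrib, ← sum_mul, κ.sum_one, one_mul]
      _ ≤ _ := by
          have := κ.hit_set h u B
          have h8 : (0 : ℝ) ≤ t := Nat.cast_nonneg _
          have h9 := mul_nonneg h8 hq
          push_cast
          nlinarith

/-- the expected weight of one step of a walk -/
noncomputable def H (j s : ℕ) (f : V → P → V → V → ℝ) (x : V) : ℝ :=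
  ∑ u, ∑ p, ∑ v, ∑ w, κ.k j x u * κ.c u p v * (κ.k s v w * f u p v w)

lemma H_zero (s : ℕ) (f : V → P → V → V → ℝ) (x : V) :
    κ.H 0 s f x = ∑ p, ∑ v, κ.c x p v * ∑ w, κ.k s v w * f x p v w := by
  unfold H
  rw [sum_eq_single x]
  · simp only [k_zero, if_true, one_mul, mul_sum]
  · intro u _ hu
    simp [k_zero, hu.symm]
  · simp

lemma H_succ (j s : ℕ) (f : V → P → V → V → ℝ) (x : V) :
    κ.H (j + 1) s f x = ∑ p, ∑ v, κ.c x p v * κ.H j s f v := by
  have h : ∀ j x, κ.H j s f x
      = ∑ u, κ.k j x u * ∑ p, ∑ v, ∑ w, κ.c u p v * (κ.k s v w * f u p v w) := by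
    intro j x
    simp only [H, mul_sum, mul_assoc]
  simp only [h, k_succ', sum_mul]
  rw [sum_comm]
  refine sum_congr rfl fun p _ => ?_
  rw [sum_comm]
  refine sum_congr rfl fun v _ => ?_
  rw [mul_sum]
  exact sum_congr rfl fun u _ => by ring

lemma Ex_cnt (f : ℕ → V → P → V → V → ℝ) (t : ℕ) (x : V) :
    κ.Ex t x (fun l => cnt f (fin x l) x l) = ∑ s ∈ range t, κ.H (t - 1 - s) s (f s) x := by
  induction t generalizing x with
  | zero => simp [Ex, cnt]
  | succ t ih =>
    have h1 : ∀ p v, κ.Ex t v (fun l => cnt f (fin x ((p, v) :: l)) x ((p, v) :: l))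
        = ∑ w, κ.k t v w * f t x p v w + ∑ s ∈ range t, κ.H (t - 1 - s) s (f s) v := by
      intro p v
      rw [← ih v, ← κ.Ex_fin t v (fun w => f t x p v w), ← Ex_add]
      refine κ.Ex_congr fun l hl => ?_
      simp only [cnt, fin, hl]
    rw [sum_range_succ, show t + 1 - 1 - t = 0 by omega, H_zero]
    simp only [Ex, h1, mul_add, sum_add_distrib]
    rw [add_comm]
    congr 1
    have h2 : ∀ s ∈ range t, κ.H (t + 1 - 1 - s) s (f s) x
        = ∑ p, ∑ v, κ.c x p v * κ.H (t - 1 - s) s (f s) v := by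
      intro s hs
      rw [mem_range] at hs
      rw [show t + 1 - 1 - s = (t - 1 - s) + 1 by omega, H_succ]
    rw [sum_congr rfl h2, eq_comm, sum_comm]
    refine sum_congr rfl fun p _ => ?_
    rw [sum_comm]
    exact sum_congr rfl fun v _ => by rw [mul_sum]

lemma step_fwd (h : κ.Hit cp cv q) (hq : 0 ≤ q) (j s b : ℕ) (B : V → V → Finset C)
    (hB : ∀ x w, (B x w).card ≤ b) (lam : ℝ) :
    lam * κ.avg (κ.k j) (fun x _ p v w => κ.k s v w * nind (Disjoint (cp p ∪ cv v) (B x w)))
      ≤ κ.ent s - κ.ent (s + 1) + Fintype.card V * (Real.exp lam * b * q) := by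
  have h1 := κ.dv (ρ := κ.k j) (κ.k_nonneg j) (κ.k_col j) s
    (fun x _ p v w => lam * nind (Disjoint (cp p ∪ cv v) (B x w)))
  rw [← avg_mul]
  simp only [mul_left_comm lam]
  refine h1.trans (add_le_add_right ?_ _)
  have h2 := κ.avg_mono (ρ := κ.k j) (κ.k_nonneg j)
    (F := fun x u p v w => κ.k (s + 1) u w *
      (Real.exp (lam * nind (Disjoint (cp p ∪ cv v) (B x w))) - 1))
    (G := fun x u p v w => Real.exp lam * (κ.k (s + 1) u w *
      nind (Disjoint (cp p ∪ cv v) (B x w)))) (by
      intro x u p v w _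
      rw [mul_left_comm]
      refine mul_le_mul_of_nonneg_left ?_ (κ.k_nonneg _ _ _)
      by_cases h3 : Disjoint (cp p ∪ cv v) (B x w)
      · rw [nind_pos h3]; simp
      · rw [nind_neg h3]; simp)
  refine h2.trans ?_
  rw [avg_mul, mul_assoc, mul_left_comm]
  refine mul_le_mul_of_nonneg_left ?_ (Real.exp_pos _).le
  unfold avg
  rw [← nsmul_eq_mul, ← card_univ, ← sum_const]
  refine sum_le_sum fun x _ => ?_
  have h4 : ∀ u, ∑ p, ∑ v, ∑ w, κ.k j x u * κ.c u p v * (κ.k (s + 1) u w *
      nind (Disjoint (cp p ∪ cv v) (B x w))) ≤ κ.k j x u * (b * q) := by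
    intro u
    have h5 : ∑ p, ∑ v, ∑ w, κ.k j x u * κ.c u p v * (κ.k (s + 1) u w *
        nind (Disjoint (cp p ∪ cv v) (B x w))) = κ.k j x u * ∑ w, κ.k (s + 1) u w *
          ∑ p, ∑ v, κ.c u p v * nind (Disjoint (cp p ∪ cv v) (B x w)) := by
      simp only [mul_sum]
      rw [eq_comm, sum_comm]
      refine sum_congr rfl fun p _ => ?_
      rw [sum_comm]
      exact sum_congr rfl fun v _ => sum_congr rfl fun w _ => by ring
    rw [h5]
    refine mul_le_mul_of_nonneg_left ?_ (κ.k_nonneg _ _ _)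
    calc _ ≤ ∑ w, κ.k (s + 1) u w * (b * q) := by
          refine sum_le_sum fun w _ => mul_le_mul_of_nonneg_left ?_ (κ.k_nonneg _ _ _)
          refine (κ.hit_set h u _).trans (mul_le_mul_of_nonneg_right ?_ hq)
          exact_mod_cast hB x w
      _ = _ := by rw [← sum_mul, k_sum, one_mul]
  refine (sum_le_sum fun u _ => h4 u).trans ?_
  rw [← sum_mul, k_sum, one_mul]

lemma avg_rev (j s : ℕ) (g : V → V → P → V → V → ℝ) :
    κ.avg (κ.k j) (fun x u p v w => κ.k s v w * g x u p v w)
      = κ.avg (κ.k s) (fun w v p u x => κ.k j u x * g x u p v w) := by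
  unfold avg
  rw [sum5_rev]
  refine sum_congr rfl fun w _ => sum_congr rfl fun v _ => sum_congr rfl fun p _ =>
    sum_congr rfl fun u _ => sum_congr rfl fun x _ => ?_
  beta_reduce
  rw [κ.k_symm j x u, κ.k_symm s v w, κ.symm u p v]
  ring

lemma sum_drop {a t : ℕ} (h : a ≤ t) :
    ∑ s ∈ range t, (if a ≤ s then κ.ent s - κ.ent (s + 1) else 0) = κ.ent a - κ.ent t := by
  induction t, h using Nat.le_induction with
  | base =>
    rw [sub_self]
    exact sum_eq_zero fun s hs => if_neg (by rw [mem_range] at hs; omega)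
  | succ t h ih => rw [sum_range_succ, ih, if_pos h]; ring

/-- bridges are spread -/
lemma spread (h : κ.Hit cp cv q) (hq : 0 ≤ q) {a t : ℕ} (hat : 2 * a ≤ t) (b : ℕ)
    (B : V → V → Finset C) (hB : ∀ x w, (B x w).card ≤ b) (hB' : ∀ x w, Disjoint (cv x) (B x w))
    {lam : ℝ} (hlam : 0 ≤ lam) :
    lam * ∑ x, κ.Ex t x (fun l => nind (Disjoint (pre cp cv x l) (B x (fin x l))))
      ≤ 2 * (κ.ent a - κ.ent t) + t * (Fintype.card V * (Real.exp lam * b * q)) := by
  set D : ℕ → ℝ := fun s => if a ≤ s then κ.ent s - κ.ent (s + 1) else 0 with hD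
  have hD0 : ∀ s, 0 ≤ D s := by
    intro s; simp only [hD]; split_ifs
    · linarith [κ.ent_succ_le s]
    · exact le_rfl
  have h1 : ∀ x, κ.Ex t x (fun l => nind (Disjoint (pre cp cv x l) (B x (fin x l))))
      ≤ ∑ s ∈ range t, κ.H (t - 1 - s) s (hitw cp cv a (B x) s) x := by
    intro x
    rw [← Ex_cnt]
    exact κ.Ex_mono fun l _ _ => nind_le_cnt a (B x) _ x l (Or.inl (hB' _ _))
  have h2 : ∀ s ∈ range t, lam * ∑ x, κ.H (t - 1 - s) s (hitw cp cv a (B x) s) x
      ≤ D s + D (t - 1 - s) + Fintype.card V * (Real.exp lam * b * q) := by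
    intro s hs
    rw [mem_range] at hs
    have h3 : ∑ x, κ.H (t - 1 - s) s (hitw cp cv a (B x) s) x = κ.avg (κ.k (t - 1 - s))
      (fun x u p v w => κ.k s v w * hitw cp cv a (B x) s u p v w) := rfl
    rw [h3]
    by_cases h4 : a ≤ s
    · simp only [hitw, if_pos h4]
      have h5 := κ.step_fwd h hq (t - 1 - s) s b B hB lam
      have h6 : D s = κ.ent s - κ.ent (s + 1) := if_pos h4
      linarith [hD0 (t - 1 - s)]
    · simp only [hitw, if_neg h4]
      rw [avg_rev]
      have h5 := κ.step_fwd h hq s (t - 1 - s) b (fun w x => B x w) (fun w x => hB x w) lam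
      have h6 : D (t - 1 - s) = κ.ent (t - 1 - s) - κ.ent (t - 1 - s + 1) := if_pos (by omega)
      linarith [hD0 s]
  calc _ ≤ lam * ∑ x, ∑ s ∈ range t, κ.H (t - 1 - s) s (hitw cp cv a (B x) s) x :=
        mul_le_mul_of_nonneg_left (sum_le_sum fun x _ => h1 x) hlam
    _ = ∑ s ∈ range t, lam * ∑ x, κ.H (t - 1 - s) s (hitw cp cv a (B x) s) x := by
        rw [sum_comm, mul_sum]
    _ ≤ ∑ s ∈ range t, (D s + D (t - 1 - s) + Fintype.card V * (Real.exp lam * b * q)) :=
        sum_le_sum h2
    _ = _ := by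
        rw [sum_add_distrib, sum_add_distrib, sum_range_reflect D t, κ.sum_drop (by omega),
          sum_const, card_range, nsmul_eq_mul]
        ring

end Ker

end Pool.Agent.Lib.MP_356f68_co.Cube
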