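import Mathlib
import Pool.Agent.Lib.MP_356f68_co.Cube.Walk

/-! A locally large class of vertices that are robustly joined by rainbow walks. -/

set_option autoImplicit false
set_option linter.unusedSectionVars false

namespace Pool.Agent.Lib.MP_356f68_co.Cube

open Finset

namespace Ker

variable {V P C : Type} [Fintype V] [DecidableEq V] [Fintype P] [DecidableEq C] (κ : Ker V P)

/-- one sided total variation distance -/
noncomputable def tv (t : ℕ) (u v : V) : ℝ := ∑ w, max (κ.k t v w - κ.k (t + 1) u w) 0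

lemma tv_nonneg (t : ℕ) (u v : V) : 0 ≤ κ.tv t u v := sum_nonneg fun _ _ => le_max_right _ _

lemma tv_le1 (t : ℕ) (u v : V) (g : V → ℝ) (h0 : ∀ w, 0 ≤ g w) (h1 : ∀ w, g w ≤ 1) :
    ∑ w, κ.k t v w * g w ≤ ∑ w, κ.k (t + 1) u w * g w + κ.tv t u v := by
  unfold tv
  rw [← sum_add_distrib]
  refine sum_le_sum fun w _ => ?_
  have h2 := le_max_left (κ.k t v w - κ.k (t + 1) u w) 0
  have h3 := le_max_right (κ.k t v w - κ.k (t + 1) u w) 0
  nlinarith [h0 w, h1 w]

lemma tv_le2 (t : ℕ) (u v : V) (g : V → ℝ) (h0 : ∀ w, 0 ≤ g w) (h1 : ∀ w, g w ≤ 1) :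
    ∑ w, κ.k (t + 1) u w * g w ≤ ∑ w, κ.k t v w * g w + κ.tv t u v := by
  have := κ.tv_le1 t u v (fun w => 1 - g w) (fun w => by linarith [h1 w])
    (fun w => by linarith [h0 w])
  simp only [mul_sub, mul_one, sum_sub_distrib, k_sum] at this
  linarith

lemma tv_avg (t : ℕ) {lam : ℝ} (h0 : 0 ≤ lam) (h1 : lam ≤ 1) :
    lam * ∑ u, ∑ v, κ.K u v * κ.tv t u v
      ≤ κ.ent t - κ.ent (t + 1) + lam ^ 2 * Fintype.card V := by
  set χ : V → V → V → ℝ := fun u v w => if κ.k (t + 1) u w ≤ κ.k t v w then 1 else 0 with hχ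
  have h2 := κ.dv (ρ := κ.k 0) (κ.k_nonneg 0) (κ.k_col 0) t (fun _ u _ v w => lam * χ u v w)
  have h3 := κ.avg_mono (ρ := κ.k 0) (κ.k_nonneg 0)
    (F := fun _ u _ v w => κ.k (t + 1) u w * (Real.exp (lam * χ u v w) - 1))
    (G := fun _ u _ v w => κ.k (t + 1) u w * (lam * χ u v w) + lam ^ 2 * κ.k (t + 1) u w) (by
      intro _ u _ v w _
      rw [mul_comm (lam ^ 2), ← mul_add]
      refine mul_le_mul_of_nonneg_left ?_ (κ.k_nonneg _ _ _)
      simp only [hχ]
      split_ifs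
      · have := Real.abs_exp_sub_one_sub_id_le (x := lam) (by rw [abs_of_nonneg h0]; exact h1)
        rw [mul_one]
        linarith [le_abs_self (Real.exp lam - 1 - lam)]
      · simp only [mul_zero, Real.exp_zero, sub_self, zero_add]; positivity)
  rw [avg_add, avg_mul, avg_uw κ (κ.k_col 0) (fun u w => κ.k (t + 1) u w)] at h3
  simp only [k_sum, sum_const, card_univ, nsmul_eq_mul, mul_one] at h3
  have h4 : lam * ∑ u, ∑ v, κ.K u v * κ.tv t u v
      = κ.avg (κ.k 0) (fun _ u _ v w => κ.k t v w * (lam * χ u v w))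
        - κ.avg (κ.k 0) (fun _ u _ v w => κ.k (t + 1) u w * (lam * χ u v w)) := by
    rw [← avg_sub, avg_nox κ (κ.k_col 0) (fun u _ v w => κ.k t v w * (lam * χ u v w)
      - κ.k (t + 1) u w * (lam * χ u v w)), mul_sum]
    refine sum_congr rfl fun u _ => ?_
    rw [sum_comm, mul_sum]
    refine sum_congr rfl fun v _ => ?_
    simp only [← mul_sum]
    rw [← sum_mul, mul_left_comm]
    congr 1
    rw [tv, mul_sum]
    refine sum_congr rfl fun w _ => ?_
    simp only [hχ]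
    split_ifs with h
    · rw [max_eq_left (by linarith)]; ring
    · rw [max_eq_right (by linarith)]; ring
  linarith

variable {cp : P → Finset C} {cv : V → Finset C} {q : ℝ}

/-- all bridges from `x` avoid small sets chosen according to the end point -/
def Spr (cp : P → Finset C) (cv : V → Finset C) (t : ℕ) (x : V) : Prop :=
  ∀ B : V → Finset C, (∀ w, (B w).card ≤ 5 * t) → (∀ w, Disjoint (cv x) (B w)) →
    κ.Ex t x (fun l => nind (Disjoint (pre cp cv x l) (B (fin x l)))) ≤ 1 / 10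

lemma Ex_nonneg {t : ℕ} {u : V} {F : List (P × V) → ℝ} (h : ∀ l, 0 ≤ F l) : 0 ≤ κ.Ex t u F := by
  rw [← κ.Ex_const t u 0]
  exact κ.Ex_mono fun l _ _ => h l

lemma spr_avg (h : κ.Hit cp cv q) (hq : 0 ≤ q) {a t : ℕ} (hat : 2 * a ≤ t) {lam : ℝ}
    (hlam : 0 ≤ lam) : lam * ∑ x, nind (κ.Spr cp cv t x) ≤
      10 * (2 * (κ.ent a - κ.ent t)
        + t * (Fintype.card V * (Real.exp lam * (5 * t : ℕ) * q))) := by
  have h1 : ∀ x, ∃ B : V → Finset C, (∀ w, (B w).card ≤ 5 * t) ∧ (∀ w, Disjoint (cv x) (B w)) ∧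
      nind (κ.Spr cp cv t x) ≤
        10 * κ.Ex t x (fun l => nind (Disjoint (pre cp cv x l) (B (fin x l)))) := by
    intro x
    by_cases hx : κ.Spr cp cv t x
    · refine ⟨fun _ => ∅, by simp, by simp, ?_⟩
      rw [nind_pos hx]
      exact mul_nonneg (by norm_num) (κ.Ex_nonneg fun _ => nind_nonneg _)
    · rw [nind_neg hx]
      unfold Spr at hx
      push Not at hx
      obtain ⟨B, h2, h3, h4⟩ := hx
      exact ⟨B, h2, h3, by linarith⟩
  choose B hB1 hB2 hB3 using h1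
  have h2 := κ.spread h hq hat (5 * t) B hB1 hB2 hlam
  have h3 := sum_le_sum (s := univ) fun x _ => hB3 x
  rw [← mul_sum] at h3
  have h4 := mul_le_mul_of_nonneg_left h3 hlam
  linarith

lemma two_walks (h : κ.Hit cp cv q) (hq : 0 ≤ q) (hc : ∀ p v, (cp p ∪ cv v).card ≤ 5) {t : ℕ}
    {u0 u v : V} (hu : κ.tv t u0 u ≤ 1 / 10) (hv : κ.tv t u0 v ≤ 1 / 10) (hs : κ.Spr cp cv t v)
    (B : Finset C) (hvB : cv v ⊆ B) (hB : t * (B.card + 5 * t) * q ≤ 1 / 10) :
    ∃ l1 l2, κ.Ch u l1 ∧ κ.Ch v l2 ∧ l1.length = t ∧ l2.length = t ∧ fin u l1 = fin v l2 ∧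
      Good cp cv B l1 ∧ Good cp cv B l2 ∧ Disjoint (pre cp cv v l2) (post cp cv l1) := by
  classical
  set R : V → Prop := fun w => ∃ l, κ.Ch u l ∧ l.length = t ∧ fin u l = w ∧ Good cp cv B l
    with hR
  have h1 : ∀ w, ∃ B' : Finset C, B'.card ≤ 5 * t ∧ Disjoint (cv v) B' ∧
      (R w → ∃ l, κ.Ch u l ∧ l.length = t ∧ fin u l = w ∧ Good cp cv B l ∧ B' = post cp cv l) := by
    intro w
    by_cases hw : R w
    · obtain ⟨l, h1, h2, h3, h4⟩ := hw
      exact ⟨post cp cv l, h2 ▸ card_post hc l, ((good_disj h4).mono_right hvB).symm,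
        fun _ => ⟨l, h1, h2, h3, h4, rfl⟩⟩
    · exact ⟨∅, by simp, by simp, fun h => absurd h hw⟩
  choose B' hB1 hB2 hB3 using h1
  have h2 : ∑ w, κ.k t u w * nind (R w) ≤ 1 / 10 := by
    rw [← κ.Ex_fin t u (fun w => nind (R w))]
    refine le_trans (κ.Ex_mono fun l hl hlen => ?_) ((κ.Ex_bad h hq hc t u B).trans hB)
    by_cases hg : Good cp cv B l
    · rw [nind_pos (Q := R (fin u l)) ⟨l, hl, hlen, rfl, hg⟩]; exact nind_nonneg _
    · rw [nind_neg hg]; exact nind_le_one _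
  have h3 := κ.tv_le2 t u0 u (fun w => nind (R w)) (fun _ => nind_nonneg _)
    (fun _ => nind_le_one _)
  have h4 := κ.tv_le1 t u0 v (fun w => nind (R w)) (fun _ => nind_nonneg _)
    (fun _ => nind_le_one _)
  rw [← κ.Ex_fin t v (fun w => nind (R w))] at h4
  have h5 := (κ.Ex_bad h hq hc t v B).trans hB
  have h6 := hs B' hB1 hB2
  obtain ⟨l2, hl1, hl2, hl3⟩ := κ.exists_lt (t := t) (u := v) (a := 1)
    (F := fun l => nind (R (fin v l)) + nind (Good cp cv B l)
      + nind (Disjoint (pre cp cv v l) (B' (fin v l)))) (by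
      rw [Ex_add, Ex_add]; linarith)
  have g1 := nind_nonneg (R (fin v l2))
  have g2 := nind_nonneg (Good cp cv B l2)
  have g3 := nind_nonneg (Disjoint (pre cp cv v l2) (B' (fin v l2)))
  obtain ⟨l1, e1, e2, e3, e4, e5⟩ := hB3 _ (of_nind_lt (Q := R (fin v l2)) (by linarith))
  exact ⟨l1, l2, e1, hl1, e2, hl2, e3, e4, of_nind_lt (by linarith),
    e5 ▸ of_nind_lt (by linarith)⟩

section matchable

variable {Pm : Finset C → Prop}

lemma pm_post (h0 : Pm ∅) (hu : ∀ U U', Pm U → Pm U' → Disjoint U U' → Pm (U ∪ U'))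
    (hs : ∀ u p v, 0 < κ.c u p v → Pm (cp p ∪ cv v)) {B : Finset C} {u : V} {l : List (P × V)}
    (hl : κ.Ch u l) (hg : Good cp cv B l) : Pm (post cp cv l) := by
  induction l generalizing B u with
  | nil => exact h0
  | cons x l ih =>
    exact hu _ _ (hs _ _ _ hl.1) (ih hl.2 hg.2)
      ((good_disj hg.2).mono_right subset_union_right).symm

lemma pm_pre (h0 : Pm ∅) (hu : ∀ U U', Pm U → Pm U' → Disjoint U U' → Pm (U ∪ U'))
    (hs : ∀ u p v, 0 < κ.c u p v → Pm (cp p ∪ cv v)) (hpv : ∀ p v, Disjoint (cp p) (cv v))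
    {B : Finset C} {u : V} {l : List (P × V)}
    (hl : κ.Ch u l) (hg : Good cp cv B l) (huB : cv u ⊆ B) : Pm (pre cp cv u l) := by
  induction l generalizing B u with
  | nil => exact h0
  | cons x l ih =>
    refine hu _ _ (hs x.2 _ _ (κ.symm _ _ _ ▸ hl.1))
      (ih hl.2 hg.2 (subset_union_right.trans subset_union_right)) ?_
    refine Disjoint.mono_right (pre_sub _ _) ?_
    rw [disjoint_union_right, disjoint_union_left]
    refine ⟨⟨hpv _ _, (hg.1.mono subset_union_right huB).symm⟩, ?_⟩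
    exact ((good_disj hg.2).mono_right (union_subset (subset_union_left.trans subset_union_right)
      (huB.trans subset_union_left))).symm

lemma exchanger (h0 : Pm ∅) (hu : ∀ U U', Pm U → Pm U' → Disjoint U U' → Pm (U ∪ U'))
    (hs : ∀ u p v, 0 < κ.c u p v → Pm (cp p ∪ cv v)) (hpv : ∀ p v, Disjoint (cp p) (cv v))
    (hc : ∀ p v, (cp p ∪ cv v).card ≤ 5) {B : Finset C} {u v : V} {l1 l2 : List (P × V)} {t : ℕ}
    (ht : 1 ≤ t) (huB : cv u ⊆ B) (hvB : cv v ⊆ B)
    (h1 : κ.Ch u l1) (h2 : κ.Ch v l2) (h3 : l1.length = t) (h4 : l2.length = t)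
    (h5 : fin u l1 = fin v l2) (h6 : Good cp cv B l1) (h7 : Good cp cv B l2)
    (h8 : Disjoint (pre cp cv v l2) (post cp cv l1)) :
    ∃ W : Finset C, W.card ≤ 10 * t ∧ Disjoint W B ∧ Pm (W ∪ cv u) ∧ Pm (W ∪ cv v) := by
  have a1 := pre_union (cp := cp) (cv := cv) u l1
  have a2 := pre_union (cp := cp) (cv := cv) v l2
  have b1 := fin_sub' (cp := cp) (cv := cv) u l1 (by omega)
  have b2 := fin_sub' (cp := cp) (cv := cv) v l2 (by omega)
  rw [h5] at a1 b1
  refine ⟨post cp cv l1 ∪ post cp cv l2, ?_, disjoint_union_left.2 ⟨good_disj h6, good_disj h7⟩,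
    ?_, ?_⟩
  · have := card_union_le (post cp cv l1) (post cp cv l2)
    have := card_post hc l1
    have := card_post hc l2
    omega
  · have e : post cp cv l1 ∪ post cp cv l2 ∪ cv u = pre cp cv u l1 ∪ post cp cv l2 := by
      rw [union_right_comm, union_comm (post cp cv l1), ← a1, union_assoc,
        union_eq_right.2 b2]
    rw [e]
    refine hu _ _ (κ.pm_pre h0 hu hs hpv h1 h6 huB) (κ.pm_post h0 hu hs h2 h7) ?_
    rw [disjoint_left]
    intro b hb1 hb2
    have c1 : b ∉ cv (fin v l2) := h5 ▸ disjoint_left.1 (fin_disj hpv h6 huB) hb1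
    have c2 : b ∈ pre cp cv v l2 :=
      (mem_union.1 (a2 ▸ mem_union_right _ hb2 : b ∈ pre cp cv v l2 ∪ cv (fin v l2))).resolve_right
        c1
    rcases mem_union.1 (pre_sub u l1 hb1) with c3 | c3
    · exact disjoint_left.1 (good_disj h7) hb2 (huB c3)
    · exact disjoint_left.1 h8 c2 c3
  · have e : post cp cv l1 ∪ post cp cv l2 ∪ cv v = post cp cv l1 ∪ pre cp cv v l2 := by
      rw [union_assoc, union_comm (post cp cv l2), ← a2, union_comm (pre cp cv v l2),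
        ← union_assoc, union_eq_left.2 b1]
    rw [e]
    exact hu _ _ (κ.pm_post h0 hu hs h1 h6) (κ.pm_pre h0 hu hs hpv h2 h7 hvB) h8.symm

/-- the class lemma -/
theorem exists_class [Nonempty V] (h0 : Pm ∅)
    (hu : ∀ U U', Pm U → Pm U' → Disjoint U U' → Pm (U ∪ U'))
    (hs : ∀ u p v, 0 < κ.c u p v → Pm (cp p ∪ cv v)) (hpv : ∀ p v, Disjoint (cp p) (cv v))
    (hc : ∀ p v, (cp p ∪ cv v).card ≤ 5) (h : κ.Hit cp cv q) (hq : 0 ≤ q) (J a0 T : ℕ)
    (hJ : 1 ≤ J) (ha0 : 1 ≤ a0) (hT : T = 4 ^ (J ^ 2) * a0)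
    (hlog : Real.log (Fintype.card V) ≤ a0) {lam : ℝ} (hl1 : 1 ≤ lam)
    (hl2 : Real.log (Fintype.card V) ≤ 4 * lam)
    (hl3 : Real.exp lam * (5 * T ^ 2 * J ^ 2) * q ≤ 1) :
    ∃ (u0 : V) (S : V → Prop), ∑ v, κ.K u0 v * nind (S v) ≤ 200 / J ∧
      ∀ u v, S u → S v → ∀ B : Finset C, cv u ⊆ B → cv v ⊆ B →
        T * (B.card + 5 * T) * q ≤ 1 / 10 →
        ∃ W : Finset C, W.card ≤ 10 * T ∧ Disjoint W B ∧ Pm (W ∪ cv u) ∧ Pm (W ∪ cv v) := by
  obtain ⟨a, t, ha, hat, htT, hw1, hw2⟩ := κ.exists_window a0 (J ^ 2) ha0 (Nat.one_le_pow _ _ hJ)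
  rw [← hT] at htT
  set N : ℝ := (Fintype.card V : ℝ) with hN
  have hN0 : 0 < N := by rw [hN]; exact_mod_cast Fintype.card_pos
  have hJ' : (1 : ℝ) ≤ J := by exact_mod_cast hJ
  have ha0' : (1 : ℝ) ≤ a0 := by exact_mod_cast ha0
  have htT' : (t : ℝ) ≤ T := by exact_mod_cast htT
  push_cast at hw1 hw2
  have e1 : ∑ u, ∑ v, κ.K u v * κ.tv t u v ≤ 2 * N / J := by
    have h1 := κ.tv_avg t (lam := 1 / J) (by positivity) (by rw [div_le_one (by linarith)]; exact hJ')
    have h2 : κ.ent t - κ.ent (t + 1) ≤ N / J ^ 2 := by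
      rw [le_div_iff₀ (by positivity)]
      have h3 := mul_le_mul_of_nonneg_left hlog hN0.le
      have h4 : 0 ≤ (κ.ent t - κ.ent (t + 1)) * J ^ 2 :=
        mul_nonneg (by linarith [κ.ent_succ_le t]) (by positivity)
      by_contra h5
      push Not at h5
      nlinarith
    rw [← hN] at h1
    have h3 : 1 / (J : ℝ) * (2 * N / J) = N / J ^ 2 + (1 / J) ^ 2 * N := by field_simp; ring
    exact le_of_mul_le_mul_left (a := 1 / (J : ℝ)) (by linarith) (by positivity)
  have e2 : ∑ x, nind (κ.Spr cp cv t x) ≤ 90 * N / J := by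
    have h1 := κ.spr_avg h hq hat (lam := lam) (by linarith)
    rw [← hN] at h1
    have h2 : κ.ent a - κ.ent t ≤ lam * (4 * N / J ^ 2) := by
      rw [← mul_div_assoc, le_div_iff₀ (by positivity)]
      have h3 := mul_le_mul_of_nonneg_left hl2 hN0.le
      linarith
    have h3 : (t : ℝ) * (N * (Real.exp lam * (5 * t : ℕ) * q)) ≤ lam * (N / J ^ 2) := by
      have h4 : Real.exp lam * (5 * t ^ 2 * J ^ 2) * q ≤ 1 := by
        refine le_trans ?_ hl3
        have := (Real.exp_pos lam).le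
        gcongr
      have h5 : (t : ℝ) * (N * (Real.exp lam * (5 * t : ℕ) * q))
          = Real.exp lam * (5 * t ^ 2 * J ^ 2) * q * (N / J ^ 2) := by
        push_cast; field_simp
      rw [h5]
      exact mul_le_mul_of_nonneg_right (by linarith) (by positivity)
    have h4 : 90 * N / J ^ 2 ≤ 90 * N / J := by
      apply div_le_div_of_nonneg_left (by positivity) (by linarith)
      nlinarith
    refine le_trans (le_of_mul_le_mul_left (a := lam) ?_ (by linarith)) h4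
    have h5 : lam * (90 * N / J ^ 2) = 10 * (2 * (lam * (4 * N / J ^ 2)) + lam * (N / J ^ 2)) := by
      ring
    linarith
  obtain ⟨u0, -, hu0⟩ : ∃ u0 ∈ (univ : Finset V),
      ∑ v, κ.K u0 v * (10 * κ.tv t u0 v + nind (κ.Spr cp cv t v)) ≤ 200 / J := by
    apply exists_le_of_sum_le univ_nonempty
    rw [sum_const, card_univ, nsmul_eq_mul, ← hN]
    have h1 : ∑ u, ∑ v, κ.K u v * (10 * κ.tv t u v + nind (κ.Spr cp cv t v))
        = 10 * ∑ u, ∑ v, κ.K u v * κ.tv t u v + ∑ x, nind (κ.Spr cp cv t x) := by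
      simp only [mul_add, sum_add_distrib, mul_left_comm _ (10 : ℝ), ← mul_sum]
      rw [sum_comm (f := fun u v => κ.K u v * nind (κ.Spr cp cv t v))]
      simp only [← sum_mul, K_col, one_mul]
    rw [h1]
    have h2 : N * (200 / J) = 10 * (2 * N / J) + 90 * N / J + 90 * N / J := by ring
    have h3 : 0 ≤ 90 * N / J := by positivity
    linarith
  refine ⟨u0, fun v => κ.tv t u0 v ≤ 1 / 10 ∧ κ.Spr cp cv t v, le_trans (sum_le_sum fun v _ =>
    mul_le_mul_of_nonneg_left ?_ (κ.K_nonneg _ _)) hu0, ?_⟩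
  · have g1 := κ.tv_nonneg t u0 v
    have g2 := nind_nonneg (κ.Spr cp cv t v)
    by_cases g3 : κ.tv t u0 v ≤ 1 / 10 ∧ κ.Spr cp cv t v
    · rw [nind_pos g3]; linarith
    · rw [nind_neg g3]
      rcases not_and_or.1 g3 with g4 | g4
      · linarith [not_le.1 g4]
      · rw [nind_neg g4]; linarith
  · intro u v hu' hv' B huB hvB hB
    obtain ⟨l1, l2, f1, f2, f3, f4, f5, f6, f7, f8⟩ := κ.two_walks h hq hc hu'.1 hv'.1 hv'.2 B hvB
      (le_trans (by gcongr) hB)
    obtain ⟨W, g1, g2⟩ := κ.exchanger h0 hu hs hpv hc (by omega) huB hvB f1 f2 f3 f4 f5 f6 f7 f8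
    exact ⟨W, by omega, g2⟩

end matchable

end Ker

end Pool.Agent.Lib.MP_356f68_co.Cube
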