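import Mathlib

/-! A large rainbow matching in a family of almost perfect matchings. -/

set_option autoImplicit false
set_option linter.unusedSectionVars false

namespace Pool.Agent.Lib.MP_356f68_co.Cube

open Finset

variable {α : Type} [Fintype α] [DecidableEq α]

/-- rainbow matchings of good pairs -/
def RM (ψ : α → α → α) (Gd : α → α → Prop) (M : Finset (α × α)) : Prop :=
  (∀ e ∈ M, Gd e.1 e.2) ∧ (∀ e ∈ M, ∀ e' ∈ M, e.1 = e'.1 → e = e') ∧
    (∀ e ∈ M, ∀ e' ∈ M, e.2 = e'.2 → e = e') ∧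
    (∀ e ∈ M, ∀ e' ∈ M, ψ e.1 e.2 = ψ e'.1 e'.2 → e = e')

variable {ψ : α → α → α} {Gd : α → α → Prop}

lemma RM.mono {M M' : Finset (α × α)} (h : RM ψ Gd M) (hs : M' ⊆ M) : RM ψ Gd M' :=
  ⟨fun e he => h.1 e (hs he), fun e he e' he' => h.2.1 e (hs he) e' (hs he'),
    fun e he e' he' => h.2.2.1 e (hs he) e' (hs he'),
    fun e he e' he' => h.2.2.2 e (hs he) e' (hs he')⟩

lemma RM.insert {M : Finset (α × α)} (h : RM ψ Gd M) {c x : α} (hg : Gd c x)
    (h1 : ∀ e ∈ M, e.1 ≠ c) (h2 : ∀ e ∈ M, e.2 ≠ x) (h3 : ∀ e ∈ M, ψ e.1 e.2 ≠ ψ c x) :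
    RM ψ Gd (insert (c, x) M) := by
  refine ⟨?_, ?_, ?_, ?_⟩
  · intro e he
    rcases mem_insert.1 he with rfl | he
    · exact hg
    · exact h.1 e he
  all_goals
    intro e he e' he' hh
    rcases mem_insert.1 he with rfl | he <;> rcases mem_insert.1 he' with rfl | he'
  · rfl
  · exact absurd hh.symm (h1 _ he')
  · exact absurd hh (h1 _ he)
  · exact h.2.1 _ he _ he' hh
  · rfl
  · exact absurd hh.symm (h2 _ he')
  · exact absurd hh (h2 _ he)
  · exact h.2.2.1 _ he _ he' hh
  · rfl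
  · exact absurd hh.symm (h3 _ he')
  · exact absurd hh (h3 _ he)
  · exact h.2.2.2 _ he _ he' hh

open Classical in
lemma rainbow_ind (hψ : ∀ i, Function.Injective (ψ i)) {M : Finset (α × α)} (hM : RM ψ Gd M)
    (hmax : ∀ M', RM ψ Gd M' → M'.card ≤ M.card) {r : ℕ} (hr : M.card + r = Fintype.card α)
    (D : Finset α) (hD : ∀ c ∈ D, (∀ e ∈ M, e.1 ≠ c) ∧
      2 * (univ.filter (fun x => ¬ Gd c x)).card ≤ r) :
    ∃ A : Finset α, (∀ x, (∀ e ∈ M, e.2 ≠ x) → x ∈ A) ∧
      D.card * r ≤ 2 * (M.filter (fun e => e.2 ∈ A)).card ∧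
      ∀ x ∈ A, ∃ M', RM ψ Gd M' ∧ M.card ≤ M'.card ∧
        (∀ e ∈ M', ∃ e' ∈ M, ψ e'.1 e'.2 = ψ e.1 e.2) ∧ (∀ e ∈ M', e.2 ≠ x) ∧
        (∀ e ∈ M', e.1 ∈ D ∨ ∃ e' ∈ M, e'.1 = e.1) ∧ ∀ e ∈ M, e.2 ∉ A → e ∈ M' := by
  induction D using Finset.induction_on with
  | empty =>
    refine ⟨univ.filter (fun x => ∀ e ∈ M, e.2 ≠ x), by simp, by simp, fun x hx => ?_⟩
    exact ⟨M, hM, le_rfl, fun e he => ⟨e, he, rfl⟩, (mem_filter.1 hx).2,
      fun e he => Or.inr ⟨e, he, rfl⟩, fun e he _ => he⟩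
  | insert c D hc ih =>
    obtain ⟨A, h1, h2, h3⟩ := ih (fun c hc => hD c (mem_insert_of_mem hc))
    obtain ⟨hc1, hc2⟩ := hD c (mem_insert_self _ _)
    have hcol : ∀ M' : Finset (α × α), (∀ e ∈ M', e.1 ∈ D ∨ ∃ e' ∈ M, e'.1 = e.1) →
        ∀ e ∈ M', e.1 ≠ c := by
      intro M' h e he hec
      rcases h e he with h4 | ⟨e', h4, h5⟩
      · exact hc (hec ▸ h4)
      · exact hc1 e' h4 (h5.trans hec)
    have key : ∀ x ∈ A, Gd c x → ∃ e ∈ M, ψ e.1 e.2 = ψ c x := by
      intro x hx hg
      obtain ⟨M', g1, g2, g3, g4, g5, -⟩ := h3 x hx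
      by_contra hne
      have g6 := hmax _ (g1.insert hg (hcol M' g5) g4 (fun e he h => by
        obtain ⟨e', g7, g8⟩ := g3 e he
        exact hne ⟨e', g7, g8.trans h⟩))
      rw [card_insert_of_notMem (fun h => g4 _ h rfl)] at g6
      omega
    set A' := A ∪ univ.filter (fun x => ∃ e ∈ M, e.2 = x ∧ ∃ x' ∈ A, Gd c x' ∧
      ψ e.1 e.2 = ψ c x') with hA'
    refine ⟨A', fun x hx => mem_union_left _ (h1 x hx), ?_, ?_⟩
    · have g1 : (A.filter (fun x => Gd c x)).card ≤ (M.filter (fun e => e.2 ∈ A')).card := by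
        rw [← card_image_of_injective _ (hψ c)]
        refine le_trans (card_le_card ?_) (card_image_le (f := fun e : α × α => ψ e.1 e.2))
        intro y hy
        obtain ⟨x, hx, rfl⟩ := mem_image.1 hy
        rw [mem_filter] at hx
        obtain ⟨e, he, h⟩ := key x hx.1 hx.2
        exact mem_image.2 ⟨e, mem_filter.2 ⟨he, mem_union_right _
          (mem_filter.2 ⟨mem_univ _, e, he, rfl, x, hx.1, hx.2, h⟩)⟩, h⟩
      have g2 : A.card ≤ (A.filter (fun x => Gd c x)).card
          + (univ.filter (fun x => ¬ Gd c x)).card := by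
        rw [← card_filter_add_card_filter_not (s := A) (fun x => Gd c x)]
        exact Nat.add_le_add_left (card_le_card (filter_subset_filter _ (subset_univ _))) _
      have g3 : Fintype.card α ≤ A.card + (M.filter (fun e => ¬ e.2 ∈ A)).card := by
        rw [← card_univ]
        refine le_trans (card_le_card (t := A ∪ (M.filter (fun e => ¬ e.2 ∈ A)).image Prod.snd) ?_)
          ((card_union_le _ _).trans (Nat.add_le_add_left card_image_le _))
        intro x _
        by_cases hx : x ∈ A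
        · exact mem_union_left _ hx
        · by_contra hh
          refine hx (h1 x fun e he hex => hh (mem_union_right _ (mem_image.2 ⟨e, ?_, hex⟩)))
          exact mem_filter.2 ⟨he, hex ▸ hx⟩
      have g4 := card_filter_add_card_filter_not (s := M) (fun e => e.2 ∈ A)
      rw [card_insert_of_notMem hc, add_mul]
      omega
    · intro x hx
      by_cases hxA : x ∈ A
      · obtain ⟨M', g1, g2, g3, g4, g5, g6⟩ := h3 x hxA
        exact ⟨M', g1, g2, g3, g4, fun e he => (g5 e he).imp_left mem_insert_of_mem,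
          fun e he h => g6 e he fun h' => h (mem_union_left _ h')⟩
      · obtain ⟨-, e, he, rfl, x', hx', hg, hy⟩ := mem_filter.1 ((mem_union.1 hx).resolve_left hxA)
        obtain ⟨M', g1, g2, g3, g4, g5, g6⟩ := h3 x' hx'
        have heM : e ∈ M' := g6 e he hxA
        refine ⟨insert (c, x') (M'.erase e), (g1.mono (erase_subset _ _)).insert hg
          (fun f hf => hcol M' g5 f (mem_of_mem_erase hf))
          (fun f hf => g4 f (mem_of_mem_erase hf))
          (fun f hf h => ne_of_mem_erase hf (g1.2.2.2 f (mem_of_mem_erase hf) e heM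
            (h.trans hy.symm))), ?_, ?_, ?_, ?_, ?_⟩
        · rw [card_insert_of_notMem (fun h => g4 _ (mem_of_mem_erase h) rfl),
            card_erase_add_one heM]
          exact g2
        · intro f hf
          rcases mem_insert.1 hf with rfl | hf
          · exact ⟨e, he, hy⟩
          · exact g3 f (mem_of_mem_erase hf)
        · intro f hf
          rcases mem_insert.1 hf with rfl | hf
          · exact fun h => hxA (h ▸ hx')
          · exact fun h => ne_of_mem_erase hf (g1.2.2.1 f (mem_of_mem_erase hf) e heM h)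
        · intro f hf
          rcases mem_insert.1 hf with rfl | hf
          · exact Or.inl (mem_insert_self _ _)
          · exact (g5 f (mem_of_mem_erase hf)).imp_left mem_insert_of_mem
        · intro f hf h
          exact mem_insert_of_mem (mem_erase.2 ⟨fun h' => h (h' ▸ hx),
            g6 f hf fun h' => h (mem_union_left _ h')⟩)

open Classical in
theorem rainbow (hψ : ∀ i, Function.Injective (ψ i)) (hn : 1600 ≤ Fintype.card α)
    (hbad : 1600 * ∑ i, (univ.filter (fun x => ¬ Gd i x)).card ≤ Fintype.card α ^ 2) :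
    ∃ M, RM ψ Gd M ∧ 19 * Fintype.card α ≤ 20 * M.card := by
  obtain ⟨M, hM, hmax⟩ := exists_max_image (univ.filter (RM ψ Gd)) card
    ⟨∅, mem_filter.2 ⟨mem_univ _, by simp [RM]⟩⟩
  have hM' := (mem_filter.1 hM).2
  refine ⟨M, hM', ?_⟩
  by_contra hlt
  set n := Fintype.card α with hn'
  obtain ⟨r, hr⟩ : ∃ r, M.card + r = n := ⟨n - M.card, by omega⟩
  set bad : α → ℕ := fun i => (univ.filter (fun x => ¬ Gd i x)).card with hb
  set D := univ.filter (fun c => (∀ e ∈ M, e.1 ≠ c) ∧ 2 * bad c ≤ r) with hD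
  set D' := univ.filter (fun c => r < 2 * bad c) with hD'
  obtain ⟨A, -, h2, -⟩ := rainbow_ind hψ hM'
    (fun M' h => hmax M' (mem_filter.2 ⟨mem_univ _, h⟩)) hr D (fun c hc => (mem_filter.1 hc).2)
  have h3 : (M.filter (fun e => e.2 ∈ A)).card ≤ M.card := card_filter_le _ _
  have h4 : n ≤ D.card + D'.card + M.card := by
    rw [hn', ← card_univ]
    refine le_trans (card_le_card (t := D ∪ D' ∪ M.image Prod.fst) ?_)
      ((card_union_le _ _).trans (Nat.add_le_add (card_union_le _ _) card_image_le))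
    intro c _
    by_contra h
    simp only [mem_union, not_or, hD, hD', mem_filter, mem_univ, true_and, mem_image,
      not_exists, not_and, not_lt] at h
    exact h.1.1 (fun e he => h.2 e he) h.1.2
  have h5 : D'.card * r ≤ 2 * ∑ i, bad i := by
    rw [mul_sum, ← smul_eq_mul, ← sum_const]
    exact le_trans (sum_le_sum fun c hc => (mem_filter.1 hc).2.le)
      (sum_le_sum_of_subset (subset_univ _))
  have h6 : r * r ≤ D.card * r + D'.card * r := by
    rw [← add_mul]; exact Nat.mul_le_mul_right _ (by omega)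
  have h7 : n < 20 * r := by omega
  have h8 : n * n < 400 * (r * r) := by nlinarith
  have h9 : 1600 * n ≤ n * n := Nat.mul_le_mul_right _ hn
  have h10 : 1600 * ∑ i, bad i ≤ n * n := by rw [← sq]; exact hbad
  omega

end Pool.Agent.Lib.MP_356f68_co.Cube
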