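import Mathlib
import Pool.Agent.Lib.MP_356f68_co.Cube.Basic
import Pool.Agent.Lib.MP_356f68_co.Cube.Class
import Pool.Agent.Lib.MP_356f68_co.Cube.Rainbow

/-! A frame: an almost spanning family of points and blocks with absorbers for every pair. -/

set_option autoImplicit false
set_option linter.unusedSectionVars false

namespace Pool.Agent.Lib.MP_356f68_co.Cube

open Finset

variable {α : Type} [Fintype α] [DecidableEq α]

/-- the tuple of a point and a block -/
def mk (p : α × α × α) (v : α × α) : Fin 5 → α := ![p.1, p.2.1, p.2.2, v.1, v.2]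

/-- vertices of a point -/
def cp (p : α × α × α) : Finset (Col α) := {(0, p.1), (1, p.2.1), (2, p.2.2)}

/-- vertices of a block -/
def cv (v : α × α) : Finset (Col α) := {(3, v.1), (4, v.2)}

lemma col_mk (p : α × α × α) (v : α × α) : col (mk p v) = cp p ∪ cv v := by
  ext ⟨j, a⟩
  rw [mem_col]
  fin_cases j <;> simp [mk, cp, cv, eq_comm]

lemma disj_pv (p : α × α × α) (v : α × α) : Disjoint (cp p) (cv v) := by
  rw [disjoint_left]
  rintro ⟨j, a⟩ h1 h2
  fin_cases j <;> simp [cp, cv] at h1 h2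

lemma card_cv (v : α × α) : (cv v).card ≤ 2 := card_le_two

variable {E : (Fin 5 → α) → Prop}

lemma latX (hE : Lat E) (i y z s : α) : ∃! x, E (mk (i, x, y) (z, s)) := by
  have := hE 1 (by decide) (mk (i, i, y) (z, s))
  have e : ∀ a, Function.update (mk (i, i, y) (z, s)) 1 a = mk (i, a, y) (z, s) := by
    intro a; funext j; fin_cases j <;> simp [mk]
  simpa only [e] using this

lemma latY (hE : Lat E) (i x z s : α) : ∃! y, E (mk (i, x, y) (z, s)) := by
  have := hE 2 (by decide) (mk (i, x, i) (z, s))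
  have e : ∀ a, Function.update (mk (i, x, i) (z, s)) 2 a = mk (i, x, a) (z, s) := by
    intro a; funext j; fin_cases j <;> simp [mk]
  simpa only [e] using this

lemma latZ (hE : Lat E) (p : α × α × α) (s : α) : ∃! z, E (mk p (z, s)) := by
  have := hE 3 (by decide) (mk p (s, s))
  have e : ∀ a, Function.update (mk p (s, s)) 3 a = mk p (a, s) := by
    intro a; funext j; fin_cases j <;> simp [mk]
  simpa only [e] using this

lemma latS (hE : Lat E) (p : α × α × α) (z : α) : ∃! s, E (mk p (z, s)) := by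
  have := hE 4 (by decide) (mk p (z, z))
  have e : ∀ a, Function.update (mk p (z, z)) 4 a = mk p (z, a) := by
    intro a; funext j; fin_cases j <;> simp [mk]
  simpa only [e] using this

/-- indicator -/
noncomputable def ind (Q : Prop) : ℝ := nind (¬ Q)

lemma ind_nonneg (Q : Prop) : 0 ≤ ind Q := nind_nonneg _

lemma ind_pos {Q : Prop} (h : Q) : ind Q = 1 := nind_neg (not_not.2 h)

lemma ind_neg {Q : Prop} (h : ¬ Q) : ind Q = 0 := nind_pos h

lemma of_ind_pos {Q : Prop} (h : 0 < ind Q) : Q := by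
  by_contra h'; rw [ind_neg h'] at h; exact lt_irrefl _ h

lemma sum_ind {β : Type} [Fintype β] {Q : β → Prop} {a : β} (ha : Q a) (hu : ∀ b, Q b → b = a)
    (F : β → ℝ) : ∑ b, ind (Q b) * F b = F a := by
  rw [sum_eq_single a, ind_pos ha, one_mul]
  · intro b _ hb
    rw [ind_neg (fun h => hb (hu b h)), zero_mul]
  · simp

lemma sum_ind1 {β : Type} [Fintype β] {Q : β → Prop} (h : ∃! a, Q a) : ∑ b, ind (Q b) = 1 := by
  obtain ⟨a, ha, hu⟩ := h
  simpa using sum_ind ha hu (fun _ => 1)

lemma deg_p (hE : Lat E) (p : α × α × α) : ∑ v, ind (E (mk p v)) = Fintype.card α := by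
  rw [Fintype.sum_prod_type]
  simp [sum_ind1 (latS hE p _)]

lemma deg_v (hE : Lat E) (u : α × α) : ∑ p, ind (E (mk p u)) = Fintype.card α ^ 2 := by
  simp only [Fintype.sum_prod_type]
  simp [sum_ind1 (latY hE _ _ u.1 u.2), sq]

lemma deg_pb (hE : Lat E) (p : α × α × α) (b : Col α) :
    ∑ v, ind (E (mk p v)) * ind (b ∈ cv v) ≤ 1 := by
  obtain ⟨j, a⟩ := b
  by_cases h3 : j = 3
  · subst h3
    have : ∀ z s : α, ind (((3 : Fin 5), a) ∈ cv (z, s)) = ind (z = a) := by
      intro z s; congr 1; simp [cv, eq_comm]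
    rw [Fintype.sum_prod_type]
    simp only [this, ← sum_mul, sum_ind1 (latS hE p _), one_mul]
    exact (sum_ind1 (by simp)).le
  by_cases h4 : j = 4
  · subst h4
    have : ∀ z s : α, ind (((4 : Fin 5), a) ∈ cv (z, s)) = ind (s = a) := by
      intro z s; congr 1; simp [cv, eq_comm]
    rw [Fintype.sum_prod_type, sum_comm]
    simp only [this, ← sum_mul, sum_ind1 (latZ hE p _), one_mul]
    exact (sum_ind1 (by simp)).le
  · have : ∀ v : α × α, ind ((j, a) ∈ cv v) = 0 := fun v => ind_neg (by simp [cv, h3, h4])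
    simp [this]

lemma deg_vb (hE : Lat E) (u : α × α) (b : Col α) :
    ∑ p, ind (E (mk p u)) * ind (b ∈ cp p) ≤ Fintype.card α := by
  obtain ⟨j, a⟩ := b
  have h1 : ∑ x : α, ind (x = a) = 1 := sum_ind1 (by simp)
  by_cases h0 : j = 0
  · subst h0
    have : ∀ i x y : α, ind (((0 : Fin 5), a) ∈ cp (i, x, y)) = ind (i = a) := by
      intro i x y; congr 1; simp [cp, eq_comm]
    simp only [Fintype.sum_prod_type]
    simp only [this, ← sum_mul, sum_ind1 (latY hE _ _ u.1 u.2)]
    rw [← mul_sum, h1]; simp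
  by_cases h2 : j = 1
  · subst h2
    have : ∀ i x y : α, ind (((1 : Fin 5), a) ∈ cp (i, x, y)) = ind (x = a) := by
      intro i x y; congr 1; simp [cp, eq_comm]
    simp only [Fintype.sum_prod_type]
    simp only [this, ← sum_mul, sum_ind1 (latY hE _ _ u.1 u.2), one_mul, h1]
    simp
  by_cases h3 : j = 2
  · subst h3
    have : ∀ i x y : α, ind (((2 : Fin 5), a) ∈ cp (i, x, y)) = ind (y = a) := by
      intro i x y; congr 1; simp [cp, eq_comm]
    simp only [Fintype.sum_prod_type]
    have e : ∀ i : α, ∑ x, ∑ y, ind (E (mk (i, x, y) u)) * ind (((2 : Fin 5), a) ∈ cp (i, x, y))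
        = 1 := by
      intro i
      rw [sum_comm]
      simp only [this, ← sum_mul, sum_ind1 (latX hE _ _ u.1 u.2), one_mul, h1]
    simp [e]
  · have : ∀ p : α × α × α, ind ((j, a) ∈ cp p) = 0 :=
      fun p => ind_neg (by simp [cp, h0, h2, h3])
    simp [this]

/-- the walk between blocks through points -/
noncomputable def ker [Nonempty α] (hE : Lat E) : Ker (α × α) (α × α × α) where
  c u p v := ind (E (mk p u)) * ind (E (mk p v)) / (Fintype.card α : ℝ) ^ 3
  nonneg u p v := div_nonneg (mul_nonneg (ind_nonneg _) (ind_nonneg _)) (by positivity)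
  symm u p v := by rw [mul_comm]
  sum_one u := by
    have hn : (0 : ℝ) < Fintype.card α := by exact_mod_cast Fintype.card_pos
    simp only [← sum_div, ← mul_sum, deg_p hE, ← sum_mul, deg_v hE]
    field_simp

lemma ker_hit [Nonempty α] (hE : Lat E) : (ker hE).Hit cp cv (1 / (Fintype.card α : ℝ)) := by
  intro u b
  have hn : (0 : ℝ) < Fintype.card α := by exact_mod_cast Fintype.card_pos
  have e : ∀ F : α × α × α → α × α → ℝ, ∑ p, ∑ v, (ker hE).c u p v * F p v
      = (∑ p, ind (E (mk p u)) * ∑ v, ind (E (mk p v)) * F p v) / (Fintype.card α : ℝ) ^ 3 := by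
    intro F
    simp only [ker, sum_div, mul_sum]
    exact sum_congr rfl fun p _ => sum_congr rfl fun v _ => by ring
  rw [e (fun p v => nind (b ∉ cp p ∪ cv v)), div_le_div_iff₀ (by positivity) hn, one_mul]
  by_cases hb : b.1.val < 3
  · have : ∀ (p : α × α × α) (v : α × α), nind (b ∉ cp p ∪ cv v) = ind (b ∈ cp p) := by
      intro p v
      have : b ∉ cv v := by
        intro h
        simp only [cv, mem_insert, mem_singleton] at h
        rcases h with rfl | rfl <;> simp at hb
      unfold ind; congr 1; simp [this]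
    simp only [this, ← sum_mul, deg_p hE, mul_left_comm _ (Fintype.card α : ℝ), ← mul_sum]
    have := deg_vb hE u b
    calc _ ≤ (Fintype.card α : ℝ) * Fintype.card α * Fintype.card α := by gcongr
      _ = _ := by ring
  · have : ∀ (p : α × α × α) (v : α × α), nind (b ∉ cp p ∪ cv v) = ind (b ∈ cv v) := by
      intro p v
      have : b ∉ cp p := by
        intro h
        simp only [cp, mem_insert, mem_singleton] at h
        rcases h with rfl | rfl | rfl <;> simp at hb
      unfold ind; congr 1; simp [this]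
    simp only [this]
    have h1 : ∑ p, ind (E (mk p u)) * ∑ v, ind (E (mk p v)) * ind (b ∈ cv v)
        ≤ ∑ p, ind (E (mk p u)) := sum_le_sum fun p _ => by
      have := mul_le_mul_of_nonneg_left (deg_pb hE p b) (ind_nonneg (E (mk p u)))
      linarith
    rw [deg_v hE] at h1
    calc _ ≤ (Fintype.card α : ℝ) ^ 2 * Fintype.card α := by gcongr
      _ = _ := by ring

/-- the point of a tuple -/
def pc (g : Fin 5 → α) : Finset (Col α) := cp (g 0, g 1, g 2)

/-- the block of a tuple -/
def qc (g : Fin 5 → α) : Finset (Col α) := cv (g 3, g 4)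

/-- absorbers for all pairs of a point and a block of the family -/
def Abs (E : (Fin 5 → α) → Prop) {ι : Type} (T : ι → Fin 5 → α) (w β : ℕ) : Prop :=
  ∀ a b : ι, ∀ B : Finset (Col α), pc (T a) ∪ qc (T b) ⊆ B → B.card ≤ β →
    ∃ W : Finset (Col α), W.card ≤ w ∧ Disjoint W B ∧ PM E W ∧ PM E (W ∪ (pc (T a) ∪ qc (T b)))

lemma exists_nbr (hE : Lat E) (S : α × α → Prop) (p : α × α × α) (B : Finset (Col α))
    (h : ∑ v, ind (E (mk p v)) * nind (S v) + B.card < Fintype.card α) :
    ∃ u, E (mk p u) ∧ S u ∧ Disjoint (cv u) B := by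
  by_contra hne
  push Not at hne
  have h1 : ∀ v, ind (E (mk p v)) ≤ ind (E (mk p v)) * nind (S v)
      + ∑ b ∈ B, ind (E (mk p v)) * ind (b ∈ cv v) := by
    intro v
    have h2 : 0 ≤ ∑ b ∈ B, ind (E (mk p v)) * ind (b ∈ cv v) :=
      sum_nonneg fun _ _ => mul_nonneg (ind_nonneg _) (ind_nonneg _)
    by_cases h3 : E (mk p v)
    · by_cases h4 : S v
      · obtain ⟨b, h5, h6⟩ := not_disjoint_iff.1 (hne v h3 h4)
        have h7 := single_le_sum (f := fun b => ind (E (mk p v)) * ind (b ∈ cv v))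
          (fun _ _ => mul_nonneg (ind_nonneg _) (ind_nonneg _)) h6
        simp only [ind_pos h5, mul_one] at h7
        rw [nind_pos h4]; linarith
      · rw [nind_neg h4]; linarith
    · rw [ind_neg h3] at h2 ⊢; linarith
  have h2 := sum_le_sum (s := univ) fun v _ => h1 v
  rw [deg_p hE, sum_add_distrib, sum_comm] at h2
  have h3 := sum_le_sum (s := B) fun b _ => deg_pb hE p b
  rw [sum_const, nsmul_eq_mul, mul_one] at h3
  linarith

open Classical in
theorem exists_frame (hE : Lat E) (J a0 T β : ℕ) (hn : 1600 ≤ Fintype.card α)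
    (hJ : 6400000 ≤ J) (ha0 : 1 ≤ a0) (hT : T = 4 ^ (J ^ 2) * a0)
    (hlog : 2 * Real.log (Fintype.card α) ≤ a0)
    (hl3 : (5 * T ^ 2 * J ^ 2) ^ 2 ≤ Fintype.card α)
    (hβ : 10 * (T * (β + 2 + 5 * T)) ≤ Fintype.card α) :
    ∃ m : ℕ, 19 * Fintype.card α ≤ 20 * m ∧ ∃ Tu : Fin m → Fin 5 → α,
      (∀ j, Function.Injective (fun a => Tu a j)) ∧ Abs E Tu (10 * T + 2) β := by
  have : Nonempty α := Fintype.card_pos_iff.1 (by omega)
  set n := Fintype.card α with hn'
  have hn0 : (1600 : ℝ) ≤ n := by exact_mod_cast hn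
  have hT1 : 1 ≤ T := by rw [hT]; exact Nat.mul_pos (by positivity) ha0
  have hcard : Real.log (Fintype.card (α × α)) = 2 * Real.log n := by
    rw [Fintype.card_prod]; push_cast; rw [Real.log_mul (by linarith) (by linarith)]; ring
  have hsq : Real.exp (Real.log n / 2) * Real.exp (Real.log n / 2) = n := by
    rw [← Real.exp_add, add_halves, Real.exp_log (by linarith)]
  obtain ⟨u0, S, hS1, hS2⟩ := (ker hE).exists_class (Pm := PM E) (cp := cp) (cv := cv) PM.empty
    (fun U U' => PM.union) (fun u p v h => by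
      rw [← col_mk]
      refine PM.single (of_ind_pos ?_)
      rcases (ind_nonneg (E (mk p v))).eq_or_lt with h0 | h0
      · simp only [ker, ← h0, mul_zero, zero_div] at h; exact absurd h (lt_irrefl _)
      · exact h0) disj_pv (fun p v => by rw [← col_mk, card_col]) (ker_hit hE) (by positivity)
    J a0 T (by omega) ha0 hT (by rw [hcard]; exact hlog) (lam := Real.log n / 2) (by
      have h1 : Real.exp 2 ≤ n := by
        have := Real.exp_one_lt_d9
        have h2 : Real.exp 2 = Real.exp 1 * Real.exp 1 := by rw [← Real.exp_add]; norm_num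
        nlinarith [Real.exp_pos 1]
      have := (Real.le_log_iff_exp_le (by linarith)).2 h1
      linarith) (by rw [hcard]; linarith) (by
      rw [mul_one_div, div_le_one (by linarith)]
      have h1 : ((5 * T ^ 2 * J ^ 2 : ℝ)) ^ 2 ≤ Real.exp (Real.log n / 2) ^ 2 := by
        rw [sq (Real.exp _), hsq]; exact_mod_cast hl3
      have h3 := (pow_le_pow_iff_left₀ (by positivity) (Real.exp_pos _).le two_ne_zero).1 h1
      exact (mul_le_mul_of_nonneg_left h3 (Real.exp_pos _).le).trans hsq.le)
  choose ψ hψ hψu using fun i x => latY hE i x u0.1 u0.2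
  have hψi : ∀ i, Function.Injective (ψ i) := fun i x x' h =>
    (latX hE i (ψ i x) u0.1 u0.2).unique (hψ i x) (h ▸ hψ i x')
  set out : α × α × α → ℝ := fun p => ∑ v, ind (E (mk p v)) * nind (S v) with hout
  have hout0 : ∀ p, 0 ≤ out p := fun p =>
    sum_nonneg fun _ _ => mul_nonneg (ind_nonneg _) (nind_nonneg _)
  have e1 : ∑ i, ∑ x, out (i, x, ψ i x) ≤ n ^ 3 / 32000 := by
    have h1 : ∑ v, (ker hE).K u0 v * nind (S v)
        = (∑ p, ind (E (mk p u0)) * out p) / (n : ℝ) ^ 3 := by
      simp only [Ker.K, ker, sum_mul, hout, mul_sum, sum_div]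
      rw [sum_comm]
      exact sum_congr rfl fun p _ => sum_congr rfl fun v _ => by ring
    have h2 : ∑ p, ind (E (mk p u0)) * out p = ∑ i, ∑ x, out (i, x, ψ i x) := by
      simp only [Fintype.sum_prod_type]
      exact sum_congr rfl fun i _ => sum_congr rfl fun x _ =>
        sum_ind (Q := fun y => E (mk (i, x, y) u0)) (hψ i x) (hψu i x) (fun y => out (i, x, y))
    rw [h1, h2, div_le_iff₀ (by positivity)] at hS1
    have h3 : (200 : ℝ) / J ≤ 1 / 32000 := by
      have : (6400000 : ℝ) ≤ J := by exact_mod_cast hJ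
      rw [div_le_div_iff₀ (by linarith) (by norm_num)]; linarith
    have h4 := mul_le_mul_of_nonneg_right h3 (by positivity : (0 : ℝ) ≤ n ^ 3)
    linarith
  obtain ⟨M, hM, hMc⟩ := rainbow (Gd := fun i x => 20 * out (i, x, ψ i x) ≤ n) hψi hn (by
    have h1 : ∀ i, ((univ.filter (fun x => ¬ 20 * out (i, x, ψ i x) ≤ n)).card : ℝ) * n
        ≤ 20 * ∑ x, out (i, x, ψ i x) := by
      intro i
      rw [mul_sum, ← nsmul_eq_mul, ← sum_const]
      exact le_trans (sum_le_sum fun x hx => (not_le.1 (mem_filter.1 hx).2).le)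
        (sum_le_sum_of_subset_of_nonneg (subset_univ _)
          fun x _ _ => mul_nonneg (by norm_num) (hout0 _))
    have h2 := sum_le_sum (s := univ) fun i _ => h1 i
    rw [← sum_mul, ← mul_sum] at h2
    have h3 : (1600 * ∑ i, ((univ.filter (fun x => ¬ 20 * out (i, x, ψ i x) ≤ n)).card : ℝ)) * n
        ≤ n ^ 2 * n := by linarith
    exact_mod_cast le_of_mul_le_mul_right h3 (by linarith))
  obtain ⟨e0, he0⟩ : M.Nonempty := card_pos.1 (by omega)
  set p0 : α × α × α := (e0.1, e0.2, ψ e0.1 e0.2) with hp0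
  set Q := univ.filter (fun v => E (mk p0 v) ∧ S v) with hQ
  have hQc : 19 * n ≤ 20 * Q.card := by
    have h1 : 20 * out p0 ≤ n := hM.1 e0 he0
    have h2 : ∀ v, ind (E (mk p0 v)) = ind (E (mk p0 v)) * nind (S v)
        + (if E (mk p0 v) ∧ S v then 1 else 0) := by
      intro v
      by_cases h3 : E (mk p0 v) <;> by_cases h4 : S v <;>
        simp [h3, h4, ind_pos, ind_neg, nind_pos, nind_neg]
    have h3 := deg_p hE p0
    rw [sum_congr rfl fun v _ => h2 v, sum_add_distrib, sum_boole] at h3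
    have h4 : (19 * n : ℝ) ≤ 20 * Q.card := by
      simp only [hout] at h1
      linarith
    exact_mod_cast h4
  obtain ⟨f, hf⟩ := Function.Embedding.exists_of_card_le_finset (α := Fin (min M.card Q.card))
    (s := M) (by simp)
  obtain ⟨g, hg⟩ := Function.Embedding.exists_of_card_le_finset (α := Fin (min M.card Q.card))
    (s := Q) (by simp)
  have hf' : ∀ a, f a ∈ M := fun a => hf (Set.mem_range_self a)
  have hg' : ∀ a, E (mk p0 (g a)) ∧ S (g a) := fun a =>
    (mem_filter.1 (hg (Set.mem_range_self a))).2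
  refine ⟨min M.card Q.card, by omega, fun a => mk ((f a).1, (f a).2, ψ (f a).1 (f a).2) (g a),
    ?_, ?_⟩
  · intro j a b hab
    fin_cases j
    · exact f.injective (hM.2.1 _ (hf' a) _ (hf' b) hab)
    · exact f.injective (hM.2.2.1 _ (hf' a) _ (hf' b) hab)
    · exact f.injective (hM.2.2.2 _ (hf' a) _ (hf' b) hab)
    · have h : (g a).1 = (g b).1 := hab
      exact g.injective (Prod.ext h ((latS hE p0 (g a).1).unique (hg' a).1 (h ▸ (hg' b).1)))
    · have h : (g a).2 = (g b).2 := hab
      exact g.injective (Prod.ext ((latZ hE p0 (g a).2).unique (hg' a).1 (h ▸ (hg' b).1)) h)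
  · intro a b B hB1 hB2
    set p : α × α × α := ((f a).1, (f a).2, ψ (f a).1 (f a).2) with hp
    change cp p ∪ cv (g b) ⊆ B at hB1
    change ∃ W : Finset (Col α), W.card ≤ _ ∧ Disjoint W B ∧ PM E W ∧ PM E (W ∪ (cp p ∪ cv (g b)))
    have hβ' : (10 * (T * (β + 2 + 5 * T)) : ℝ) ≤ n := by exact_mod_cast hβ
    have hB3 : (B.card : ℝ) ≤ β := by exact_mod_cast hB2
    have hT' : (1 : ℝ) ≤ T := by exact_mod_cast hT1
    obtain ⟨u, hu1, hu2, hu3⟩ := exists_nbr hE S p B (by
      have h1 : 20 * out p ≤ n := hM.1 _ (hf' a)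
      simp only [hout] at h1
      have h2 : (0 : ℝ) ≤ β := Nat.cast_nonneg _
      nlinarith)
    obtain ⟨W, h1, h2, h3, h4⟩ := hS2 u (g b) hu2 (hg' b).2 (B ∪ cv u) subset_union_right
      ((subset_union_right.trans hB1).trans subset_union_left) (by
      have h1 : ((B ∪ cv u).card : ℝ) ≤ β + 2 := by
        exact_mod_cast (card_union_le _ _).trans (Nat.add_le_add hB2 (card_cv u))
      rw [mul_one_div, div_le_iff₀ (by linarith)]
      have h2 : (T : ℝ) * ((B ∪ cv u).card + 5 * T) ≤ T * (β + 2 + 5 * T) := by gcongr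
      linarith)
    refine ⟨W ∪ cv u, (card_union_le _ _).trans (Nat.add_le_add h1 (card_cv u)),
      disjoint_union_left.2 ⟨h2.mono_right subset_union_left, hu3⟩, h3, ?_⟩
    have e : W ∪ cv u ∪ (cp p ∪ cv (g b)) = (W ∪ cv (g b)) ∪ (cp p ∪ cv u) := by
      ext c; simp only [mem_union]; tauto
    rw [e]
    refine h4.union (col_mk p u ▸ PM.single hu1) (disjoint_union_left.2 ⟨h2.mono_right
      (union_subset_union_left (subset_union_left.trans hB1)), disjoint_union_right.2
        ⟨(disj_pv _ _).symm, (hu3.mono_right (subset_union_right.trans hB1)).symm⟩⟩)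

end Pool.Agent.Lib.MP_356f68_co.Cube
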