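import Mathlib
import Pool.Agent.Lib.MP_356f68_co.Cube.Frame

/-! Merging two uncovered tuples into one. -/

set_option autoImplicit false
set_option linter.unusedSectionVars false
set_option linter.unusedSimpArgs false

namespace Pool.Agent.Lib.MP_356f68_co.Cube

open Finset

variable {α : Type} [Fintype α] [DecidableEq α] {ι : Type} [DecidableEq ι]

lemma mem_pc {g : Fin 5 → α} {b : Col α} : b ∈ pc g ↔ b.1.val < 3 ∧ g b.1 = b.2 := by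
  obtain ⟨j, a⟩ := b
  fin_cases j <;> simp [pc, cp, eq_comm]

lemma mem_qc {g : Fin 5 → α} {b : Col α} : b ∈ qc g ↔ 3 ≤ b.1.val ∧ g b.1 = b.2 := by
  obtain ⟨j, a⟩ := b
  fin_cases j <;> simp [qc, cv, eq_comm]

/-- vertices of the points of a family -/
def CP (T : ι → Fin 5 → α) (A : Finset ι) : Finset (Col α) := A.biUnion (fun a => pc (T a))

/-- vertices of the blocks of a family -/
def CQ (T : ι → Fin 5 → α) (A : Finset ι) : Finset (Col α) := A.biUnion (fun a => qc (T a))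

lemma mem_CP {T : ι → Fin 5 → α} {A : Finset ι} {b : Col α} :
    b ∈ CP T A ↔ b.1.val < 3 ∧ ∃ a ∈ A, T a b.1 = b.2 := by
  simp only [CP, mem_biUnion, mem_pc]; tauto

lemma mem_CQ {T : ι → Fin 5 → α} {A : Finset ι} {b : Col α} :
    b ∈ CQ T A ↔ 3 ≤ b.1.val ∧ ∃ a ∈ A, T a b.1 = b.2 := by
  simp only [CQ, mem_biUnion, mem_qc]; tauto

/-- all but one tuple of `U` and of equally many points and blocks from `K` can be matched -/
def Conf (E : (Fin 5 → α) → Prop) (T : ι → Fin 5 → α) (U : Finset (Col α)) (K : Finset ι) : Prop :=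
  ∃ A ⊆ K, ∃ B ⊆ K, A.card = B.card ∧ ∃ f : Fin 5 → α, col f ⊆ U ∪ (CP T A ∪ CQ T B) ∧
    PM E ((U ∪ (CP T A ∪ CQ T B)) \ col f)

variable {E : (Fin 5 → α) → Prop} {T : ι → Fin 5 → α}

lemma step_core (hT : ∀ j, Function.Injective (fun a => T a j)) {u f : Fin 5 → α} {D : Finset ι}
    (huf : ∀ j, u j ≠ f j) (hD : ∀ a ∈ D, ∀ j, T a j ≠ u j ∧ T a j ≠ f j)
    {a a' a'' b b' b'' : ι} (ha : a ∈ D) (ha' : a' ∈ D) (ha'' : a'' ∈ D) (hb : b ∈ D)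
    (hb' : b' ∈ D) (hb'' : b'' ∈ D) (h1 : a ≠ a') (h2 : a ≠ a'') (h3 : a' ≠ a'')
    (h4 : b ≠ b') (h5 : b ≠ b'') (h6 : b' ≠ b'')
    (e1 : E (mk (f 0, T a' 1, f 2) (T b 3, f 4))) (e2 : E (mk (u 0, T a 1, u 2) (u 3, T b' 4)))
    (e3 : E (mk (T a 0, T a'' 1, T a 2) (f 3, T b 4)))
    (e4 : E (mk (T a' 0, u 1, T a' 2) (T b' 3, T b'' 4))) :
    Conf E T (col u ∪ col f) {a, a', a'', b, b', b''} := by
  have hT' : ∀ j x y, T x j = T y j ↔ x = y := fun j x y => (hT j).eq_iff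
  have g1 := fun a ha j => (hD a ha j).1
  have g2 := fun a ha j => (hD a ha j).2
  have g3 := fun a ha j => (hD a ha j).1.symm
  have g4 := fun a ha j => (hD a ha j).2.symm
  have g5 := fun j => (huf j).symm
  refine ⟨{a, a', a''}, by intro x; simp; tauto, {b, b', b''}, by intro x; simp; tauto,
    by rw [card_eq_three.2 ⟨a, a', a'', h1, h2, h3, rfl⟩,
      card_eq_three.2 ⟨b, b', b'', h4, h5, h6, rfl⟩],
    mk (T a'' 0, f 1, T a'' 2) (T b'' 3, u 4), ?_⟩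
  have e : col u ∪ col f ∪ (CP T {a, a', a''} ∪ CQ T {b, b', b''})
      = col (mk (T a'' 0, f 1, T a'' 2) (T b'' 3, u 4)) ∪
        (col (mk (f 0, T a' 1, f 2) (T b 3, f 4)) ∪ (col (mk (u 0, T a 1, u 2) (u 3, T b' 4)) ∪
        (col (mk (T a 0, T a'' 1, T a 2) (f 3, T b 4)) ∪
          col (mk (T a' 0, u 1, T a' 2) (T b' 3, T b'' 4))))) := by
    ext ⟨j, c⟩
    simp only [mem_union, mem_col, mem_CP, mem_CQ]
    fin_cases j <;> simp [mk] <;> tauto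
  rw [e, union_sdiff_cancel_left]
  · refine ⟨subset_union_left, (PM.single e1).union ((PM.single e2).union
      ((PM.single e3).union (PM.single e4) ?_) ?_) ?_⟩
    all_goals
      simp only [disjoint_union_right, disjoint_col, Fin.forall_fin_succ]
      simp [mk, hT', g1, g2, g3, g4, g5, huf, ha, ha', ha'', hb, hb', hb'', h1, h2, h3, h4, h5, h6,
        h1.symm, h2.symm, h3.symm, h4.symm, h5.symm, h6.symm]
  · simp only [disjoint_union_right, disjoint_col, Fin.forall_fin_succ]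
    simp [mk, hT', g1, g2, g3, g4, g5, huf, ha, ha', ha'', hb, hb', hb'', h1, h2, h3, h4, h5, h6,
        h1.symm, h2.symm, h3.symm, h4.symm, h5.symm, h6.symm]

lemma step_core' (hT : ∀ j, Function.Injective (fun a => T a j)) {u f : Fin 5 → α} {D : Finset ι}
    (huf : ∀ j, u j ≠ f j) (hD : ∀ a ∈ D, ∀ j, T a j ≠ u j ∧ T a j ≠ f j)
    {a a' a'' b b' b'' : ι} (ha : a ∈ D) (ha' : a' ∈ D) (ha'' : a'' ∈ D) (hb : b ∈ D)
    (hb' : b' ∈ D) (hb'' : b'' ∈ D) (h1 : a ≠ a') (h2 : a ≠ a'') (h3 : a' ≠ a'')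
    (h4 : b ≠ b') (h5 : b ≠ b'') (h6 : b' ≠ b'') {z z' x x' : α}
    (hz : (z = u 3 ∧ z' = f 3) ∨ (z = f 3 ∧ z' = u 3))
    (hx : (x = u 1 ∧ x' = f 1) ∨ (x = f 1 ∧ x' = u 1))
    (e1 : E (mk (f 0, T a' 1, f 2) (T b 3, f 4))) (e2 : E (mk (u 0, T a 1, u 2) (z, T b' 4)))
    (e3 : E (mk (T a 0, T a'' 1, T a 2) (z', T b 4)))
    (e4 : E (mk (T a' 0, x, T a' 2) (T b' 3, T b'' 4))) :
    Conf E T (col u ∪ col f) {a, a', a'', b, b', b''} := by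
  have g5 := fun j => (huf j).symm
  have key : col (mk (u 0, x, u 2) (z, u 4)) ∪ col (mk (f 0, x', f 2) (z', f 4))
      = col u ∪ col f := by
    ext ⟨j, c⟩
    simp only [mem_union, mem_col]
    rcases hz with ⟨rfl, rfl⟩ | ⟨rfl, rfl⟩ <;> rcases hx with ⟨rfl, rfl⟩ | ⟨rfl, rfl⟩ <;>
      fin_cases j <;> simp [mk, or_comm]
  rw [← key]
  refine step_core hT (D := D) ?_ ?_ ha ha' ha'' hb hb' hb'' h1 h2 h3 h4 h5 h6 e1 e2 e3 e4
  · intro j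
    rcases hz with ⟨rfl, rfl⟩ | ⟨rfl, rfl⟩ <;> rcases hx with ⟨rfl, rfl⟩ | ⟨rfl, rfl⟩ <;>
      fin_cases j <;> simp [mk, huf, g5]
  · intro c hc j
    have g1 := fun j => (hD c hc j).1
    have g2 := fun j => (hD c hc j).2
    rcases hz with ⟨rfl, rfl⟩ | ⟨rfl, rfl⟩ <;> rcases hx with ⟨rfl, rfl⟩ | ⟨rfl, rfl⟩ <;>
      fin_cases j <;> simp [mk, g1, g2]

/-- the number of elements with a property -/
noncomputable def ct (D : Finset ι) (R : ι → Prop) : ℕ :=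
  (@filter ι R (Classical.decPred R) D).card

lemma card_bad (I : Finset α) (G : Finset ι) (h : ι → α) (Q : ι → Prop)
    (hh : ∀ a ∈ G, ∀ b ∈ G, Q a → Q b → h a = h b → a = b) :
    ct G (fun b => Q b ∧ h b ∉ I) + I.card ≤ Fintype.card α := by
  obtain ⟨F, hF, hF'⟩ : ∃ F : Finset ι, ct G (fun b => Q b ∧ h b ∉ I) = F.card ∧
      ∀ b ∈ F, b ∈ G ∧ Q b ∧ h b ∉ I := ⟨_, rfl, fun b hb => by simpa using hb⟩
  rw [hF, ← card_image_of_injOn (f := h) (fun a ha b hb => hh a (hF' a ha).1 b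
    (hF' b hb).1 (hF' a ha).2.1 (hF' b hb).2.1), ← card_union_of_disjoint]
  · exact card_le_univ _
  · rw [disjoint_left]
    intro y hy
    obtain ⟨b, hb, rfl⟩ := mem_image.1 hy
    exact (hF' b hb).2.2

open Classical in
lemma two_dim (D : Finset ι) (R1 R2 : ι → ι → Prop) (c1 c2 : ℕ)
    (h1 : ∀ a ∈ D, ct D (fun b => R1 a b) ≤ c1)
    (h2 : ∀ b ∈ D, ct D (fun a => R2 a b) ≤ c2) (h : c1 + c2 < D.card) :
    ∃ a ∈ D, ∃ b ∈ D, ¬ R1 a b ∧ ¬ R2 a b := by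
  by_contra hne
  push Not at hne
  have e1 : ∑ a ∈ D, ∑ b ∈ D, (if R1 a b then 1 else 0) ≤ D.card * c1 := by
    rw [← smul_eq_mul, ← sum_const]
    exact sum_le_sum fun a ha => by rw [sum_boole]; exact h1 a ha
  have e2 : ∑ a ∈ D, ∑ b ∈ D, (if R2 a b then 1 else 0) ≤ D.card * c2 := by
    rw [← smul_eq_mul, ← sum_const, sum_comm]
    exact sum_le_sum fun b hb => by rw [sum_boole]; exact h2 b hb
  have e3 : D.card * D.card ≤ ∑ a ∈ D, ∑ b ∈ D, (if R1 a b then 1 else 0)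
      + ∑ a ∈ D, ∑ b ∈ D, (if R2 a b then 1 else 0) := by
    rw [← sum_add_distrib, ← smul_eq_mul, ← sum_const]
    refine sum_le_sum fun a ha => ?_
    rw [← sum_add_distrib, card_eq_sum_ones]
    refine sum_le_sum fun b hb => ?_
    by_cases h3 : R1 a b
    · simp [h3]
    · simp [hne a ha b hb h3]
  have e4 : D.card * (c1 + c2) < D.card * D.card := Nat.mul_lt_mul_of_pos_left h (by omega)
  rw [mul_add] at e4
  omega

lemma filter_or_le (D : Finset ι) (R1 R2 : ι → Prop) {c1 c2 : ℕ}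
    (h1 : ct D R1 ≤ c1) (h2 : ct D R2 ≤ c2) : ct D (fun a => R1 a ∨ R2 a) ≤ c1 + c2 := by
  refine le_trans ?_ (Nat.add_le_add h1 h2)
  unfold ct
  refine le_trans (card_le_card ?_) (card_union_le _ _)
  intro a ha
  simp only [mem_filter, mem_union] at ha ⊢
  tauto

theorem step (hE : Lat E) (hT : ∀ j, Function.Injective (fun a => T a j)) {u f : Fin 5 → α}
    {D : Finset ι} (huf : ∀ j, u j ≠ f j) (hD : ∀ a ∈ D, ∀ j, T a j ≠ u j ∧ T a j ≠ f j)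
    (hc : 9 * Fintype.card α + 9 < 10 * D.card) :
    ∃ K ⊆ D, K.card ≤ 6 ∧ Conf E T (col u ∪ col f) K := by
  obtain ⟨a0, -⟩ : D.Nonempty := card_pos.1 (by omega)
  have : Nonempty ι := ⟨a0⟩
  choose sX hX hXu using latX hE
  choose sS hS hSu using latS hE
  have iXs : ∀ i y z s s', sX i y z s = sX i y z s' → s = s' := fun i y z s s' h =>
    (latS hE (i, sX i y z s, y) z).unique (hX i y z s) (h ▸ hX i y z s')
  have iXz : ∀ i y z z' s, sX i y z s = sX i y z' s → z = z' := fun i y z z' s h =>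
    (latZ hE (i, sX i y z s, y) s).unique (hX i y z s) (h ▸ hX i y z' s)
  have iSx : ∀ i x x' y z, sS (i, x, y) z = sS (i, x', y) z → x = x' := fun i x x' y z h =>
    (latX hE i y z (sS (i, x, y) z)).unique (hS _ z) (h ▸ hS _ z)
  have iSz : ∀ p z z', sS p z = sS p z' → z = z' := fun p z z' h =>
    (latZ hE p (sS p z)).unique (hS _ z) (h ▸ hS _ z')
  set I : Fin 5 → ι → Finset α := fun j a => (D.erase a).image (fun c => T c j) with hI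
  set inv : Fin 5 → α → ι := fun j => Function.invFun (fun c => T c j) with hinv
  have hI1 : ∀ j a y, y ∈ I j a → inv j y ∈ D ∧ a ≠ inv j y ∧ T (inv j y) j = y := by
    intro j a y hy
    obtain ⟨c, hc, rfl⟩ := mem_image.1 hy
    have : inv j (T c j) = c := Function.leftInverse_invFun (hT j) c
    rw [this]
    exact ⟨mem_of_mem_erase hc, (ne_of_mem_erase hc).symm, rfl⟩
  obtain ⟨r, hr⟩ : ∃ r, D.card + r = Fintype.card α + 1 := by
    have := card_le_univ (D.image (fun c => T c 0))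
    rw [card_image_of_injective _ (hT 0)] at this
    exact ⟨Fintype.card α + 1 - D.card, by omega⟩
  have hI2 : ∀ j, ∀ a ∈ D, ∀ (h : ι → α) (Q : ι → Prop),
      (∀ a ∈ D, ∀ b ∈ D, Q a → Q b → h a = h b → a = b) →
      ct D (fun b => Q b ∧ h b ∉ I j a) ≤ r := by
    intro j a ha h Q hh
    have h1 := card_bad (I j a) D h Q hh
    have h2 : (I j a).card + 1 = D.card := by
      rw [hI]; simp only; rw [card_image_of_injective _ (hT j), card_erase_add_one ha]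
    omega
  set φ1 : ι → α := fun b => sX (f 0) (f 2) (T b 3) (f 4) with hφ1
  set φ2 : α → ι → α := fun z a => sS (u 0, T a 1, u 2) z with hφ2
  set φ3 : α → ι → ι → α := fun z a b => sX (T a 0) (T a 2) z (T b 4) with hφ3
  set φ4 : α → ι → ι → α := fun x a b => sS (T a 0, x, T a 2) (T b 3) with hφ4
  have k3 : ∀ z, ∀ a ∈ D, ct D (fun b => True ∧ φ3 z a b ∉ I 1 a) ≤ r :=
    fun z a ha => hI2 1 a ha (φ3 z a) (fun _ => True) fun b _ b' _ _ _ h => hT 4 (iXs _ _ _ _ _ h)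
  have k2 : ∀ z, ∀ b ∈ D, ct D (fun a => True ∧ φ2 z a ∉ I 4 b) ≤ r :=
    fun z b hb => hI2 4 b hb (φ2 z) (fun _ => True) fun a _ a' _ _ _ h => hT 1 (iSx _ _ _ _ _ h)
  have k4 : ∀ z x, ∀ b ∈ D, ct D (fun a => φ2 z a ∈ I 4 b ∧
      φ4 x (inv 1 (φ1 b)) (inv 4 (φ2 z a)) ∉ I 4 b) ≤ r :=
    fun z x b hb => hI2 4 b hb (fun a => φ4 x (inv 1 (φ1 b)) (inv 4 (φ2 z a)))
      (fun a => φ2 z a ∈ I 4 b) fun a _ a' _ h1 h2 h => by
      have h3 : inv 4 (φ2 z a) = inv 4 (φ2 z a') := hT 3 (iSz _ _ _ h)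
      have h4 := (hI1 _ _ _ h1).2.2
      rw [h3, (hI1 _ _ _ h2).2.2] at h4
      exact hT 1 (iSx _ _ _ _ _ h4.symm)
  obtain ⟨a, ha, b, hb, h1, h2⟩ := two_dim D
    (fun a b => (True ∧ φ1 b ∉ I 1 a) ∨ (True ∧ φ3 (u 3) a b ∉ I 1 a) ∨
      (True ∧ φ3 (f 3) a b ∉ I 1 a))
    (fun a b => ((True ∧ φ2 (u 3) a ∉ I 4 b) ∨ (True ∧ φ2 (f 3) a ∉ I 4 b)) ∨
      ((φ2 (u 3) a ∈ I 4 b ∧ φ4 (u 1) (inv 1 (φ1 b)) (inv 4 (φ2 (u 3) a)) ∉ I 4 b) ∨
      (φ2 (u 3) a ∈ I 4 b ∧ φ4 (f 1) (inv 1 (φ1 b)) (inv 4 (φ2 (u 3) a)) ∉ I 4 b)) ∨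
      ((φ2 (f 3) a ∈ I 4 b ∧ φ4 (u 1) (inv 1 (φ1 b)) (inv 4 (φ2 (f 3) a)) ∉ I 4 b) ∨
      (φ2 (f 3) a ∈ I 4 b ∧ φ4 (f 1) (inv 1 (φ1 b)) (inv 4 (φ2 (f 3) a)) ∉ I 4 b)))
    (r + (r + r)) (r + r + ((r + r) + (r + r)))
    (fun a ha => filter_or_le D _ _ (hI2 1 a ha φ1 (fun _ => True)
        fun b _ b' _ _ _ h => hT 3 (iXz _ _ _ _ _ h))
        (filter_or_le D _ _ (k3 (u 3) a ha) (k3 (f 3) a ha)))
    (fun b hb => filter_or_le D _ _ (filter_or_le D _ _ (k2 (u 3) b hb) (k2 (f 3) b hb))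
        (filter_or_le D _ _ (filter_or_le D _ _ (k4 (u 3) (u 1) b hb) (k4 (u 3) (f 1) b hb))
        (filter_or_le D _ _ (k4 (f 3) (u 1) b hb) (k4 (f 3) (f 1) b hb))))
    (by omega)
  simp only [true_and, not_or, not_not, not_and] at h1 h2
  obtain ⟨p1, p2, p3⟩ := h1
  obtain ⟨⟨q1, q2⟩, ⟨q3, q4⟩, q5, q6⟩ := h2
  obtain ⟨z, z', hz, r1, r2, r3, r4, r5⟩ : ∃ z z', ((z = u 3 ∧ z' = f 3) ∨ (z = f 3 ∧ z' = u 3)) ∧
      φ3 z' a b ∈ I 1 a ∧ φ3 z' a b ≠ φ1 b ∧ φ2 z a ∈ I 4 b ∧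
      φ4 (u 1) (inv 1 (φ1 b)) (inv 4 (φ2 z a)) ∈ I 4 b ∧
      φ4 (f 1) (inv 1 (φ1 b)) (inv 4 (φ2 z a)) ∈ I 4 b := by
    by_cases h : φ3 (f 3) a b = φ1 b
    · exact ⟨f 3, u 3, Or.inr ⟨rfl, rfl⟩, p2, fun h' => huf 3 (iXz _ _ _ _ _ (h'.trans h.symm)),
        q2, q5 q2, q6 q2⟩
    · exact ⟨u 3, f 3, Or.inl ⟨rfl, rfl⟩, p3, h, q1, q3 q1, q4 q1⟩
  obtain ⟨x, x', hx, r6, r7⟩ : ∃ x x', ((x = u 1 ∧ x' = f 1) ∨ (x = f 1 ∧ x' = u 1)) ∧
      φ4 x (inv 1 (φ1 b)) (inv 4 (φ2 z a)) ∈ I 4 b ∧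
      φ4 x (inv 1 (φ1 b)) (inv 4 (φ2 z a)) ≠ φ2 z a := by
    by_cases h : φ4 (u 1) (inv 1 (φ1 b)) (inv 4 (φ2 z a)) = φ2 z a
    · exact ⟨f 1, u 1, Or.inr ⟨rfl, rfl⟩, r5,
        fun h' => huf 1 (iSx _ _ _ _ _ (h.trans h'.symm))⟩
    · exact ⟨u 1, f 1, Or.inl ⟨rfl, rfl⟩, r4, h⟩
  obtain ⟨s1, s2, s3⟩ := hI1 _ _ _ p1
  obtain ⟨s4, s5, s6⟩ := hI1 _ _ _ r1
  obtain ⟨t1, t2, t3⟩ := hI1 _ _ _ r3
  obtain ⟨t4, t5, t6⟩ := hI1 _ _ _ r6
  refine ⟨_, ?_, card_le_six, step_core' hT huf hD ha s1 s4 hb t1 t4 s2 s5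
    (fun h => r2 (by rw [← s6, ← h, s3])) t2 t5 (fun h => r7 (by rw [← t6, ← h, t3])) hz hx
    (by rw [s3]; exact hX _ _ _ _) (by rw [t3]; exact hS _ _) (by rw [s6]; exact hX _ _ _ _)
    (by rw [t6]; exact hS _ _)⟩
  intro c hc
  simp only [mem_insert, mem_singleton] at hc
  rcases hc with rfl | rfl | rfl | rfl | rfl | rfl <;> assumption

end Pool.Agent.Lib.MP_356f68_co.Cube
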