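import Mathlib
import Pool.Agent.Shared.FunProb
import Pool.Agent.Lib.MP_356f68_co.Cube.Step

/-! A small random reservoir in which any two uncovered tuples can be merged. -/

set_option autoImplicit false
set_option linter.unusedSectionVars false

namespace Pool.Agent.Lib.MP_356f68_co.Cube

open Finset

lemma greedy {ε C : Type} [DecidableEq ε] [DecidableEq C] (s : Finset ε)
    (Pr : ε → Finset C → Prop) (B0 : Finset C) (w β : ℕ)
    (h : ∀ e ∈ s, ∀ B, B0 ⊆ B → B.card ≤ β → ∃ W, W.card ≤ w ∧ Disjoint W B ∧ Pr e W)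
    (hβ : B0.card + w * s.card ≤ β) :
    ∃ W : ε → Finset C, (∀ e ∈ s, (W e).card ≤ w ∧ Disjoint (W e) B0 ∧ Pr e (W e)) ∧
      ∀ e ∈ s, ∀ e' ∈ s, e ≠ e' → Disjoint (W e) (W e') := by
  induction s using Finset.induction_on with
  | empty => exact ⟨fun _ => ∅, by simp, by simp⟩
  | insert e s he ih =>
    rw [card_insert_of_notMem he, mul_add] at hβ
    obtain ⟨W, h1, h2⟩ := ih (fun e he => h e (mem_insert_of_mem he)) (by omega)
    obtain ⟨W0, g1, g2, g3⟩ := h e (mem_insert_self _ _) (B0 ∪ s.biUnion W) subset_union_left (by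
      have := card_biUnion_le_card_mul s W w (fun e he => (h1 e he).1)
      have := card_union_le B0 (s.biUnion W)
      rw [mul_comm] at hβ
      omega)
    have hne : ∀ x ∈ s, x ≠ e := fun x hx h => he (h ▸ hx)
    have g4 : ∀ x ∈ s, Disjoint W0 (W x) := fun x hx =>
      g2.mono_right ((subset_biUnion_of_mem W hx).trans subset_union_right)
    refine ⟨Function.update W e W0, ?_, ?_⟩
    · intro x hx
      rcases mem_insert.1 hx with rfl | hx
      · rw [Function.update_self]; exact ⟨g1, g2.mono_right subset_union_left, g3⟩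
      · rw [Function.update_of_ne (hne x hx)]; exact h1 x hx
    · intro x hx y hy hxy
      rcases mem_insert.1 hx with hx | hx <;> rcases mem_insert.1 hy with hy | hy
      · exact absurd (hx.trans hy.symm) hxy
      · rw [hx, Function.update_self, Function.update_of_ne (hne y hy)]; exact g4 y hy
      · rw [hy, Function.update_self, Function.update_of_ne (hne x hx)]; exact (g4 x hx).symm
      · rw [Function.update_of_ne (hne x hx), Function.update_of_ne (hne y hy)]
        exact h2 x hx y hy hxy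

variable {α : Type} [Fintype α] [DecidableEq α] {ι : Type} [DecidableEq ι]

/-- the reservoir property -/
def Res (E : (Fin 5 → α) → Prop) (T : ι → Fin 5 → α) (J : Finset ι) (G : ℕ) : Prop :=
  ∀ u f : Fin 5 → α, (∀ j, u j ≠ f j) → ∀ Us : Finset ι, Us.card < G →
    ∃ K ⊆ J, K.card ≤ 6 ∧ Disjoint K Us ∧ Conf E T (col u ∪ col f) K

variable {E : (Fin 5 → α) → Prop} {T : ι → Fin 5 → α}

lemma many_conf [Fintype ι] (hE : Lat E) (hT : ∀ j, Function.Injective (fun a => T a j))
    (hm : 19 * Fintype.card α ≤ 20 * Fintype.card ι) (G M : ℕ)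
    (hG : 120 * (G * M) + 218 < Fintype.card α) (u f : Fin 5 → α) :
    ∃ K : Fin G × Fin M → Finset ι, (∀ e, (K e).card ≤ 6 ∧
      ((∀ j, u j ≠ f j) → Conf E T (col u ∪ col f) (K e))) ∧
      ∀ e e', e ≠ e' → Disjoint (K e) (K e') := by
  by_cases huf : ∀ j, u j ≠ f j
  swap
  · exact ⟨fun _ => ∅, fun _ => ⟨by simp, fun h => absurd h huf⟩, by simp⟩
  set B0 : Finset ι := univ.biUnion (fun j => univ.filter (fun a => T a j = u j) ∪
    univ.filter (fun a => T a j = f j)) with hB0
  have h1 : ∀ j y, (univ.filter (fun a => T a j = y)).card ≤ 1 := fun j y =>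
    card_le_one.2 fun a ha b hb => hT j ((mem_filter.1 ha).2.trans (mem_filter.1 hb).2.symm)
  have h2 : B0.card ≤ 10 := by
    have := card_biUnion_le_card_mul (univ : Finset (Fin 5)) (fun j =>
      univ.filter (fun a => T a j = u j) ∪ univ.filter (fun a => T a j = f j)) 2
      (fun j _ => (card_union_le _ _).trans (Nat.add_le_add (h1 _ _) (h1 _ _)))
    simpa using this
  obtain ⟨K, h3, h4⟩ := greedy (univ : Finset (Fin G × Fin M))
    (fun _ K => Conf E T (col u ∪ col f) K) B0 6 (10 + 6 * (G * M)) (by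
      intro _ _ B hB1 hB2
      obtain ⟨K, g1, g2, g3⟩ := step hE hT (D := univ \ B) huf (by
        intro a ha j
        have : a ∉ B0 := fun h => (mem_sdiff.1 ha).2 (hB1 h)
        simp only [hB0, mem_biUnion, mem_univ, true_and, mem_union, mem_filter, not_exists,
          not_or] at this
        exact this j) (by
        rw [card_univ_sdiff]
        omega)
      exact ⟨K, g2, sdiff_disjoint.mono_left g1, g3⟩) (by simp; omega)
  exact ⟨K, fun e => ⟨(h3 e (mem_univ _)).1, fun _ => (h3 e (mem_univ _)).2.2⟩,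
    fun e e' => h4 e (mem_univ _) e' (mem_univ _)⟩

open Pool.Agent.Shared.FunProb in
theorem exists_res [Fintype ι] (hE : Lat E) (hT : ∀ j, Function.Injective (fun a => T a j))
    (hm : 19 * Fintype.card α ≤ 20 * Fintype.card ι) (G M k l : ℕ) (hk : 1 ≤ k) (hl1 : 1 ≤ l)
    (hkn : k ≤ Fintype.card α) (hl : Fintype.card α < 2 ^ l) (hM : M = 12 * l * k ^ 6)
    (hG : 120 * (G * M) + 218 < Fintype.card α) :
    ∃ J : Finset ι, k * J.card ≤ Fintype.card ι ∧ Res E T J G := by
  choose K hK1 hK2 using many_conf hE hT hm G M hG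
  have : Nonempty (Fin k) := ⟨⟨0, hk⟩⟩
  have hk' : (1 : ℝ) ≤ k := by exact_mod_cast hk
  have hk1 : 1 / (k : ℝ) ≤ 1 := by rw [div_le_one (by linarith)]; exact hk'
  obtain ⟨φ, hφ⟩ := exists_all_succeed (P := ι) (F := Fin k)
    (ρ := (Fin 5 → α) × (Fin 5 → α) × Fin G × Fin k) (ι := Fin M) (fun _ => univ)
    (fun r i φ => ∀ a ∈ K r.1 r.2.1 (r.2.2.1, i), φ a = r.2.2.2)
    (fun r i => K r.1 r.2.1 (r.2.2.1, i)) ((1 / k) ^ 6) M (pow_le_one₀ (by positivity) hk1)
    (by positivity) (fun r i _ f g hfg h a ha => (hfg a ha) ▸ h a ha)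
    (fun r i _ j _ hij => hK2 _ _ _ _ (fun h => hij (Prod.ext_iff.1 h).2))
    (fun r i _ => by
      rw [pr_forall _ (fun a (φ : ι → Fin k) => φ a = r.2.2.2) (fun a => {a})
        (fun a _ f g hfg h => (hfg a (mem_singleton_self a)).symm.trans h)
        (fun a _ b _ hab => disjoint_singleton.2 hab)]
      simp only [pr_coord, prod_const, Fintype.card_fin]
      exact pow_le_pow_of_le_one (by positivity) hk1 (hK1 _ _ _).1)
    (by simp) (by
      set n := Fintype.card α with hn
      have hM1 : 1 ≤ M := by rw [hM]; exact Nat.mul_pos (by omega) (by positivity)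
      have hGn : G ≤ n := by nlinarith
      have h1 : Fintype.card ((Fin 5 → α) × (Fin 5 → α) × Fin G × Fin k) ≤ n ^ 12 := by
        simp only [Fintype.card_prod, Fintype.card_fun, Fintype.card_fin, ← hn]
        calc _ ≤ n ^ 5 * (n ^ 5 * (n * n)) := by gcongr
          _ = _ := by ring
      have h2 : (1 - (1 / k : ℝ) ^ 6) ^ M ≤ Real.exp (-(1 / k : ℝ) ^ 6) ^ M :=
        pow_le_pow_left₀ (by linarith [pow_le_one₀ (n := 6) (by positivity) hk1])
          (by linarith [Real.add_one_le_exp (-(1 / k : ℝ) ^ 6)]) M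
      have h3 : Real.exp (-(1 / k : ℝ) ^ 6) ^ M = (Real.exp 1 ^ (12 * l))⁻¹ := by
        rw [← Real.exp_nat_mul, ← Real.exp_nat_mul, ← Real.exp_neg, hM]
        congr 1; push_cast; field_simp
      have h4 : ((n : ℝ)) ^ 12 < Real.exp 1 ^ (12 * l) := by
        rw [mul_comm, pow_mul]
        refine pow_lt_pow_left₀ ?_ (by positivity) (by norm_num)
        calc (n : ℝ) < 2 ^ l := by exact_mod_cast hl
          _ ≤ _ := pow_le_pow_left₀ (by norm_num) (by linarith [Real.add_one_le_exp 1]) l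
      have h5 : (Fintype.card ((Fin 5 → α) × (Fin 5 → α) × Fin G × Fin k) : ℝ) ≤ n ^ 12 := by
        exact_mod_cast h1
      rw [h3] at h2
      calc _ ≤ (n : ℝ) ^ 12 * (Real.exp 1 ^ (12 * l))⁻¹ :=
            mul_le_mul h5 h2 (pow_nonneg (by linarith [pow_le_one₀ (n := 6) (by positivity) hk1]) _)
              (by positivity)
        _ < 1 := by rw [← div_eq_mul_inv, div_lt_one (by positivity)]; exact h4)
  obtain ⟨c, -, hc⟩ : ∃ c ∈ (univ : Finset (Fin k)),
      k * (univ.filter (fun a => φ a = c)).card ≤ Fintype.card ι := by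
    apply exists_le_of_sum_le univ_nonempty
    rw [← mul_sum, ← card_eq_sum_card_fiberwise (fun _ _ => mem_univ _)]
    simp
  refine ⟨_, hc, fun u f huf Us hUs => ?_⟩
  choose i _ hi using fun g : Fin G => hφ (u, f, g, c)
  by_contra hne
  push Not at hne
  have h1 : ∀ g : Fin G, ∃ a, a ∈ K u f (g, i g) ∧ a ∈ Us := by
    intro g
    by_contra h
    push Not at h
    exact hne _ (fun a ha => mem_filter.2 ⟨mem_univ _, hi g a ha⟩) (hK1 _ _ _).1
      (disjoint_left.2 h) ((hK1 _ _ _).2 huf)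
  choose a ha1 ha2 using h1
  have h2 := card_le_card_of_injOn (s := univ) a (fun g _ => ha2 g) (fun g _ g' _ h => by
    by_contra hg
    exact disjoint_left.1 (hK2 u f (g, i g) (g', i g') fun h => hg (Prod.ext_iff.1 h).1) (ha1 g)
      (h ▸ ha1 g'))
  simp at h2
  omega

/-- vertices of the tuples of a family -/
def CC (T : ι → Fin 5 → α) (K : Finset ι) : Finset (Col α) := K.biUnion (fun a => col (T a))

lemma mem_CC {K : Finset ι} {b : Col α} : b ∈ CC T K ↔ ∃ a ∈ K, T a b.1 = b.2 := by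
  simp only [CC, mem_biUnion, mem_col]

lemma sub_CC {A B K : Finset ι} (hA : A ⊆ K) (hB : B ⊆ K) : CP T A ∪ CQ T B ⊆ CC T K := by
  intro b hb
  rw [mem_CC]
  rcases mem_union.1 hb with h | h
  · obtain ⟨-, a, h1, h2⟩ := mem_CP.1 h; exact ⟨a, hA h1, h2⟩
  · obtain ⟨-, a, h1, h2⟩ := mem_CQ.1 h; exact ⟨a, hB h1, h2⟩

lemma disj_CC (hT : ∀ j, Function.Injective (fun a => T a j)) {K K' : Finset ι}
    (h : Disjoint K K') : Disjoint (CC T K) (CC T K') := by
  rw [disjoint_left]
  intro b h1 h2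
  obtain ⟨a, h3, h4⟩ := mem_CC.1 h1
  obtain ⟨a', h5, h6⟩ := mem_CC.1 h2
  exact disjoint_left.1 h h3 (hT _ (h4.trans h6.symm) ▸ h5)

lemma glue {S X F' F : Finset (Col α)} (hd : Disjoint S X) (h1 : F' ⊆ S) (h2 : F ⊆ F' ∪ X)
    (h3 : PM E (S \ F')) (h4 : PM E ((F' ∪ X) \ F)) : F ⊆ S ∪ X ∧ PM E ((S ∪ X) \ F) := by
  refine ⟨h2.trans (union_subset_union_left h1), ?_⟩
  have e : (S ∪ X) \ F = (S \ F') ∪ ((F' ∪ X) \ F) := by
    ext b
    have g1 := @h1 b
    have g2 := @h2 b
    have g3 : b ∈ S → b ∉ X := fun h => disjoint_left.1 hd h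
    simp only [mem_sdiff, mem_union] at g2 ⊢
    tauto
  rw [e]
  refine h3.union h4 (Disjoint.mono_right sdiff_subset ?_)
  exact disjoint_union_right.2 ⟨sdiff_disjoint, hd.mono_left sdiff_subset⟩

theorem merge (hT : ∀ j, Function.Injective (fun a => T a j)) {J : Finset ι} {G : ℕ}
    (hJ : Res E T J G) (r : ℕ) (hr : 6 * r ≤ G) (L : Finset (Col α)) (hL : Bal L (r + 1))
    (hd : Disjoint L (CC T J)) : ∃ K ⊆ J, K.card ≤ 6 * r ∧ Conf E T L K := by
  induction r generalizing L with
  | zero =>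
    obtain ⟨g, hg⟩ := hL.exists_tuple
    have : col g = L := eq_of_subset_of_card_le hg (by rw [hL.card, card_col])
    refine ⟨∅, by simp, by simp, ∅, by simp, ∅, by simp, rfl, g, ?_⟩
    simp [CP, CQ, this, PM.empty]
  | succ r ih =>
    obtain ⟨u, hu⟩ := hL.exists_tuple
    obtain ⟨K, h1, h2, A, hA, B, hB, hAB, f, h3, h4⟩ := ih (by omega) (L \ col u)
      (hL.sdiff (bal_col u) hu) (hd.mono_left sdiff_subset)
    have h5 : CP T A ∪ CQ T B ⊆ CC T J := sub_CC (hA.trans h1) (hB.trans h1)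
    have h6 : Disjoint (L \ col u ∪ (CP T A ∪ CQ T B)) (col u) :=
      disjoint_union_left.2 ⟨sdiff_disjoint, (hd.mono hu h5).symm⟩
    obtain ⟨K1, g1, g2, g3, A1, hA1, B1, hB1, hAB1, f1, g4, g5⟩ := hJ u f
      (disjoint_col.1 (h6.mono_left h3).symm) K (by omega)
    have e1 : col u ∪ col f ∪ (CP T A1 ∪ CQ T B1) = col f ∪ (col u ∪ (CP T A1 ∪ CQ T B1)) := by
      rw [union_comm (col u), union_assoc]
    rw [e1] at g4 g5
    have g6 := glue (disjoint_union_right.2 ⟨h6, disjoint_union_left.2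
      ⟨hd.mono sdiff_subset (sub_CC (hA1.trans g1) (hB1.trans g1)),
        (disj_CC hT g3.symm).mono (sub_CC hA hB) (sub_CC hA1 hB1)⟩⟩) h3 g4 h4 g5
    refine ⟨K ∪ K1, union_subset h1 g1, (card_union_le _ _).trans (by omega), A ∪ A1,
      union_subset_union hA hA1, B ∪ B1, union_subset_union hB hB1, ?_, f1, ?_⟩
    · rw [card_union_of_disjoint (g3.symm.mono hA hA1),
        card_union_of_disjoint (g3.symm.mono hB hB1), hAB, hAB1]
    · have e2 : L ∪ (CP T (A ∪ A1) ∪ CQ T (B ∪ B1)) = L \ col u ∪ (CP T A ∪ CQ T B) ∪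
          (col u ∪ (CP T A1 ∪ CQ T B1)) := by
        ext b
        have := @hu b
        simp only [CP, CQ, union_biUnion, mem_union, mem_sdiff]
        tauto
      rw [e2]
      exact g6

end Pool.Agent.Lib.MP_356f68_co.Cube
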