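import Mathlib

/-! A sparse bipartite template with perfect matchings after deleting any balanced part of the
reservoir. -/

set_option autoImplicit false
set_option linter.unusedSectionVars false

namespace Pool.Agent.Lib.MP_356f68_co.Cube

open Finset

lemma concentrate (m L : ℕ) (hm : m ≤ 2 ^ L) (S : Finset ℕ) (hS : S ⊆ range m) :
    ∃ q : ℕ → ℕ → ℕ, (∀ l, StrictMono (q l)) ∧ (∀ l, ∀ j < S.card, q l j < m) ∧
      (∀ j < S.card, q 0 j ∈ S) ∧ (∀ v ∈ S, ∃ j < S.card, q 0 j = v) ∧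
      (∀ j < S.card, q L j = j) ∧ ∀ l j, q l j = q (l + 1) j ∨ q l j = q (l + 1) j + 2 ^ l := by
  classical
  set p : ℕ → Prop := fun v => v ∈ S ∨ m ≤ v with hp
  have hinf : {v | p v}.Infinite :=
    (Set.Ici_infinite m).mono fun v hv => Or.inr hv
  have hc : Nat.count p m = S.card := by
    rw [Nat.count_eq_card_filter_range]
    congr 1
    ext v
    have := @hS v
    simp only [mem_filter, mem_range, hp] at this ⊢
    constructor
    · rintro ⟨h1, h2 | h2⟩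
      · exact h2
      · omega
    · intro h; exact ⟨this h, Or.inl h⟩
  set a := Nat.nth p with ha
  have h1 : StrictMono a := Nat.nth_strictMono hinf
  have h2 : ∀ j < S.card, a j < m := fun j hj => Nat.nth_lt_of_lt_count (hc ▸ hj)
  have h3 : ∀ j, j ≤ a j := fun j => h1.le_apply
  have h4 : ∀ j j', j < j' → a j - j ≤ a j' - j' := by
    intro j j' h
    have := h1.add_le_nat (j' - j) j
    rw [show j' - j + j = j' by omega] at this
    omega
  have h5 : ∀ l j, j + 2 ^ l * ((a j - j) / 2 ^ l) ≤ a j := by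
    intro l j
    have := Nat.mul_div_le (a j - j) (2 ^ l)
    have := h3 j
    omega
  have h6 : ∀ j, j + 2 ^ 0 * ((a j - j) / 2 ^ 0) = a j := by
    intro j
    have := h3 j
    simp only [pow_zero, Nat.div_one, one_mul]
    omega
  refine ⟨fun l j => j + 2 ^ l * ((a j - j) / 2 ^ l), fun l j j' h => ?_,
    fun l j hj => (h5 l j).trans_lt (h2 j hj), fun j hj => ?_, fun v hv => ?_, fun j hj => ?_,
    fun l j => ?_⟩
  · exact Nat.add_lt_add_of_lt_of_le h (Nat.mul_le_mul_left _ (Nat.div_le_div_right (h4 j j' h)))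
  · simp only [h6]
    exact (Nat.nth_mem_of_infinite hinf j).resolve_right (not_le.2 (h2 j hj))
  · refine ⟨Nat.count p v, hc ▸ Nat.count_strict_mono (Or.inl hv) (mem_range.1 (hS hv)), ?_⟩
    simp only [h6]
    exact Nat.nth_count (Or.inl hv)
  · have := h2 j hj
    simp only [Nat.div_eq_of_lt (show a j - j < 2 ^ L by omega), mul_zero, add_zero]
  · simp only [pow_succ, ← Nat.div_div_eq_div_mul, mul_assoc]
    generalize (a j - j) / 2 ^ l = x
    rcases Nat.even_or_odd' x with ⟨y, rfl | rfl⟩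
    · left; rw [Nat.mul_div_cancel_left _ (by norm_num)]
    · right; rw [show (2 * y + 1) / 2 = y by omega]; ring

lemma template0 (m L : ℕ) (hL : 1 ≤ L) (hm : m ≤ 2 ^ L) :
    ∃ Ed : Finset ((ℕ × ℕ) × (ℕ × ℕ)), Ed.card ≤ 8 * L * m ∧
      (∀ e ∈ Ed, e.1 ∈ range (2 * L) ×ˢ range m ∧ e.2 ∈ range (2 * L) ×ˢ range m) ∧
      ∀ A B : Finset (ℕ × ℕ), (∀ x ∈ A, x.1 = 0) → (∀ x ∈ B, x.1 = 0) →
        ((range m).filter (fun v => (0, v) ∉ A)).card
          = ((range m).filter (fun v => (0, v) ∉ B)).card →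
        ∃ σ : ℕ × ℕ → ℕ × ℕ, (∀ x ∈ (range (2 * L) ×ˢ range m) \ A, σ x ∉ B ∧ (x, σ x) ∈ Ed) ∧
          Set.InjOn σ ((range (2 * L) ×ˢ range m) \ A : Finset _) := by
  classical
  set Nd := range (2 * L) ×ˢ range m with hNd
  set nx : ℕ → ℕ := fun l => if l + 1 = 2 * L then 0 else l + 1 with hnx
  set tg : ℕ × ℕ → Finset (ℕ × ℕ) := fun x => {x, (nx x.1, x.2), (nx x.1, x.2 - 2 ^ x.1),
    (nx x.1, x.2 + 2 ^ (2 * L - 1 - x.1))} with htg
  refine ⟨(Nd.biUnion (fun x => (tg x).image (fun y => (x, y)))).filter (fun e => e.2 ∈ Nd),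
    ?_, ?_, ?_⟩
  · refine (card_filter_le _ _).trans ((card_biUnion_le_card_mul _ _ 4
      fun x _ => card_image_le.trans card_le_four).trans ?_)
    rw [hNd, card_product, card_range, card_range]
    exact le_of_eq (by ring)
  · intro e he
    obtain ⟨h1, h2⟩ := mem_filter.1 he
    obtain ⟨x, hx, h3⟩ := mem_biUnion.1 h1
    obtain ⟨y, -, rfl⟩ := mem_image.1 h3
    exact ⟨hx, h2⟩
  intro A B hA hB hAB
  obtain ⟨qa, a1, a2, -, a4, a5, a6⟩ := concentrate m L hm _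
    (filter_subset (fun v => (0, v) ∉ A) (range m))
  obtain ⟨qb, b1, b2, b3, -, b5, b6⟩ := concentrate m L hm _
    (filter_subset (fun v => (0, v) ∉ B) (range m))
  rw [← hAB] at b2 b3 b5
  set k := ((range m).filter (fun v => (0, v) ∉ A)).card
  set Q : ℕ → ℕ → ℕ := fun l j => if l ≤ L then qa l j else qb (2 * L - l) j with hQ
  have c1 : ∀ l j j', Q l j = Q l j' → j = j' := by
    intro l j j' h
    simp only [hQ] at h
    split_ifs at h
    · exact (a1 _).injective h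
    · exact (b1 _).injective h
  have c2 : ∀ l, ∀ j < k, Q l j < m := by
    intro l j hj
    simp only [hQ]
    split_ifs
    · exact a2 _ j hj
    · exact b2 _ j hj
  have c3 : ∀ x ∈ Nd \ A, x.1 = 0 → ∃ j < k, Q x.1 j = x.2 := by
    rintro ⟨l, v⟩ hx rfl
    obtain ⟨h1, h2⟩ := mem_sdiff.1 hx
    simpa [hQ] using a4 v (mem_filter.2 ⟨(mem_product.1 h1).2, h2⟩)
  have c4 : ∀ l < 2 * L, ∀ j < k, (nx l, Q (l + 1) j) ∈ tg (l, Q l j) := by
    intro l hl j hj
    simp only [htg, mem_insert, mem_singleton, Prod.mk.injEq, true_and]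
    right
    by_cases h : l + 1 ≤ L
    · simp only [hQ, if_pos h, if_pos (show l ≤ L by omega)]
      rcases a6 l j with h1 | h1 <;> omega
    · have h2 : Q l j = qb (2 * L - 1 - l + 1) j := by
        simp only [hQ]
        split_ifs with h3
        · rw [show l = L by omega, show 2 * L - 1 - L + 1 = L by omega, a5 j hj, b5 j hj]
        · congr 1; omega
      have h3 : Q (l + 1) j = qb (2 * L - 1 - l) j := by
        simp only [hQ, if_neg h]; congr 1; omega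
      rw [h2, h3]
      rcases b6 (2 * L - 1 - l) j with h1 | h1 <;> omega
  have c5 : ∀ x : ℕ × ℕ, ∃ y : ℕ × ℕ, (∃ j < k, Q x.1 j = x.2 ∧ y = (nx x.1, Q (x.1 + 1) j)) ∨
      ((∀ j < k, Q x.1 j ≠ x.2) ∧ y = x) := by
    intro x
    by_cases h : ∃ j < k, Q x.1 j = x.2
    · obtain ⟨j, h1, h2⟩ := h
      exact ⟨_, Or.inl ⟨j, h1, h2, rfl⟩⟩
    · push Not at h
      exact ⟨_, Or.inr ⟨h, rfl⟩⟩
  choose σ hσ using c5
  have c6 : ∀ x ∈ Nd \ A, x.1 < 2 * L := fun x hx =>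
    mem_range.1 (mem_product.1 (mem_sdiff.1 hx).1).1
  refine ⟨σ, fun x hx => ?_, fun x hx y hy hxy => ?_⟩
  · have hx1 := c6 x hx
    rcases hσ x with ⟨j, h1, h2, h3⟩ | ⟨h1, h2⟩
    · rw [h3]
      refine ⟨fun h => ?_, mem_filter.2 ⟨mem_biUnion.2 ⟨x, (mem_sdiff.1 hx).1,
        mem_image.2 ⟨_, ?_, rfl⟩⟩, mem_product.2 ⟨mem_range.2 ?_, mem_range.2 (c2 _ j h1)⟩⟩⟩
      · have h4 := hB _ h
        simp only [hnx] at h4 h
        split_ifs at h4 h with h5
        simp only [hQ, h5, if_neg (show ¬ 2 * L ≤ L by omega), Nat.sub_self] at h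
        exact (mem_filter.1 (b3 j h1)).2 h
      · have := c4 x.1 hx1 j h1
        rwa [h2] at this
      · simp only [hnx]; split_ifs <;> omega
    · rw [h2]
      refine ⟨fun h => ?_, mem_filter.2 ⟨mem_biUnion.2 ⟨x, (mem_sdiff.1 hx).1,
        mem_image.2 ⟨_, mem_insert_self _ _, rfl⟩⟩, (mem_sdiff.1 hx).1⟩⟩
      obtain ⟨j, h3, h4⟩ := c3 x hx (hB x h)
      exact h1 j h3 h4
  · have key : ∀ x ∈ Nd \ A, ∀ y ∈ Nd \ A, ∀ j < k, (nx x.1, Q (x.1 + 1) j) = y →
        ∃ j < k, Q y.1 j = y.2 := by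
      intro x _ y hy j hj h
      by_cases h1 : x.1 + 1 = 2 * L
      · exact c3 y hy (by rw [← h]; exact if_pos h1)
      · refine ⟨j, hj, ?_⟩
        rw [← h]
        simp only [hnx, if_neg h1]
    have hx1 := c6 x hx
    have hy1 := c6 y hy
    rcases hσ x with ⟨j, h1, h2, h3⟩ | ⟨h1, h2⟩ <;> rcases hσ y with ⟨j', g1, g2, g3⟩ | ⟨g1, g2⟩
    · rw [h3, g3, Prod.mk.injEq] at hxy
      have h4 : x.1 = y.1 := by
        have := hxy.1
        simp only [hnx] at this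
        split_ifs at this <;> omega
      have h5 := hxy.2
      rw [h4] at h5
      exact Prod.ext h4 (by rw [← h2, ← g2, h4, c1 _ _ _ h5])
    · obtain ⟨i, h4, h5⟩ := key x hx y hy j h1 (by rw [← h3, hxy, g2])
      exact absurd h5 (g1 i h4)
    · obtain ⟨i, h4, h5⟩ := key y hy x hx j' g1 (by rw [← g3, ← hxy, h2])
      exact absurd h5 (h1 i h4)
    · rw [← h2, hxy, g2]

theorem template {ι : Type} [Fintype ι] [DecidableEq ι] [Nonempty ι] (J : Finset ι) (L : ℕ)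
    (hL : 1 ≤ L) (hJ : J.card ≤ 2 ^ L) (hm : 2 * L * J.card ≤ Fintype.card ι) :
    ∃ (Nd : Finset ι) (Ed : Finset (ι × ι)), J ⊆ Nd ∧ Nd.card ≤ 2 * L * J.card ∧
      Ed.card ≤ 8 * L * J.card ∧ (∀ e ∈ Ed, e.1 ∈ Nd ∧ e.2 ∈ Nd) ∧
      ∀ A ⊆ J, ∀ B ⊆ J, A.card = B.card → ∃ Mt ⊆ Ed, Mt.image Prod.fst = Nd \ A ∧
        Mt.image Prod.snd = Nd \ B ∧ ∀ e ∈ Mt, ∀ e' ∈ Mt, e ≠ e' → e.1 ≠ e'.1 ∧ e.2 ≠ e'.2 := by
  classical
  set m := J.card with hm'
  set N0 := range (2 * L) ×ˢ range m with hN0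
  have hN0c : N0.card = 2 * L * m := by rw [hN0, card_product, card_range, card_range]
  obtain ⟨t, ht1, -, ht2⟩ := exists_subsuperset_card_eq (n := 2 * L * m) (subset_univ J)
    (Nat.le_mul_of_pos_left _ (by omega)) hm
  obtain ⟨g, hg⟩ := exists_equiv_extend_of_card_eq (α := N0) (t := t) (by simp [hN0c, ht2])
    (s := univ.filter (fun x => x.1.1 = 0))
    (f := fun x => (J.equivFin.symm ⟨x.1.2, mem_range.1 (mem_product.1 x.2).2⟩ : ι))
    (fun a ha => by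
      obtain ⟨x, -, rfl⟩ := mem_image.1 ha
      exact ht1 (coe_mem _))
    (fun x hx y hy h => by
      have h1 := Fin.mk.inj (J.equivFin.symm.injective (Subtype.ext h))
      exact Subtype.ext (Prod.ext ((mem_filter.1 hx).2.trans (mem_filter.1 hy).2.symm) h1))
  set φ : ℕ × ℕ → ι := fun x => if h : x ∈ N0 then g ⟨x, h⟩ else Classical.arbitrary ι with hφ
  have p1 : Set.InjOn φ N0 := by
    intro x hx y hy h
    simp only [hφ, dif_pos (mem_coe.1 hx), dif_pos (mem_coe.1 hy)] at h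
    exact Subtype.ext_iff.1 (g.injective (Subtype.ext h))
  have p2 : ∀ a ∈ J, ∃ x ∈ N0, x.1 = 0 ∧ φ x = a := by
    intro a ha
    have h1 : ((0, (J.equivFin ⟨a, ha⟩ : ℕ)) : ℕ × ℕ) ∈ N0 :=
      mem_product.2 ⟨mem_range.2 (by omega), mem_range.2 (Fin.is_lt _)⟩
    refine ⟨_, h1, rfl, ?_⟩
    simp only [hφ, dif_pos h1]
    rw [hg _ (mem_filter.2 ⟨mem_univ _, rfl⟩)]
    simp
  have p3 : ∀ A ⊆ J, (∀ x ∈ N0.filter (fun x => φ x ∈ A), x.1 = 0) ∧
      (N0 \ N0.filter (fun x => φ x ∈ A)).image φ = N0.image φ \ A ∧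
      ((range m).filter (fun v => (0, v) ∉ N0.filter (fun x => φ x ∈ A))).card + A.card = m := by
    intro A hA
    have h1 : ∀ x ∈ N0.filter (fun x => φ x ∈ A), x.1 = 0 := by
      intro x hx
      obtain ⟨h1, h2⟩ := mem_filter.1 hx
      obtain ⟨y, h3, h4, h5⟩ := p2 _ (hA h2)
      exact p1 h3 h1 h5 ▸ h4
    refine ⟨h1, ?_, ?_⟩
    · ext a
      simp only [mem_image, mem_sdiff, mem_filter]
      constructor
      · rintro ⟨x, ⟨h2, h3⟩, rfl⟩
        exact ⟨⟨x, h2, rfl⟩, fun h => h3 ⟨h2, h⟩⟩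
      · rintro ⟨⟨x, h2, rfl⟩, h3⟩
        exact ⟨x, ⟨h2, fun h => h3 h.2⟩, rfl⟩
    · have h2 : ((range m).filter (fun v => (0, v) ∈ N0.filter (fun x => φ x ∈ A))).card
          = A.card := by
        refine card_bij (fun v _ => φ (0, v)) (fun v hv => (mem_filter.1 (mem_filter.1 hv).2).2)
          (fun v hv w hw h => (Prod.ext_iff.1 (p1 (mem_filter.1 (mem_filter.1 hv).2).1
            (mem_filter.1 (mem_filter.1 hw).2).1 h)).2) (fun a ha => ?_)
        obtain ⟨⟨l, v⟩, h3, rfl, h5⟩ := p2 a (hA ha)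
        exact ⟨v, mem_filter.2 ⟨(mem_product.1 h3).2, mem_filter.2 ⟨h3, h5 ▸ ha⟩⟩, h5⟩
      rw [← h2, add_comm, card_filter_add_card_filter_not, card_range]
  obtain ⟨Ed, e1, e2, e3⟩ := template0 m L hL hJ
  refine ⟨N0.image φ, Ed.image (Prod.map φ φ), fun a ha => ?_, card_image_le.trans hN0c.le,
    card_image_le.trans e1, fun e he => ?_, fun A hA B hB hAB => ?_⟩
  · obtain ⟨x, h1, -, h2⟩ := p2 a ha
    exact mem_image.2 ⟨x, h1, h2⟩
  · obtain ⟨x, hx, rfl⟩ := mem_image.1 he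
    exact ⟨mem_image_of_mem _ (e2 x hx).1, mem_image_of_mem _ (e2 x hx).2⟩
  obtain ⟨a1, a2, a3⟩ := p3 A hA
  obtain ⟨b1, b2, b3⟩ := p3 B hB
  obtain ⟨σ, h1, h2⟩ := e3 _ _ a1 b1 (by omega)
  set S := N0 \ N0.filter (fun x => φ x ∈ A) with hS
  have h3 : ∀ x ∈ S, σ x ∈ N0 := fun x hx => (e2 _ (h1 x hx).2).2
  have h4 : Set.InjOn (fun x => φ (σ x)) S := fun x hx y hy h =>
    h2 hx hy (p1 (h3 x hx) (h3 y hy) h)
  have h5 : Set.InjOn φ S := p1.mono (coe_subset.2 sdiff_subset)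
  have h6 : J ⊆ N0.image φ := fun a ha => by
    obtain ⟨x, h1, -, h2⟩ := p2 a ha
    exact mem_image.2 ⟨x, h1, h2⟩
  refine ⟨S.image (fun x => (φ x, φ (σ x))), fun e he => ?_, by rw [image_image, ← a2]; rfl,
    ?_, fun e he e' he' hne => ?_⟩
  · obtain ⟨x, hx, rfl⟩ := mem_image.1 he
    exact mem_image.2 ⟨_, (h1 x hx).2, rfl⟩
  · rw [image_image]
    refine eq_of_subset_of_card_le (fun a ha => ?_) ?_
    · obtain ⟨x, hx, rfl⟩ := mem_image.1 ha
      rw [← b2]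
      exact mem_image_of_mem _ (mem_sdiff.2 ⟨h3 x hx, (h1 x hx).1⟩)
    · rw [card_sdiff_of_subset (hB.trans h6), ← hAB, ← card_sdiff_of_subset (hA.trans h6), ← a2,
        card_image_of_injOn h5]
      exact (card_image_of_injOn h4).ge
  · obtain ⟨x, hx, rfl⟩ := mem_image.1 he
    obtain ⟨y, hy, rfl⟩ := mem_image.1 he'
    exact ⟨fun h => hne (h5 hx hy h ▸ rfl), fun h => hne (h4 hx hy h ▸ rfl)⟩

end Pool.Agent.Lib.MP_356f68_co.Cube
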