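import Mathlib
import Pool.Agent.Lib.MP_356f68_co.Cube.Reservoir
import Pool.Agent.Lib.MP_356f68_co.Cube.Template
import Pool.Agent.Lib.MP_356f68_co.Cube.Boost

/-! A matching that misses at most one vertex of each class. -/

set_option autoImplicit false
set_option linter.unusedSectionVars false

namespace Pool.Agent.Lib.MP_356f68_co.Cube

open Finset

variable {α : Type} [Fintype α] [DecidableEq α] {ι : Type} [DecidableEq ι]
  {E : (Fin 5 → α) → Prop} {T : ι → Fin 5 → α}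

lemma disj_PQ (hT : ∀ j, Function.Injective (fun a => T a j)) {A A' B B' : Finset ι}
    (hA : Disjoint A A') (hB : Disjoint B B') :
    Disjoint (CP T A ∪ CQ T B) (CP T A' ∪ CQ T B') := by
  rw [disjoint_left]
  intro b h1 h2
  simp only [mem_union, mem_CP, mem_CQ] at h1 h2
  rcases h1 with ⟨h1, a, h3, h4⟩ | ⟨h1, a, h3, h4⟩ <;>
    rcases h2 with ⟨h2, a', h5, h6⟩ | ⟨h2, a', h5, h6⟩
  · exact disjoint_left.1 hA h3 (hT _ (h4.trans h6.symm) ▸ h5)
  · omega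
  · omega
  · exact disjoint_left.1 hB h3 (hT _ (h4.trans h6.symm) ▸ h5)

lemma pq_eq (a b : ι) : pc (T a) ∪ qc (T b) = CP T {a} ∪ CQ T {b} := by simp [CP, CQ]

lemma absorb (hT : ∀ j, Function.Injective (fun a => T a j)) {Nd : Finset ι}
    {Ed Mt : Finset (ι × ι)} {W : ι × ι → Finset (Col α)} (hM : Mt ⊆ Ed)
    (h0 : ∀ e ∈ Ed, e.1 ∈ Nd ∧ e.2 ∈ Nd) (h1 : ∀ e ∈ Ed, Disjoint (W e) (CC T Nd) ∧ PM E (W e) ∧
      PM E (W e ∪ (pc (T e.1) ∪ qc (T e.2))))
    (h2 : ∀ e ∈ Ed, ∀ e' ∈ Ed, e ≠ e' → Disjoint (W e) (W e'))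
    (h3 : ∀ e ∈ Mt, ∀ e' ∈ Mt, e ≠ e' → e.1 ≠ e'.1 ∧ e.2 ≠ e'.2) :
    PM E (Ed.biUnion W ∪ (CP T (Mt.image Prod.fst) ∪ CQ T (Mt.image Prod.snd))) := by
  have h4 : ∀ e ∈ Ed, ∀ e' ∈ Ed, Disjoint (W e) (pc (T e'.1) ∪ qc (T e'.2)) := by
    intro e he e' he'
    rw [pq_eq]
    exact (h1 e he).1.mono_right
      (sub_CC (singleton_subset_iff.2 (h0 e' he').1) (singleton_subset_iff.2 (h0 e' he').2))
  have e : Ed.biUnion W ∪ (CP T (Mt.image Prod.fst) ∪ CQ T (Mt.image Prod.snd))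
      = (Ed \ Mt).biUnion W ∪ Mt.biUnion (fun e => W e ∪ (pc (T e.1) ∪ qc (T e.2))) := by
    rw [biUnion_union, biUnion_union, ← union_assoc ((Ed \ Mt).biUnion W), ← union_biUnion,
      sdiff_union_of_subset hM, CP, CQ, image_biUnion, image_biUnion]
  rw [e]
  refine (PM.biUnion _ _ (fun e he => (h1 e (mem_sdiff.1 he).1).2.1)
    fun e he e' he' => h2 e (mem_sdiff.1 he).1 e' (mem_sdiff.1 he').1).union
    (PM.biUnion _ _ (fun e he => (h1 e (hM he)).2.2) fun e he e' he' hne => ?_) ?_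
  · refine disjoint_union_left.2 ⟨disjoint_union_right.2 ⟨h2 e (hM he) e' (hM he') hne,
      h4 e (hM he) e' (hM he')⟩, disjoint_union_right.2 ⟨(h4 e' (hM he') e (hM he)).symm, ?_⟩⟩
    rw [pq_eq, pq_eq]
    exact disj_PQ hT (disjoint_singleton.2 (h3 e he e' he' hne).1)
      (disjoint_singleton.2 (h3 e he e' he' hne).2)
  · rw [disjoint_biUnion_left]
    intro e he
    rw [disjoint_biUnion_right]
    intro e' he'
    exact disjoint_union_right.2 ⟨h2 e (mem_sdiff.1 he).1 e' (hM he')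
      (fun h => (mem_sdiff.1 he).2 (h ▸ he')), h4 e (mem_sdiff.1 he).1 e' (hM he')⟩

theorem assemble [Fintype ι] [Nonempty ι] [Nonempty α] (hE : Lat E)
    (hT : ∀ j, Function.Injective (fun a => T a j)) {w β G L X : ℕ} (hA : Abs E T w β)
    {J : Finset ι} (hJ : Res E T J G) (hL : 1 ≤ L) (h1 : J.card ≤ 2 ^ L)
    (h2 : 2 * L * J.card ≤ Fintype.card ι) (h3 : 5 * (2 * L * J.card) + w * (8 * L * J.card) ≤ β)
    (h4 : 100 * β ≤ Fintype.card α) (hX : 1 ≤ X) (h5 : 10 ^ 17 * X ^ 15 ≤ Fintype.card α)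
    (h6 : ∀ r, r * X ≤ 6 * Fintype.card α → 6 * r ≤ G) :
    ∃ U, PM E U ∧ 5 * (Fintype.card α - 1) ≤ U.card := by
  obtain ⟨Nd, Ed, t1, t2, t3, t4, t5⟩ := template J L hL h1 h2
  have c1 : (CC T Nd).card ≤ 5 * (2 * L * J.card) := by
    have := card_biUnion_le_card_mul Nd (fun a => col (T a)) 5 (fun a _ => (card_col _).le)
    unfold CC; omega
  have c2 : w * Ed.card ≤ w * (8 * L * J.card) := Nat.mul_le_mul_left _ t3
  obtain ⟨W, w1, w2⟩ := greedy Ed
    (fun e W => PM E W ∧ PM E (W ∪ (pc (T e.1) ∪ qc (T e.2)))) (CC T Nd) w β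
    (fun e he B hB1 hB2 => hA e.1 e.2 B (by
      rw [pq_eq]
      exact (sub_CC (singleton_subset_iff.2 (t4 e he).1)
        (singleton_subset_iff.2 (t4 e he).2)).trans hB1) hB2) (by omega)
  have d1 : Disjoint (Ed.biUnion W) (CC T Nd) :=
    (disjoint_biUnion_left _ _ _).2 fun e he => (w1 e he).2.1
  obtain ⟨k, hk⟩ : ∃ k, Bal (Ed.biUnion W ∪ CC T Nd) k := by
    obtain ⟨k1, g1⟩ := (PM.biUnion Ed W (fun e he => (w1 e he).2.2.1) w2).bal
    have g2 := bal_biUnion_col (Nd.image T) (by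
      intro g hg g' hg' hne
      obtain ⟨a, -, rfl⟩ := mem_image.1 hg
      obtain ⟨a', -, rfl⟩ := mem_image.1 hg'
      exact disjoint_col.2 fun j h => hne (congrArg T (hT j h)))
    rw [image_biUnion] at g2
    exact ⟨_, g1.union g2 d1⟩
  set R := Ed.biUnion W ∪ CC T Nd with hR
  obtain ⟨Y, y1, r, y2, y3, y4⟩ := almost hE (R := R) (by
    have g1 := card_biUnion_le_card_mul Ed W w (fun e he => (w1 e he).1)
    have g2 := card_union_le (Ed.biUnion W) (CC T Nd)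
    rw [mul_comm] at g1
    rw [← hR] at g2
    omega) hk X hX h5
  set Lf := (univ \ R) \ Y with hLf
  have d2 : Disjoint Lf R := sdiff_disjoint.mono_left sdiff_subset
  obtain ⟨A, hA, B, hB, hAB, F, f1, f2⟩ : ∃ A ⊆ J, ∃ B ⊆ J, A.card = B.card ∧
      ∃ F : Finset (Col α), F.card ≤ 5 ∧ PM E ((Lf ∪ (CP T A ∪ CQ T B)) \ F) := by
    rcases r with _ | r
    · refine ⟨∅, by simp, ∅, by simp, rfl, ∅, by simp, ?_⟩
      rw [card_eq_zero.1 (y3.card.trans (mul_zero _))]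
      simp [CP, CQ, PM.empty]
    · obtain ⟨K, g1, -, A, hA, B, hB, hAB, f, -, g2⟩ := merge hT hJ r
        (by have := h6 _ y4; omega) Lf y3
        (d2.mono_right ((biUnion_subset_biUnion_of_subset_left _ t1).trans subset_union_right))
      exact ⟨A, hA.trans g1, B, hB.trans g1, hAB, col f, (card_col f).le, g2⟩
  obtain ⟨Mt, m1, m2, m3, m4⟩ := t5 A hA B hB hAB
  have p := absorb hT m1 t4 (fun e he => (w1 e he).2) w2 m4
  rw [m2, m3] at p
  have s1 : CP T A ∪ CQ T B ⊆ CC T Nd := sub_CC (hA.trans t1) (hB.trans t1)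
  have s2 : Ed.biUnion W ∪ (CP T (Nd \ A) ∪ CQ T (Nd \ B)) ⊆ R :=
    union_subset_union_right (sub_CC sdiff_subset sdiff_subset)
  have d3 : Disjoint Y R := sdiff_disjoint.mono_left y1
  refine ⟨_, y2.union (f2.union p (Disjoint.mono_left sdiff_subset (disjoint_union_left.2
    ⟨d2.mono_right s2, disjoint_union_right.2 ⟨(d1.mono_right s1).symm,
      disj_PQ hT disjoint_sdiff disjoint_sdiff⟩⟩))) (disjoint_union_right.2
    ⟨Disjoint.mono_right sdiff_subset (disjoint_union_right.2 ⟨disjoint_sdiff,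
      d3.mono_right (s1.trans subset_union_right)⟩), d3.mono_right s2⟩), ?_⟩
  refine le_trans ?_ (card_le_card (s := univ \ F) ?_)
  · rw [card_univ_sdiff, Fintype.card_prod, Fintype.card_fin]
    omega
  · intro b hb
    have hb' := (mem_sdiff.1 hb).2
    simp only [mem_union, mem_sdiff, hLf, hR, mem_univ, true_and, hb', not_false_eq_true, and_true,
      mem_CP, mem_CQ, mem_CC]
    by_cases g1 : ∃ a ∈ Nd, T a b.1 = b.2
    · obtain ⟨a, g2, g3⟩ := g1
      by_cases g4 : b.1.val < 3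
      · by_cases g5 : a ∈ A
        · exact Or.inr (Or.inl (Or.inr (Or.inl ⟨g4, a, g5, g3⟩)))
        · exact Or.inr (Or.inr (Or.inr (Or.inl ⟨g4, a, ⟨g2, g5⟩, g3⟩)))
      · by_cases g5 : a ∈ B
        · exact Or.inr (Or.inl (Or.inr (Or.inr ⟨by omega, a, g5, g3⟩)))
        · exact Or.inr (Or.inr (Or.inr (Or.inr ⟨by omega, a, ⟨g2, g5⟩, g3⟩)))
    · by_cases g2 : b ∈ Y
      · exact Or.inl g2
      by_cases g3 : b ∈ Ed.biUnion W
      · exact Or.inr (Or.inr (Or.inl g3))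
      · exact Or.inr (Or.inl (Or.inl ⟨fun h => h.elim g3 g1, g2⟩))

lemma polylog (C A : ℕ) : ∃ n0 : ℕ, ∀ n ≥ n0, C * (Nat.log 2 n + 1) ^ A ≤ n := by
  have h := tendsto_pow_const_div_const_pow_of_one_lt A (r := 2) (by norm_num)
  obtain ⟨l0, hl⟩ := Filter.eventually_atTop.1
    (h.eventually (gt_mem_nhds (show (0 : ℝ) < 1 / (2 * C + 1) by positivity)))
  refine ⟨2 ^ l0, fun n hn => ?_⟩
  have h1 : l0 ≤ Nat.log 2 n := Nat.le_log_of_pow_le (by norm_num) hn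
  have h2 := hl (Nat.log 2 n + 1) (by omega)
  rw [div_lt_div_iff₀ (by positivity) (by positivity), one_mul] at h2
  have h3 : (Nat.log 2 n + 1) ^ A * (2 * C + 1) < 2 ^ (Nat.log 2 n + 1) := by exact_mod_cast h2
  have h4 := Nat.pow_log_le_self 2 (x := n) (by have := Nat.two_pow_pos l0; omega)
  rw [pow_succ 2] at h3
  nlinarith [Nat.zero_le ((Nat.log 2 n + 1) ^ A)]

theorem near_large : ∃ n0 : ℕ, ∀ (α : Type) [Fintype α] [DecidableEq α], n0 ≤ Fintype.card α →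
    ∀ E : (Fin 5 → α) → Prop, Lat E → ∃ U, PM E U ∧ 5 * (Fintype.card α - 1) ≤ U.card := by
  obtain ⟨J, hJ⟩ : ∃ J : ℕ, 6400000 ≤ J := ⟨_, le_rfl⟩
  obtain ⟨c, hc⟩ : ∃ c : ℕ, c = 4 ^ (J ^ 2) := ⟨_, rfl⟩
  have hc1 : J ^ 2 ≤ c := hc ▸ (Nat.lt_pow_self (by norm_num)).le
  have hc2 : 4 ≤ c := by nlinarith
  obtain ⟨n0, hn0⟩ := polylog (10 ^ 17 * (8640 * 12 * 2120 ^ 6 * (2 * c) ^ 12) ^ 15) (19 * 15)
  refine ⟨n0, fun α _ _ hn E hE => ?_⟩
  have h0 := hn0 _ hn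
  set n := Fintype.card α with hn'
  obtain ⟨l, hl⟩ : ∃ l, l = Nat.log 2 n + 1 := ⟨_, rfl⟩
  have hl1 : 1 ≤ l := by omega
  have hl2 : n < 2 ^ l := hl ▸ Nat.lt_pow_succ_log_self (by norm_num) n
  obtain ⟨t, ht⟩ : ∃ t, t = c * (2 * l) := ⟨_, rfl⟩
  obtain ⟨k, hk⟩ : ∃ k, k = 2120 * l * t ^ 2 := ⟨_, rfl⟩
  obtain ⟨M, hM⟩ : ∃ M, M = 12 * l * k ^ 6 := ⟨_, rfl⟩
  have h1 : 10 ^ 17 * (8640 * M) ^ 15 ≤ n := by
    have : 8640 * M = 8640 * 12 * 2120 ^ 6 * (2 * c) ^ 12 * l ^ 19 := by rw [hM, hk, ht]; ring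
    rw [this, mul_pow _ (l ^ 19), ← pow_mul, ← mul_assoc, hl]
    exact h0
  clear h0 hn0
  have ht1 : c ≤ t := ht ▸ Nat.le_mul_of_pos_right _ (by omega)
  have ht2 : 8 ≤ t := by rw [ht]; nlinarith
  have hk1 : 2120 * t ^ 2 ≤ k := by rw [hk]; gcongr; exact Nat.le_mul_of_pos_right _ hl1
  have hk2 : 2 * l ≤ k := by rw [hk]; nlinarith [Nat.one_le_pow 2 t (by omega)]
  have hM1 : k ^ 6 ≤ M := hM ▸ Nat.le_mul_of_pos_left _ (by omega)
  have hk3 : k ≤ k ^ 6 := Nat.le_self_pow (by norm_num) _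
  have hM2 : 8640 * M ≤ n := by
    have := Nat.le_self_pow (n := 15) (by norm_num) (8640 * M)
    omega
  have : Nonempty α := Fintype.card_pos_iff.1 (by omega)
  have hβ : n / (20 * t) * (20 * t) ≤ n := Nat.div_mul_le_self _ _
  obtain ⟨m, hm, T, hT, hA⟩ := exists_frame hE J (2 * l) t (n / (20 * t)) (by omega) hJ (by omega)
    (by rw [ht, hc]) (by
      have h2 : Real.log n ≤ Real.log (2 ^ l) :=
        Real.log_le_log (by exact_mod_cast (by omega : 0 < n)) (by exact_mod_cast hl2.le)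
      rw [Real.log_pow] at h2
      have h3 := mul_le_mul_of_nonneg_left Real.log_two_lt_d9.le (Nat.cast_nonneg (α := ℝ) l)
      have h4 : (0 : ℝ) ≤ l := Nat.cast_nonneg _
      push_cast
      linarith) (by
      calc (5 * t ^ 2 * J ^ 2) ^ 2 ≤ (k * k) ^ 2 := by
            refine Nat.pow_le_pow_left (Nat.mul_le_mul (by omega) ?_) _
            have := Nat.le_self_pow (n := 2) (by norm_num) t
            omega
        _ = k ^ 4 := by ring
        _ ≤ k ^ 6 := Nat.pow_le_pow_right (by omega) (by norm_num)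
        _ ≤ n := by omega) (by nlinarith)
  have hm1 : m ≤ n := by simpa using Fintype.card_le_of_injective _ (hT 0)
  have hG : n / (240 * M) * (240 * M) ≤ n := Nat.div_mul_le_self _ _
  obtain ⟨S, hS1, hS2⟩ := exists_res hE hT (by simpa using hm) (n / (240 * M)) M k l (by omega) hl1
    (by omega) hl2 hM (by nlinarith)
  rw [Fintype.card_fin] at hS1
  have : Nonempty (Fin m) := ⟨⟨0, by omega⟩⟩
  refine assemble hE hT hA hS2 hl1 ?_ ?_ ?_ (by nlinarith) (X := 8640 * M) (by omega) h1 ?_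
  · have := card_le_univ S
    rw [Fintype.card_fin] at this
    omega
  · rw [Fintype.card_fin]
    exact (Nat.mul_le_mul_right _ hk2).trans hS1
  · rw [Nat.le_div_iff_mul_le (by omega)]
    refine le_trans ?_ (hS1.trans hm1)
    rw [hk]
    have : 26 + 80 * t ≤ 106 * t := by omega
    calc _ = (26 + 80 * t) * (20 * t * l * S.card) := by ring
      _ ≤ 106 * t * (20 * t * l * S.card) := Nat.mul_le_mul_right _ this
      _ = _ := by ring
  · intro r hr
    rw [Nat.le_div_iff_mul_le (by omega)]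
    nlinarith

end Pool.Agent.Lib.MP_356f68_co.Cube
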